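import Pool.Agent.R421.Z4.Sum5
import Pool.Agent.R421.Z8.Fin

/-!
# Project Z4: the curves with a point of order four, by height
-/

set_option autoImplicit false
set_option linter.all false

namespace Pool.Agent.R421.Z4

open Finset Filter WeierstrassCurve Pool.Agent.W262.RK Pool.Agent.W307.RT Pool.Agent.R421.HF
open Pool.Agent.W605.RT (sh_eq sh_negY two_tors int_root int_sqrt root_sq)
open Pool.Agent.W29.RT (nons neg_y SS card_SS abs_le_cube abs_le_sq)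
open Pool.Agent.R421.Z8 (dbl cop_eq)

/-- the reduced pair -/
theorem exists_red : ∀ (n : ℕ) (s t : ℤ), s.natAbs ≤ n → s ≠ 0 → ∃ k s' t' : ℤ, 0 < k ∧
    s = k * s' ∧ t = k ^ 2 * t' ∧ s' ≠ 0 ∧
    ∀ p : ℕ, p.Prime → ¬ ((p : ℤ) ∣ s' ∧ (p : ℤ) ^ 2 ∣ t') := by
  intro n
  induction n with
  | zero =>
    intro s t h h0
    exfalso
    apply h0
    omega
  | succ n ih =>
    intro s t h h0
    by_cases hm : ∀ p : ℕ, p.Prime → ¬ ((p : ℤ) ∣ s ∧ (p : ℤ) ^ 2 ∣ t)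
    · exact ⟨1, s, t, one_pos, by ring, by ring, h0, hm⟩
    · push Not at hm
      obtain ⟨p, hp, ⟨a, ha⟩, b, hb⟩ := hm
      have h1 : a ≠ 0 := by
        rintro rfl
        apply h0
        rw [ha, mul_zero]
      have h2 : a.natAbs ≤ n := by
        have h3 : s.natAbs = p * a.natAbs := by
          rw [ha, Int.natAbs_mul, Int.natAbs_natCast]
        have h4 := hp.two_le
        have h5 : 0 < a.natAbs := Int.natAbs_pos.2 h1
        nlinarith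
      obtain ⟨u, s', t', hu, e1, e2, e3, e4⟩ := ih a b h2 h1
      refine ⟨p * u, s', t', mul_pos (by exact_mod_cast hp.pos) hu, ?_, ?_, e3, e4⟩
      · rw [ha, e1]; ring
      · rw [hb, e2]; ring

/-- the relation between a curve and its parameters -/
def RelP (c p : ℤ × ℤ) : Prop := ∃ s t e k : ℤ, Rel4 c.1 c.2 s t e ∧ 0 < k ∧
  s = k * p.1 ∧ t = k ^ 2 * p.2 ∧ ∀ q : ℕ, q.Prime → ¬ ((q : ℤ) ∣ p.1 ∧ (q : ℤ) ^ 2 ∣ p.2)

theorem core4 {A B : ℤ} (hD : 4 * A ^ 3 + 27 * B ^ 2 ≠ 0)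
    (hT : ∃ P : (Sh A B).toAffine.Point, addOrderOf P = 4) : ∃ p, RelP (A, B) p := by
  obtain ⟨P, hP⟩ := hT
  have h4 : addOrderOf (P + P) = 2 := by
    have h : P + P = 2 • P := (two_nsmul P).symm
    rw [h, addOrderOf_nsmul' P two_ne_zero, hP]
    norm_num
  obtain ⟨e, he, hPP⟩ := two_tors h4
  have r1 := sh_eq.mp he.1
  obtain ⟨x, y, h, hxy, hy0, hE, hX⟩ := dbl hPP
  have r1' : e ^ 3 + A * e + B = 0 := by linarith
  obtain ⟨s, t, E, hR, hEe, hx, hy⟩ := four_of hD hy0 hE r1' hX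
  obtain ⟨k, s', t', hk, h1, h2, -, h3⟩ := exists_red _ s t le_rfl hR.hs
  exact ⟨(s', t'), s, t, E, k, hR, hk, h1, h2, h3⟩

open Classical in
/-- the parameters -/
noncomputable def Fp (c : ℤ × ℤ) : ℤ × ℤ := if h : ∃ ab, RelP c ab then h.choose else (0, 0)

theorem Fp_rel {c : ℤ × ℤ} (h : ∃ ab, RelP c ab) : RelP c (Fp c) := by
  unfold Fp
  rw [dif_pos h]
  exact h.choose_spec

theorem relP_unique {c c' p : ℤ × ℤ} (h : RelP c p) (h' : RelP c' p)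
    (hmin : ∀ p : ℕ, p.Prime → ¬ ((p : ℤ) ^ 4 ∣ c.1 ∧ (p : ℤ) ^ 6 ∣ c.2))
    (hmin' : ∀ p : ℕ, p.Prime → ¬ ((p : ℤ) ^ 4 ∣ c'.1 ∧ (p : ℤ) ^ 6 ∣ c'.2)) : c = c' := by
  obtain ⟨s, t, e, k, hR, hk, h1, h2, -⟩ := h
  obtain ⟨s', t', e', k', hR', hk', h1', h2', -⟩ := h'
  have e1 : k' ^ 2 * s ^ 2 = k ^ 2 * s' ^ 2 := by rw [h1, h1']; ring
  have e2 : k' ^ 2 * t = k ^ 2 * t' := by rw [h2, h2']; ring
  have h3 := hR.unique hR' hk.ne' hk'.ne' e1 e2 hmin hmin'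
  exact Prod.ext h3.1 h3.2

theorem relP_bound {A B : ℤ} {p : ℤ × ℤ} (h : RelP (A, B) p) {H : ℕ} (hH : 4 * |A| ^ 3 ≤ H)
    (hH' : 27 * B ^ 2 ≤ H) :
    ∃ n : ℕ, Pp p n ∧ n ^ 12 ≤ 10 ^ 7 * H := by
  obtain ⟨s, t, e, k, hR, hk, h1, h2, h3⟩ := h
  obtain ⟨-, ht, hs⟩ := hR.bound hH hH'
  have hk1 : 1 ≤ k := hk
  have hp1 : p.1 ≠ 0 := by
    intro h0
    apply hR.hs
    rw [h1, h0, mul_zero]
  have hp2 : p.2 ≠ 0 := by
    intro h0
    apply hR.ht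
    rw [h2, h0, mul_zero]
  have hp3 : p.1 ^ 2 - 4 * p.2 ≠ 0 := by
    intro h0
    apply hR.hd
    rw [h1, h2]
    linear_combination k ^ 2 * h0
  have b1 : p.1.natAbs ^ 12 ≤ 2000000 * H := by
    have e1 : s ^ 12 = k ^ 12 * p.1 ^ 12 := by rw [h1]; ring
    have e2 : 1 ≤ k ^ 12 := one_le_pow₀ hk1
    have e3 : 0 ≤ p.1 ^ 12 := by positivity
    have e4 : p.1 ^ 12 ≤ 2000000 * H := by nlinarith
    have e5 : ((p.1.natAbs ^ 12 : ℕ) : ℤ) = p.1 ^ 12 := by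
      push_cast
      exact Even.pow_abs (by decide) p.1
    have h4 : ((p.1.natAbs ^ 12 : ℕ) : ℤ) ≤ ((2000000 * H : ℕ) : ℤ) := by
      rw [e5]
      push_cast
      exact e4
    exact_mod_cast h4
  have b2 : p.2.natAbs ^ 6 ≤ 868 * H := by
    have e1 : t ^ 6 = k ^ 12 * p.2 ^ 6 := by rw [h2]; ring
    have e2 : 1 ≤ k ^ 12 := one_le_pow₀ hk1
    have e3 : 0 ≤ p.2 ^ 6 := by positivity
    have e4 : p.2 ^ 6 ≤ 868 * H := by nlinarith
    have e5 : ((p.2.natAbs ^ 6 : ℕ) : ℤ) = p.2 ^ 6 := by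
      push_cast
      exact Even.pow_abs (by decide) p.2
    have h4 : ((p.2.natAbs ^ 6 : ℕ) : ℤ) ≤ ((868 * H : ℕ) : ℤ) := by
      rw [e5]
      push_cast
      exact e4
    exact_mod_cast h4
  obtain ⟨x, hx⟩ : ∃ x, x = p.2.natAbs := ⟨_, rfl⟩
  have hx1 : 1 ≤ x := by
    rw [hx]
    exact Int.natAbs_pos.2 hp2
  obtain ⟨r, hr⟩ : ∃ r, r = Nat.sqrt x := ⟨_, rfl⟩
  have hr1 : 1 ≤ r := by
    rw [hr]
    exact Nat.sqrt_pos.2 hx1
  have hr2 : r ^ 2 ≤ x := by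
    rw [hr]
    exact Nat.sqrt_le' x
  have hr3 : x < (r + 1) ^ 2 := by
    rw [hr]
    exact Nat.lt_succ_sqrt' x
  refine ⟨max p.1.natAbs (r + 1), ⟨hp1, hp2, hp3, h3, le_max_left _ _, ?_⟩, ?_⟩
  · rw [← hx]
    exact hr3.le.trans (Nat.pow_le_pow_left (le_max_right _ _) 2)
  · rcases max_choice p.1.natAbs (r + 1) with h | h <;> rw [h]
    · refine b1.trans ?_
      have : 2000000 * H ≤ 10 ^ 7 * H := Nat.mul_le_mul_right _ (by norm_num)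
      exact this
    · calc (r + 1) ^ 12 ≤ (2 * r) ^ 12 := Nat.pow_le_pow_left (by omega) 12
        _ = 4096 * (r ^ 2) ^ 6 := by ring
        _ ≤ 4096 * x ^ 6 := Nat.mul_le_mul_left _ (Nat.pow_le_pow_left hr2 6)
        _ ≤ 4096 * (868 * H) := Nat.mul_le_mul_left _ (by rw [hx]; exact b2)
        _ ≤ 10 ^ 7 * H := by
          rw [← mul_assoc]
          exact Nat.mul_le_mul_right _ (by norm_num)

/-- the ranks -/
theorem relP_rank {A B : ℤ} {p : ℤ × ℤ} (h : RelP (A, B) p) :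
    Module.finrank ℤ (Sh A B).toAffine.Point ≤
      Module.finrank ℤ (EAB (p.1 ^ 2) (p.1 ^ 2 - 4 * p.2)).toAffine.Point := by
  obtain ⟨s, t, e, k, hR, hk, h1, h2, -⟩ := h
  refine hR.rk.trans (le_of_eq ?_)
  have hkq : (k : ℚ) ≠ 0 := by exact_mod_cast hk.ne'
  have hsq : (s : ℚ) = k * p.1 := by exact_mod_cast h1
  have htq : (t : ℚ) = k ^ 2 * p.2 := by exact_mod_cast h2
  obtain ⟨φ⟩ := Pool.Agent.W261.RT.iso (-((s : ℚ) ^ 2 + (s ^ 2 - 4 * t)))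
    ((s : ℚ) ^ 2 * (s ^ 2 - 4 * t)) 0 0 k hkq
  have hW : (⟨0, (-((s : ℚ) ^ 2 + (s ^ 2 - 4 * t)) + 3 * 0) / (k : ℚ) ^ 2, 0,
      ((s : ℚ) ^ 2 * (s ^ 2 - 4 * t) + 2 * 0 * (-((s : ℚ) ^ 2 + (s ^ 2 - 4 * t))) +
        3 * (0 : ℚ) ^ 2) / (k : ℚ) ^ 4,
      (0 + 0 * ((s : ℚ) ^ 2 * (s ^ 2 - 4 * t)) +
        (0 : ℚ) ^ 2 * (-((s : ℚ) ^ 2 + (s ^ 2 - 4 * t))) + (0 : ℚ) ^ 3) / (k : ℚ) ^ 6⟩ :
        WeierstrassCurve ℚ) = EAB (p.1 ^ 2) (p.1 ^ 2 - 4 * p.2) := by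
    unfold EAB
    simp only [WeierstrassCurve.mk.injEq, true_and]
    refine ⟨?_, ?_, ?_⟩
    · rw [htq, hsq]; push_cast; field_simp; ring
    · rw [htq, hsq]; push_cast; field_simp; ring
    · simp
  rw [hW] at φ
  have hW0 : EAB (s ^ 2) (s ^ 2 - 4 * t) = (⟨0, -((s : ℚ) ^ 2 + (s ^ 2 - 4 * t)), 0,
      (s : ℚ) ^ 2 * (s ^ 2 - 4 * t), 0⟩ : WeierstrassCurve ℚ) := by
    unfold EAB
    push_cast
    rfl
  rw [hW0]
  exact LinearEquiv.finrank_eq φ.toIntLinearEquiv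

/-- **Many curves.** -/
theorem low_of3 {N k e : ℕ} {ι : Type} (I : ℕ → Finset ι) (S T E : ι → ℤ) (X : ℕ → ℤ) (C : ℕ)
    (hR : ∀ K : ℕ, ∀ i ∈ I K,
      0 < S i ∧ 0 < T i ∧ S i ^ 2 < 4 * T i ∧ 3 * E i = S i ^ 2 - 2 * T i ∧
      ∀ A B : ℤ, Rel4 A B (S i) (T i) (E i) →
        ∃ P : (Sh A B).toAffine.Point, addOrderOf P = N)
    (hinj : ∀ K : ℕ, ∀ i ∈ I K, ∀ i' ∈ I K,
      ∀ u u' : ℤ, 0 < u → 0 < u' → u' * S i = u * S i' → u' ^ 2 * T i = u ^ 2 * T i' → i = i')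
    (hbd : ∀ K : ℕ, ∀ i ∈ I K, |T i| ≤ X K ∧ |E i| ≤ X K)
    (hX : ∀ K : ℕ, 256 * X K ^ 6 ≤ C * K ^ k) (hX0 : ∀ K, 0 ≤ X K)
    (hI : ∃ (c : ℝ) (T0 : ℕ), 0 < c ∧ ∀ K : ℕ, T0 ≤ K → c * K ^ e ≤ ((I K).card : ℝ)) :
    ∃ (c : ℝ) (C T0 : ℕ), 0 < c ∧ ∀ K H : ℕ, T0 ≤ K → C * K ^ k ≤ H →
      c * K ^ e ≤ ((CvN N H).card : ℝ) := by
  classical
  obtain ⟨c, T0, hc, hI⟩ := hI
  refine ⟨c, C, T0, hc, fun K H hK hH => ?_⟩
  -- the curves
  set fA : ι → ℤ := fun i => T i ^ 2 - 3 * E i ^ 2 with hfA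
  set fB : ι → ℤ := fun i => 2 * E i ^ 3 - T i ^ 2 * E i with hfB
  have hrel : ∀ i ∈ I K, Rel4 (fA i) (fB i) (S i) (T i) (E i) := by
    intro i hi
    obtain ⟨p1, p2, p3, p4, -⟩ := hR K i hi
    exact ⟨p4, rfl, rfl, p1.ne', p2.ne', by intro h0; linarith⟩
  have hmm : ∀ A B : ℤ, ∃ uAB : ℤ × ℤ × ℤ, 4 * A ^ 3 + 27 * B ^ 2 ≠ 0 →
      0 < uAB.1 ∧ A = uAB.1 ^ 4 * uAB.2.1 ∧ B = uAB.1 ^ 6 * uAB.2.2 ∧
      4 * uAB.2.1 ^ 3 + 27 * uAB.2.2 ^ 2 ≠ 0 ∧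
      ∀ p : ℕ, p.Prime → ¬ ((p : ℤ) ^ 4 ∣ uAB.2.1 ∧ (p : ℤ) ^ 6 ∣ uAB.2.2) := by
    intro A B
    by_cases h0 : 4 * A ^ 3 + 27 * B ^ 2 = 0
    · exact ⟨(0, 0, 0), fun h => absurd h0 h⟩
    · obtain ⟨u, A', B', h⟩ := exists_min _ A B le_rfl h0
      exact ⟨(u, A', B'), fun _ => h⟩
  choose mm hmm using hmm
  have h1 : (I K).card ≤ (CvN N H).card := by
    apply card_le_card_of_injOn (fun i => (mm (fA i) (fB i)).2)
    · intro i hi
      rw [mem_coe] at hi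
      have hr := hrel i hi
      obtain ⟨m1, m2, m3, m4, m5⟩ := hmm _ _ hr.disc
      change (mm (fA i) (fB i)).2 ∈ (CvN N H : Set (ℤ × ℤ))
      set u := (mm (fA i) (fB i)).1 with hu
      set AB := (mm (fA i) (fB i)).2 with hAB
      rw [mem_coe]
      unfold CvN
      rw [mem_filter]
      obtain ⟨b1, b2⟩ := hbd K i hi
      have hXK := hX K
      have hXn : 0 ≤ X K := hX0 K
      have hH' : 256 * X K ^ 6 ≤ (H : ℤ) := hXK.trans (by exact_mod_cast hH)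
      have t2 : T i ^ 2 ≤ X K ^ 2 := by
        rw [← sq_abs]
        exact pow_le_pow_left₀ (abs_nonneg _) b1 2
      have e2 : E i ^ 2 ≤ X K ^ 2 := by
        rw [← sq_abs]
        exact pow_le_pow_left₀ (abs_nonneg _) b2 2
      have t20 := sq_nonneg (T i)
      have e20 := sq_nonneg (E i)
      have hA1 : |fA i| ≤ 3 * X K ^ 2 := by
        rw [abs_le]
        constructor <;> simp only [hfA] <;> linarith
      have hB1 : |fB i| ≤ 2 * X K ^ 3 := by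
        have : fB i = E i * (2 * E i ^ 2 - T i ^ 2) := by
          simp only [hfB]; ring
        rw [this, abs_mul]
        have a1 : |2 * E i ^ 2 - T i ^ 2| ≤ 2 * X K ^ 2 := by
          rw [abs_le]
          constructor <;> linarith
        calc _ ≤ X K * (2 * X K ^ 2) := mul_le_mul b2 a1 (abs_nonneg _) hXn
          _ = _ := by ring
      have hu4 : 1 ≤ u ^ 4 := one_le_pow₀ (by omega)
      have hu6 : 1 ≤ u ^ 6 := one_le_pow₀ (by omega)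
      have hA2 : |AB.1| ≤ 3 * X K ^ 2 := by
        have : |fA i| = u ^ 4 * |AB.1| := by
          rw [m2, abs_mul, abs_of_nonneg (by positivity : (0 : ℤ) ≤ u ^ 4)]
        rw [this] at hA1
        have := abs_nonneg AB.1
        nlinarith
      have hB2 : |AB.2| ≤ 2 * X K ^ 3 := by
        have : |fB i| = u ^ 6 * |AB.2| := by
          rw [m3, abs_mul, abs_of_nonneg (by positivity : (0 : ℤ) ≤ u ^ 6)]
        rw [this] at hB1
        have := abs_nonneg AB.2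
        nlinarith
      have hA3 : 4 * |AB.1| ^ 3 ≤ H := by
        have : |AB.1| ^ 3 ≤ (3 * X K ^ 2) ^ 3 := pow_le_pow_left₀ (abs_nonneg _) hA2 3
        have h6 : (0 : ℤ) ≤ X K ^ 6 := by positivity
        calc 4 * |AB.1| ^ 3 ≤ 4 * (3 * X K ^ 2) ^ 3 := by linarith
          _ = 108 * X K ^ 6 := by ring
          _ ≤ 256 * X K ^ 6 := by linarith
          _ ≤ _ := hH'
      have hB3 : 27 * AB.2 ^ 2 ≤ H := by
        have : |AB.2| ^ 2 ≤ (2 * X K ^ 3) ^ 2 := pow_le_pow_left₀ (abs_nonneg _) hB2 2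
        rw [sq_abs] at this
        have h6 : (0 : ℤ) ≤ X K ^ 6 := by positivity
        calc 27 * AB.2 ^ 2 ≤ 27 * (2 * X K ^ 3) ^ 2 := by linarith
          _ = 108 * X K ^ 6 := by ring
          _ ≤ 256 * X K ^ 6 := by linarith
          _ ≤ _ := hH'
      refine ⟨?_, m4, hA3, hB3, m5, ?_⟩
      · rw [mem_product, mem_Icc, mem_Icc]
        have c1 := abs_le_cube AB.1
        have c2 := abs_le_sq AB.2
        have c3 := abs_nonneg AB.1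
        have c4 := sq_nonneg AB.2
        have c5 : (0 : ℤ) ≤ |AB.1| ^ 3 := by positivity
        have d1 : |AB.1| ≤ H := by linarith
        have d2 : |AB.2| ≤ H := by linarith
        rw [abs_le] at d1 d2
        exact ⟨d1, d2⟩
      · exact pt_transfer m1 m2 m3 ((hR K i hi).2.2.2.2 _ _ hr)
    · intro i hi i' hi' h
      rw [mem_coe] at hi hi'
      have hr := hrel i hi
      have hr' := hrel i' hi'
      obtain ⟨m1, m2, m3, -, -⟩ := hmm _ _ hr.disc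
      obtain ⟨m1', m2', m3', -, -⟩ := hmm _ _ hr'.disc
      have h' : (mm (fA i) (fB i)).2 = (mm (fA i') (fB i')).2 := h
      obtain ⟨p1, p2, p3, p4, -⟩ := hR K i hi
      obtain ⟨p1', p2', p3', p4', -⟩ := hR K i' hi'
      have q4 : (mm (fA i') (fB i')).1 ^ 4 * fA i =
          (mm (fA i) (fB i)).1 ^ 4 * fA i' :=
        gen4 m2 m2' (congrArg Prod.fst h')
      have q6 : (mm (fA i') (fB i')).1 ^ 6 * fB i =
          (mm (fA i) (fB i)).1 ^ 6 * fB i' :=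
        gen4 m3 m3' (congrArg Prod.snd h')
      obtain ⟨z1, z2⟩ := hr.inj_real hr' p3 p2 p2' p1 p1' m1 m1' q4 q6
      exact hinj K _ hi _ hi' _ _ m1 m1' z1 z2
  have h4 : ((I K).card : ℝ) ≤ ((CvN N H).card : ℝ) := by exact_mod_cast h1
  exact (hI K hK).trans h4

/-- the triples -/
def I3 (K : ℕ) : Finset ((Σ _ : ℕ, ℕ) × ℕ) := SS K ×ˢ Ico K (2 * K)

/-- the second invariant -/
def τ3 (i : (Σ _ : ℕ, ℕ) × ℕ) : ℕ := i.1.1 * i.2 + i.1.2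

lemma mem_I3 {K : ℕ} {i : (Σ _ : ℕ, ℕ) × ℕ} (hi : i ∈ I3 K) :
    1 ≤ i.1.2 ∧ i.1.2 < i.1.1 ∧ i.1.1 ≤ K ∧ i.1.1.Coprime i.1.2 ∧ K ≤ i.2 ∧ i.2 < 2 * K := by
  unfold I3 SS at hi
  rw [mem_product, mem_sigma, mem_Icc, mem_filter, mem_range, mem_Ico] at hi
  obtain ⟨⟨⟨k1, k2⟩, k3, k4⟩, k5, k6⟩ := hi
  refine ⟨?_, k3, k2, k4, k5, k6⟩
  rcases Nat.eq_zero_or_pos i.1.2 with h | h
  · rw [h, Nat.coprime_zero_right] at k4; omega
  · exact h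

lemma cop3 {K : ℕ} {i : (Σ _ : ℕ, ℕ) × ℕ} (hi : i ∈ I3 K) : (i.1.1 ^ 2).Coprime (τ3 i) := by
  obtain ⟨-, -, -, h, -, -⟩ := mem_I3 hi
  apply Nat.Coprime.pow_left
  unfold τ3
  rw [mul_comm, Nat.coprime_mul_right_add_right]
  exact h

theorem low4 : ∃ (c : ℝ) (C T0 : ℕ), 0 < c ∧ ∀ K H : ℕ, T0 ≤ K → C * K ^ 12 ≤ H →
    c * K ^ 3 ≤ ((CvN 4 H).card : ℝ) := by
  refine low_of3 (N := 4) (k := 12) (e := 3) I3 (fun i => 3 * (i.1.1 : ℤ))
    (fun i => 9 * (τ3 i : ℤ)) (fun i => 3 * (i.1.1 : ℤ) ^ 2 - 6 * (τ3 i : ℤ))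
    (fun K => 27 * (K : ℤ) ^ 2) (256 * 27 ^ 6) ?_ ?_ ?_ ?_ (fun K => by positivity) ?_
  · intro K i hi
    obtain ⟨h1, h2, h3, h4, h5, h6⟩ := mem_I3 hi
    have ha : (0 : ℤ) < i.1.1 := by exact_mod_cast (by omega : 0 < i.1.1)
    have hτ : i.1.1 ^ 2 < τ3 i := by
      unfold τ3
      have : i.1.1 * i.1.1 ≤ i.1.1 * i.2 := Nat.mul_le_mul_left _ (h3.trans h5)
      rw [pow_two]
      omega
    have hτ' : (i.1.1 : ℤ) ^ 2 < (τ3 i : ℤ) := by exact_mod_cast hτ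
    have h7 : 0 < (i.1.1 : ℤ) ^ 2 := by positivity
    refine ⟨by positivity, by linarith, ?_, by ring, ?_⟩
    · nlinarith
    · intro A B hR
      obtain ⟨q1, q2, q3, q4, q5⟩ := hR.pt4
      exact ⟨_, q5⟩
  · intro K i hi i' hi' u u' hu hu' h1 h2
    obtain ⟨b1, b2, b3, b4, b5, b6⟩ := mem_I3 hi
    obtain ⟨b1', b2', b3', b4', b5', b6'⟩ := mem_I3 hi'
    have e1 : u' * (i.1.1 : ℤ) = u * (i'.1.1 : ℤ) := by
      have : 3 * (u' * (i.1.1 : ℤ)) = 3 * (u * (i'.1.1 : ℤ)) := by linear_combination h1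
      linarith
    have e2 : u' ^ 2 * (τ3 i : ℤ) = u ^ 2 * (τ3 i' : ℤ) := by
      have : 9 * (u' ^ 2 * (τ3 i : ℤ)) = 9 * (u ^ 2 * (τ3 i' : ℤ)) := by linear_combination h2
      linarith
    have e3 : (u ^ 2 * u' ^ 2) * ((τ3 i : ℤ) * (i'.1.1 : ℤ) ^ 2) =
        (u ^ 2 * u' ^ 2) * ((τ3 i' : ℤ) * (i.1.1 : ℤ) ^ 2) := by
      calc (u ^ 2 * u' ^ 2) * ((τ3 i : ℤ) * (i'.1.1 : ℤ) ^ 2) =
          (u' ^ 2 * (τ3 i : ℤ)) * (u * (i'.1.1 : ℤ)) ^ 2 := by ring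
        _ = (u ^ 2 * (τ3 i' : ℤ)) * (u' * (i.1.1 : ℤ)) ^ 2 := by rw [e2, e1]
        _ = _ := by ring
    have e4 := mul_left_cancel₀ (by positivity) e3
    have e5 : τ3 i * i'.1.1 ^ 2 = τ3 i' * i.1.1 ^ 2 := by exact_mod_cast e4
    have hτ1 : 1 ≤ τ3 i := by unfold τ3; omega
    obtain ⟨e6, e7⟩ := cop_eq (cop3 hi) (cop3 hi') hτ1 e5
    have e8 : i.1.1 = i'.1.1 := Nat.pow_left_injective two_ne_zero e6
    -- division
    unfold τ3 at e7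
    rw [← e8] at e7 b2'
    have e9 : i.2 = i'.2 := by
      have c1 : (i.1.1 * i.2 + i.1.2) / i.1.1 = i.2 := by
        rw [Nat.mul_add_div (by omega), Nat.div_eq_of_lt b2, add_zero]
      have c2 : (i.1.1 * i'.2 + i'.1.2) / i.1.1 = i'.2 := by
        rw [Nat.mul_add_div (by omega), Nat.div_eq_of_lt b2', add_zero]
      rw [← c1, ← c2, e7]
    have e10 : i.1.2 = i'.1.2 := by
      rw [e9] at e7
      omega
    exact Prod.ext (Sigma.ext e8 (heq_of_eq e10)) e9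
  · intro K i hi
    obtain ⟨h1, h2, h3, h4, h5, h6⟩ := mem_I3 hi
    have hτ : τ3 i ≤ 3 * K ^ 2 := by
      unfold τ3
      calc i.1.1 * i.2 + i.1.2 ≤ K * (2 * K) + K * K :=
            add_le_add (Nat.mul_le_mul h3 h6.le) (by nlinarith)
        _ = 3 * K ^ 2 := by ring
    have hτ' : (τ3 i : ℤ) ≤ 3 * (K : ℤ) ^ 2 := by exact_mod_cast hτ
    have ha : (i.1.1 : ℤ) ^ 2 ≤ (K : ℤ) ^ 2 := by
      exact_mod_cast Nat.pow_le_pow_left h3 2
    have hτ0 : (0 : ℤ) ≤ τ3 i := Int.natCast_nonneg _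
    have ha0 : (0 : ℤ) ≤ (i.1.1 : ℤ) ^ 2 := by positivity
    have hK0 : (0 : ℤ) ≤ (K : ℤ) ^ 2 := by positivity
    constructor
    · rw [abs_of_nonneg (by positivity)]
      linarith
    · rw [abs_le]
      constructor <;> linarith
  · intro K
    push_cast
    exact le_of_eq (by ring)
  · refine ⟨1 / 24, 5, by norm_num, fun K hK => ?_⟩
    have h2 := card_SS K hK
    have h3 : (K : ℝ) ^ 2 ≤ 24 * ((SS K).card : ℝ) := by exact_mod_cast h2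
    have h4 : (I3 K).card = (SS K).card * K := by
      unfold I3
      rw [card_product, Nat.card_Ico]
      congr 1
      omega
    rw [h4]
    push_cast
    have hK0 : (0 : ℝ) ≤ K := Nat.cast_nonneg K
    nlinarith

/-- **Main theorem.** -/
theorem main4 : ∃ α : ℝ, 0 < α ∧ ∃ C : ℝ, ∀ H : ℕ,
    ∑ c ∈ CvN 4 H, ((2 : ℝ) ^ Module.finrank ℤ (Sh c.1 c.2).toAffine.Point) ^ α ≤
      C * (CvN 4 H).card := by
  classical
  obtain ⟨α, hα, -, C, hC, hbox⟩ := sum5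
  refine ⟨α, hα, ?_⟩
  apply final_gen (k := 12) (e := 3) (by norm_num) (fun H => CvN 4 H) _
    (w4 α) (fun t n => Pp t n)
  · exact fun t n T h hn => Pp_mono t n T h hn
  · refine ⟨10 ^ 7, Fp, fun H => ⟨?_, ?_⟩⟩
    · intro c hc c' hc' hcc
      rw [Finset.mem_coe] at hc hc'
      simp only [CvN, Finset.mem_filter] at hc hc'
      obtain ⟨-, hD, -, -, hmin, hT⟩ := hc
      obtain ⟨-, hD', -, -, hmin', hT'⟩ := hc'
      have r := Fp_rel (core4 hD hT)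
      have r' := Fp_rel (core4 hD' hT')
      change RelP c (Fp c) at r
      change RelP c' (Fp c') at r'
      rw [← hcc] at r'
      exact relP_unique r r' hmin hmin'
    · intro c hc
      simp only [CvN, Finset.mem_filter] at hc
      obtain ⟨-, hD, hH, hH', hmin, hT⟩ := hc
      have r := Fp_rel (core4 hD hT)
      change RelP c (Fp c) at r
      obtain ⟨n, hn1, hn2⟩ := relP_bound (A := c.1) (B := c.2) r hH hH'
      have hrk := relP_rank (A := c.1) (B := c.2) r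
      refine ⟨n, hn1, hn2, ?_⟩
      unfold w4
      apply Real.rpow_le_rpow (by positivity) _ hα.le
      exact pow_le_pow_right₀ (by norm_num) hrk
  · exact low4
  · exact ⟨C, hC, fun T hT Ω hΩ => hbox T hT Ω hΩ⟩

end Pool.Agent.R421.Z4
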