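import Pool.Agent.R421.Z4.Frm
import Pool.Agent.R421.HF.Avg

/-!
# Project Z4: the bound of the rank
-/

set_option autoImplicit false
set_option linter.all false

namespace Pool.Agent.R421.Z4

open Finset Pool.Agent.W262.RK Pool.Agent.W307.RT Pool.Agent.TH841.PT Pool.Agent.R421.HF
open Pool.Agent.R421.UR
open Pool.Agent.W571.RT (jac_sq)
open Pool.Agent.Y474.Z8 (sg0_neg_one sg0_one val_one)

section gen

variable {J : Type} [Fintype J] [DecidableEq J]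

/-- the number of the primes outside `S1` -/
lemma bad6 {ty : J → ℕ → Option Ty} {f : J → ℤ} {A B : ℤ} {z y D G : ℕ} (hG : G ≠ 0)
    (hzy : z < y) (h0 : ∀ j, f j ≠ 0)
    (hbad : ∀ p : ℕ, p.Prime → z < p → (p : ℤ) ∣ 2 * A * B * (A - B) →
      p ∣ G ∨ ∃ j, (p : ℤ) ∣ f j)
    (hsz : ∀ j, (f j).natAbs < (y + 1) ^ D) (Nt : ℕ → Prop) [DecidablePred Nt]
    (hNt : ∀ p : ℕ, p.Prime → z < p → ¬ p ∣ G → ∀ j, (p : ℤ) ∣ f j → ty j p = none → Nt p) :
    ((2 * A * B * (A - B)).natAbs.primeFactors.filter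
        (fun q => ¬ q ∣ ∏ i, S1 z y (prv ty z f) i ∧ ¬ Nt q)).card ≤
      z + Fintype.card J * D + ∑ i, (S2 z y (prv ty z f) i).primeFactors.card +
        G.primeFactors.card := by
  have hsub : ((2 * A * B * (A - B)).natAbs.primeFactors.filter
        (fun q => ¬ q ∣ ∏ i, S1 z y (prv ty z f) i ∧ ¬ Nt q)) ⊆
      (((Icc 1 z) ∪ univ.biUnion (fun j => (f j).natAbs.primeFactors.filter (y < ·))) ∪
        univ.biUnion (fun i => (S2 z y (prv ty z f) i).primeFactors)) ∪ G.primeFactors := by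
    intro q hq
    rw [mem_filter] at hq
    have hp := Nat.prime_of_mem_primeFactors hq.1
    have hdv := Nat.dvd_of_mem_primeFactors hq.1
    rw [mem_union, mem_union, mem_union, mem_Icc]
    by_cases hqG : q ∣ G
    · right
      exact Nat.mem_primeFactors.2 ⟨hp, hqG, hG⟩
    left
    rcases Nat.lt_or_ge z q with h | h
    swap
    · exact Or.inl (Or.inl ⟨hp.one_lt.le, h⟩)
    · have hdv2 : (q : ℤ) ∣ 2 * A * B * (A - B) := Int.natCast_dvd.2 hdv
      obtain ⟨l, hl⟩ := (hbad q hp h hdv2).resolve_left hqG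
      rcases Nat.lt_or_ge y q with hyq | hyq
      · left; right
        rw [mem_biUnion]
        refine ⟨l, mem_univ _, ?_⟩
        rw [mem_filter, Nat.mem_primeFactors]
        exact ⟨⟨hp, Int.natCast_dvd.1 hl, Int.natAbs_ne_zero.2 (h0 l)⟩, hyq⟩
      · right
        have hPS : q ∈ PS z y := mem_PS.2 ⟨⟨h, hyq⟩, hp⟩
        rcases hty : ty l q with _ | θ
        · exact absurd (hNt q hp h hqG l hl hty) hq.2.2
        rw [mem_biUnion]
        refine ⟨(l, θ), mem_univ _, ?_⟩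
        have hl' : (q : ℤ) ∣ prv ty z f (l, θ) := (prv_dvd h0 _ hp h).2 ⟨hl, hty⟩
        have hsq : (q : ℤ) ^ 2 ∣ prv ty z f (l, θ) := by
          by_contra hcon
          apply hq.2.1
          refine dvd_trans ?_ (dvd_prod_of_mem _ (mem_univ (l, θ)))
          exact dvd_prod_of_mem _ (mem_filter.2 ⟨hPS, hl', hcon⟩)
        rw [Nat.mem_primeFactors]
        refine ⟨hp, dvd_prod_of_mem _ (mem_filter.2 ⟨hPS, hsq⟩), ?_⟩
        exact prod_ne_zero_iff.2 fun p hp => (mem_PS.1 (mem_filter.1 hp).1).2.ne_zero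
  have hone : ∀ j, ((f j).natAbs.primeFactors.filter (y < ·)).card ≤ D := by
    intro j
    set S := (f j).natAbs.primeFactors.filter (y < ·) with hS
    have h1 : (y + 1) ^ S.card ≤ ∏ q ∈ S, q :=
      Finset.pow_card_le_prod _ _ _ (fun q hq => by
        have := (mem_filter.1 hq).2
        omega)
    have h2 : ∏ q ∈ S, q ∣ (f j).natAbs :=
      (prod_dvd_prod_of_subset _ _ _ (filter_subset _ _)).trans (Nat.prod_primeFactors_dvd _)
    have h3 : ∏ q ∈ S, q ≤ (f j).natAbs :=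
      Nat.le_of_dvd (Nat.pos_of_ne_zero (Int.natAbs_ne_zero.2 (h0 j))) h2
    have h4 : (y + 1) ^ S.card < (y + 1) ^ D := (h1.trans h3).trans_lt (hsz j)
    exact ((Nat.pow_lt_pow_iff_right (by omega)).1 h4).le
  refine (card_le_card hsub).trans ((card_union_le _ _).trans (add_le_add ?_ le_rfl))
  refine ((card_union_le _ _).trans (add_le_add
    ((card_union_le _ _).trans (add_le_add ?_ ?_)) card_biUnion_le))
  · simp
  · refine card_biUnion_le.trans ?_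
    refine (sum_le_sum fun j _ => hone j).trans ?_
    rw [sum_const, card_univ, smul_eq_mul]

/-- The bound of the rank by the local count. -/
theorem rnk6 {cls : J → Fin 4} (hcls : ∀ j, cls j ≠ 3) {ty : J → ℕ → Option Ty} {f : J → ℤ}
    {A B : ℤ} {z y D G : ℕ} (hG : G ≠ 0) (hz : 2 ≤ z) (hzy : z < y) (h0 : ∀ j, f j ≠ 0)
    (hA0 : A ≠ 0) (hB0 : B ≠ 0) (hAB : A ≠ B)
    (hun : ∀ p : ℕ, p.Prime → z < p → ∀ j l, (p : ℤ) ∣ f j → (p : ℤ) ∣ f l → j = l)
    (hloc : ∀ p : ℕ, p.Prime → z < p → ∀ j θ, (p : ℤ) ∣ f j → ¬ (p : ℤ) ^ 2 ∣ f j →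
      ty j p = some θ → ∃ k : ℤ, ¬ (p : ℤ) ∣ k ∧ LocM (cls j) k p A B ∧ sg0 p k = θ 0)
    (hneu : ∀ p : ℕ, p.Prime → z < p → ¬ p ∣ G → ∀ j, (p : ℤ) ∣ f j → ty j p = none →
      NeuM (cls j) p A B)
    (hbad : ∀ p : ℕ, p.Prime → z < p → (p : ℤ) ∣ 2 * A * B * (A - B) →
      p ∣ G ∨ ∃ j, (p : ℤ) ∣ f j)
    (hsz : ∀ j, (f j).natAbs < (y + 1) ^ D) :
    (2 : ℝ) ^ Module.finrank ℤ (EAB A B).toAffine.Point ≤
      4 ^ (z + Fintype.card J * D + 2) * 4 ^ G.primeFactors.card *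
        4 ^ (∑ i, (S2 z y (prv ty z f) i).primeFactors.card) *
        (NL (∏ i, S1 z y (prv ty z f) i)
          (LTs (clsI cls) eI (S1 z y (prv ty z f)) ∅) : ℝ) := by
  classical
  set g := prv ty z f with hg
  set s := S1 z y g with hs
  have hmem : s ∈ Tup (J × Ty) z y := by
    apply Pool.Agent.W571.RT.S1_mem
    rintro p hp hzp i i' hii' ⟨h1, h2⟩
    exact (prv_Gd h0 hun).2 p hp hzp i i' hii' ⟨h1, h2⟩
  have hmd : ∏ i, s i ∣ PP z y := Pool.Agent.W262.RK.Tup_prod_dvd hmem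
  have hPSof : ∀ p : ℕ, p.Prime → p ∣ ∏ i, s i → p ∈ PS z y := fun p hp h =>
    (prime_dvd_PP hp).1 (h.trans hmd)
  have hodd2 : ∀ p : ℕ, p.Prime → p ∣ ∏ i, s i → 2 < p := by
    intro p hp h
    have h1 := (mem_PS.1 (hPSof p hp h)).1.1
    omega
  have hcI : ∀ i : J × Ty, clsI cls i ≠ 3 := fun i => hcls i.1
  have hlocm : LOCM := Pool.Agent.W571.RT.locm
  obtain ⟨Nt, hNt⟩ : ∃ Nt : ℕ → Prop, ∀ p, Nt p ↔
      (z < p ∧ ¬ p ∣ G ∧ ∃ j, (p : ℤ) ∣ f j ∧ ty j p = none) :=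
    ⟨_, fun p => Iff.rfl⟩
  have hd := desc5 (∏ i, s i) (LTs (clsI cls) eI s ∅) A B Nt hA0 hB0 hAB
    (by
      rw [← Nat.not_even_iff_odd, even_iff_two_dvd]
      intro h
      exact absurd (hodd2 2 Nat.prime_two h) (by norm_num))
    ((PP_squarefree z y).squarefree_of_dvd hmd)
    (fun p hp hpd => ⟨fun i hi => (Pool.Agent.Y474.Z8.LT_xc (hcI i) (eI i) _ _).1,
      fun a1 b1 c1 d1 a2 b2 c2 d2 e1 e2 i hi =>
        (Pool.Agent.Y474.Z8.LT_xc (hcI i) (eI i) _ _).2 a1 b1 c1 d1 a2 b2 c2 d2 (e1 i hi)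
          (e2 i hi)⟩)
    (fun p hp hpd x x' hx' hcurve e1 e2 he1 he2 hsq1 hsq2 i hi => by
      have hpp : p.Prime := Fact.out
      have his := (Pool.Agent.W571.RT.S1_dvd_iff hpp).1 hi
      have hzp := (mem_PS.1 his.1).1.1
      have h2p : 2 < p := hodd2 p hpp hpd
      have h1 := his.2.1
      rw [hg, prv_dvd h0 i hpp hzp] at h1
      have h2 : ¬ (p : ℤ) ^ 2 ∣ f i.1 := by
        intro h3
        apply his.2.2
        rw [hg, prv_pow h0 i hpp hzp two_ne_zero]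
        exact ⟨h3, h1.2⟩
      obtain ⟨k, hκ, h3, h4⟩ := hloc p hpp hzp i.1 i.2 h1.1 h2 h1.2
      have hfin := hlocm (clsI cls i) k p A B (hcI i)
        (by omega) hκ hA0 hB0 hAB h3 x x' hx' hcurve e1 e2 he1 he2 hsq1 hsq2
      have hdec : decide (p ∈ (∅ : Finset ℕ)) = false := by simp
      rw [hdec]
      exact Pool.Agent.Y474.Z8.LT_of_LL (hcI i) h4 hfin)
    (fun p hp hN x x' hx' hcurve => by
      obtain ⟨hzp, hpG, j, hj, hty⟩ := (hNt p).1 hN
      exact neum (by omega) hA0 hB0 hAB (hneu p hp.out hzp hpG j hj hty) x x' hx' hcurve)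
  have hc := bad6 (ty := ty) hG hzy h0 hbad hsz Nt
    (fun p hp hzp hpG j hj hty => (hNt p).2 ⟨hzp, hpG, j, hj, hty⟩)
  rw [← hg, ← hs] at hc
  have h1 : (2 : ℝ) ^ Module.finrank ℤ (EAB A B).toAffine.Point ≤
      4 ^ (((2 * A * B * (A - B)).natAbs.primeFactors.filter
        (fun q => ¬ q ∣ ∏ i, s i ∧ ¬ Nt q)).card + 2) *
          (NL (∏ i, s i) (LTs (clsI cls) eI s ∅) : ℝ) := by
    have h2 : (((2 ^ Module.finrank ℤ (EAB A B).toAffine.Point : ℕ)) : ℝ) ≤ _ :=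
      Nat.cast_le.2 hd
    push_cast at h2
    convert h2 using 2
  refine h1.trans (mul_le_mul_of_nonneg_right ?_ (Nat.cast_nonneg _))
  rw [← pow_add, ← pow_add]
  exact pow_le_pow_right₀ (by norm_num) (by omega)

end gen

/-- the first root -/
def A4 (g : ℕ) (a b : ℤ) : ℤ := (g * a) ^ 2

/-- the second root -/
def B4 (g : ℕ) (a b : ℤ) : ℤ := (g * a) ^ 2 - 4 * (g * b)

lemma diff4 (g : ℕ) (a b : ℤ) : A4 g a b - B4 g a b = 4 * (g * b) := by
  unfold A4 B4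
  ring

lemma B4_eq (g : ℕ) (a b : ℤ) : B4 g a b = g * (g * a ^ 2 - 4 * b) := by
  unfold B4
  ring

lemma nd4 {p : ℕ} (hp : p.Prime) (h2 : 2 < p) : ¬ (p : ℤ) ∣ 4 := by
  have hpi : Prime (p : ℤ) := Nat.prime_iff_prime_int.1 hp
  intro h
  have h5 : (p : ℤ) ∣ 2 ^ 2 := by norm_num; exact h
  have h6 := Int.le_of_dvd (by norm_num) (hpi.dvd_of_dvd_pow h5)
  omega

/-- the symbol of `-B` at a prime that divides `a` -/
lemma jacB {g : ℕ} {a b : ℤ} {p : ℕ} (hp : p.Prime) (h2 : 2 < p) (ha : (p : ℤ) ∣ a) :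
    jacobiSym (-(B4 g a b)) p = jacobiSym (g * b) p := by
  have h1 : jacobiSym (-(B4 g a b)) p = jacobiSym (2 ^ 2 * (g * b)) p := by
    apply jacobiSym.mod_left'
    have h3 : (p : ℤ) ∣ 2 ^ 2 * (g * b) - -(B4 g a b) := by
      have e : 2 ^ 2 * ((g : ℤ) * b) - -(B4 g a b) = g ^ 2 * a * a := by
        unfold B4
        ring
      rw [e]
      exact ha.mul_left _
    exact Int.modEq_iff_dvd.2 h3
  have h3 : ¬ (p : ℤ) ∣ 2 := by
    intro h
    have := Int.le_of_dvd (by norm_num) h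
    omega
  rw [h1, jacobiSym.mul_left, jac_sq hp h3, one_mul]

section

variable {g : ℕ} {a b : ℤ} (cop : IsCoprime a b) (cog : IsCoprime (g : ℤ) b)
  (h0 : ∀ j, F4 g a b j ≠ 0) {p : ℕ} (hp : p.Prime) (h2 : 2 < p)

include cop cog h0 hp h2

lemma loc4 (j : Fin 3) (θ : Ty) (h : (p : ℤ) ∣ F4 g a b j)
    (h' : ¬ (p : ℤ) ^ 2 ∣ F4 g a b j) (hty : ty4 g b j p = some θ) :
    ∃ k : ℤ, ¬ (p : ℤ) ∣ k ∧ LocM (c4 j) k p (A4 g a b) (B4 g a b) ∧ sg0 p k = θ 0 := by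
  have hpi : Prime (p : ℤ) := Nat.prime_iff_prime_int.1 hp
  have hpg : ¬ (p : ℤ) ∣ g := fun h3 => ty_nd hty (Int.natCast_dvd_natCast.1 h3)
  have nd : ∀ l : Fin 3, j ≠ l → ¬ (p : ℤ) ∣ F4 g a b l := fun l hl h3 =>
    hl (un4 cop cog hp h2 h h3)
  have nd1 : ¬ (p : ℤ) ∣ 1 := fun h => hpi.not_dvd_one h
  have nga : j ≠ 0 → ¬ (p : ℤ) ∣ g * a := by
    intro e h3
    rcases hpi.dvd_or_dvd h3 with h4 | h4
    · exact hpg h4
    · exact nd 0 e h4
  rcases fin3 j with rfl | rfl | rfl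
  · obtain ⟨hj, hθ⟩ := ty_0 hty
    refine ⟨1, nd1, ?_, ?_⟩
    · unfold LocM
      rw [if_pos (show c4 0 = 0 from rfl)]
      refine ⟨dvd_pow ((show (p : ℤ) ∣ a from h).mul_left _) two_ne_zero, ?_, ?_,
        Or.inr (jacobiSym.one_left p)⟩
      · rw [B4_eq]
        intro h3
        rcases hpi.dvd_or_dvd h3 with h4 | h4
        · exact hpg h4
        · exact nd 1 (by decide) h4
      · rw [one_mul, jacB hp h2 (show (p : ℤ) ∣ a from h)]
        exact hj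
    · rw [hθ, sg0_one]
      rfl
  · have hθ := ty_1 hty
    refine ⟨-1, fun h3 => nd1 (dvd_neg.1 h3), ?_, ?_⟩
    · unfold LocM
      rw [if_neg (show ¬ c4 1 = 0 by decide), if_pos (show c4 1 = 1 from rfl)]
      have h3 := nga (by decide)
      refine ⟨?_, ?_, ?_, Or.inl ?_⟩
      · rw [B4_eq]
        exact (show (p : ℤ) ∣ g * a ^ 2 - 4 * b from h).mul_left _
      · exact fun h4 => h3 (hpi.dvd_of_dvd_pow h4)
      · have e : -1 * -(A4 g a b) = (g * a) ^ 2 := by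
          unfold A4
          ring
        rw [e]
        exact jac_sq hp h3
      · rw [B4_eq, mul_comm, val_one hp (x := g * a ^ 2 - 4 * b) (h0 1) h h' hpg]
        exact odd_one
    · rw [hθ]
      unfold sg0
      rfl
  · have hθ := ty_2 hty
    refine ⟨1, nd1, ?_, ?_⟩
    · unfold LocM
      rw [if_neg (show ¬ c4 2 = 0 by decide), if_neg (show ¬ c4 2 = 1 by decide)]
      have h3 := nga (by decide)
      refine ⟨?_, ?_, ?_, Or.inr (jacobiSym.one_left p)⟩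
      · rw [diff4]
        exact ((show (p : ℤ) ∣ b from h).mul_left _).mul_left _
      · exact fun h4 => h3 (hpi.dvd_of_dvd_pow h4)
      · rw [one_mul]
        unfold A4
        exact jac_sq hp h3
    · rw [hθ, sg0_one]
      rfl

lemma neu4 (hpg : ¬ p ∣ g) (j : Fin 3) (h : (p : ℤ) ∣ F4 g a b j)
    (hty : ty4 g b j p = none) : NeuM (c4 j) p (A4 g a b) (B4 g a b) := by
  have hpi : Prime (p : ℤ) := Nat.prime_iff_prime_int.1 hp
  have hpg' : ¬ (p : ℤ) ∣ g := fun h3 => hpg (Int.natCast_dvd_natCast.1 h3)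
  haveI : Fact p.Prime := ⟨hp⟩
  rcases fin3 j with rfl | rfl | rfl
  · have hj : jacobiSym (g * b) p ≠ 1 := by
      intro h3
      rw [ty_s0 hpg h3] at hty
      exact absurd hty (by simp)
    unfold NeuM
    rw [if_pos (show c4 0 = 0 from rfl)]
    have hg0 : (g : ℤ) * a ≠ 0 := by
      intro h3
      rcases mul_eq_zero.1 h3 with h4 | h4
      · exact hpg' (h4 ▸ dvd_zero _)
      · exact h0 0 h4
    refine ⟨dvd_pow ((show (p : ℤ) ∣ a from h).mul_left _) two_ne_zero, ?_, ?_, ?_⟩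
    · rw [B4_eq]
      intro h3
      rcases hpi.dvd_or_dvd h3 with h4 | h4
      · exact hpg' h4
      · exact absurd (un4 cop cog hp h2 h (show (p : ℤ) ∣ F4 g a b 1 from h4)) (by decide)
    · unfold A4
      rw [pow_two, padicValInt.mul hg0 hg0]
      exact ⟨_, rfl⟩
    · rw [jacB hp h2 (show (p : ℤ) ∣ a from h)]
      exact hj
  · rw [ty_s1 hpg] at hty
    exact absurd hty (by simp)
  · rw [ty_s2 hpg] at hty
    exact absurd hty (by simp)

omit cop cog h0 in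
lemma bad4 (h : (p : ℤ) ∣ 2 * A4 g a b * B4 g a b * (A4 g a b - B4 g a b)) :
    p ∣ g ∨ ∃ j, (p : ℤ) ∣ F4 g a b j := by
  have hpi : Prime (p : ℤ) := Nat.prime_iff_prime_int.1 hp
  have hg : (p : ℤ) ∣ g → p ∣ g := fun h3 => Int.natCast_dvd_natCast.1 h3
  rw [diff4, B4_eq] at h
  rcases hpi.dvd_or_dvd h with h1 | h1
  · rcases hpi.dvd_or_dvd h1 with h3 | h3
    · rcases hpi.dvd_or_dvd h3 with h4 | h4
      · exfalso
        have := Int.le_of_dvd (by norm_num) h4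
        omega
      · unfold A4 at h4
        rcases hpi.dvd_or_dvd (hpi.dvd_of_dvd_pow h4) with h5 | h5
        · exact Or.inl (hg h5)
        · exact Or.inr ⟨0, h5⟩
    · rcases hpi.dvd_or_dvd h3 with h5 | h5
      · exact Or.inl (hg h5)
      · exact Or.inr ⟨1, h5⟩
  · rcases hpi.dvd_or_dvd h1 with h3 | h3
    · exact absurd h3 (nd4 hp h2)
    · rcases hpi.dvd_or_dvd h3 with h5 | h5
      · exact Or.inl (hg h5)
      · exact Or.inr ⟨2, h5⟩

end

lemma sz4 {g S : ℕ} {a b : ℤ} (hg : g ≤ S) (ha : a.natAbs ≤ S) (hb : b.natAbs ≤ 4 * g * S ^ 2)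
    (j : Fin 3) : (F4 g a b j).natAbs ≤ 17 * S ^ 3 := by
  have hb2 : b.natAbs ≤ 4 * S ^ 3 := by
    refine hb.trans ?_
    calc 4 * g * S ^ 2 ≤ 4 * S * S ^ 2 := Nat.mul_le_mul_right _ (Nat.mul_le_mul_left _ hg)
      _ = 4 * S ^ 3 := by ring
  rcases fin3 j with rfl | rfl | rfl
  · show a.natAbs ≤ _
    have : S ≤ S ^ 3 := Nat.le_self_pow (by norm_num) S
    omega
  · show ((g : ℤ) * a ^ 2 - 4 * b).natAbs ≤ _
    have h1 : ((g : ℤ) * a ^ 2 - 4 * b).natAbs ≤ ((g : ℤ) * a ^ 2).natAbs + (4 * b).natAbs :=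
      Int.natAbs_sub_le _ _
    rw [Int.natAbs_mul, Int.natAbs_mul, Int.natAbs_pow, Int.natAbs_natCast] at h1
    have h3 : g * a.natAbs ^ 2 ≤ S * S ^ 2 := Nat.mul_le_mul hg (Nat.pow_le_pow_left ha 2)
    have h4 : S * S ^ 2 = S ^ 3 := by ring
    have h5 : (4 : ℤ).natAbs = 4 := rfl
    rw [h5] at h1
    omega
  · show b.natAbs ≤ _
    omega

/-- the bound of the power of the rank -/
lemma rnkA4 {α : ℝ} (hα : 0 ≤ α) (hα1 : α ≤ 1) {z : ℕ}
    (hz : 17 ≤ z) {g S y k : ℕ} {a b : ℤ} (cop : IsCoprime a b) (cog : IsCoprime (g : ℤ) b)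
    (h0 : ∀ j, F4 g a b j ≠ 0) (hg1 : 1 ≤ g) (hg : g ≤ S) (ha : a.natAbs ≤ S)
    (hb : b.natAbs ≤ 4 * g * S ^ 2) (hzy : z < y) (hk : S < (y + 1) ^ k) :
    ((2 : ℝ) ^ Module.finrank ℤ (EAB (A4 g a b) (B4 g a b)).toAffine.Point) ^ α ≤
      4 ^ (z + 5) * (4 ^ 9) ^ k * 4 ^ g.primeFactors.card *
        4 ^ (∑ i, (S2 z y (pr4 g z a b) i).primeFactors.card) *
        NBA α (clsI c4) eI (S1 z y (pr4 g z a b)) := by
  have hcls : ∀ j, c4 j ≠ 3 := by decide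
  have hg0 : (g : ℤ) ≠ 0 := by exact_mod_cast (by omega : g ≠ 0)
  have hA0 : A4 g a b ≠ 0 := pow_ne_zero 2 (mul_ne_zero hg0 (h0 0))
  have hB0 : B4 g a b ≠ 0 := by
    rw [B4_eq]
    exact mul_ne_zero hg0 (h0 1)
  have hAB : A4 g a b ≠ B4 g a b := by
    rw [Ne, ← sub_eq_zero, diff4]
    exact mul_ne_zero (by norm_num) (mul_ne_zero hg0 (h0 2))
  have h1 := rnk6 (f := F4 g a b) (ty := ty4 g b) hcls (D := 3 * k + 1) (G := g) (by omega)
    (by omega) hzy h0 hA0 hB0 hAB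
    (fun p hp hzp j l => un4 cop cog hp (by omega))
    (fun p hp hzp j θ => loc4 cop cog h0 hp (by omega) j θ)
    (fun p hp hzp hpg j => neu4 cop cog h0 hp (by omega) hpg j)
    (fun p hp hzp => bad4 hp (by omega))
    (fun j => by
      have h2 := sz4 hg ha hb j
      have h3 : S ^ 3 ≤ ((y + 1) ^ k) ^ 3 := Nat.pow_le_pow_left hk.le _
      have h4 : 0 < ((y + 1) ^ k) ^ 3 := by positivity
      calc (F4 g a b j).natAbs ≤ 17 * S ^ 3 := h2
        _ ≤ 17 * ((y + 1) ^ k) ^ 3 := Nat.mul_le_mul_left _ h3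
        _ < (y + 1) * ((y + 1) ^ k) ^ 3 := Nat.mul_lt_mul_of_pos_right (by omega) h4
        _ = (y + 1) ^ (3 * k + 1) := by rw [← pow_mul, pow_succ, mul_comm k]; ring)
  rw [NBA_eq c4 hcls]
  have hK1 : (1 : ℝ) ≤ 4 ^ (z + Fintype.card (Fin 3) * (3 * k + 1) + 2) * 4 ^ g.primeFactors.card *
      4 ^ (∑ i, (S2 z y (pr4 g z a b) i).primeFactors.card) :=
    one_le_mul_of_one_le_of_one_le (one_le_mul_of_one_le_of_one_le (one_le_pow₀ (by norm_num))
      (one_le_pow₀ (by norm_num))) (one_le_pow₀ (by norm_num))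
  have h2 := pow_le_K hα hα1 (by positivity) hK1 (Nat.cast_nonneg _) h1
  refine h2.trans (le_of_eq ?_)
  have e : z + Fintype.card (Fin 3) * (3 * k + 1) + 2 = (z + 5) + 9 * k := by
    rw [Fintype.card_fin]
    ring
  rw [e, pow_add (4 : ℝ) (z + 5), pow_mul]
  rfl

end Pool.Agent.R421.Z4
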