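import Pool.Agent.R421.Z4.Cnt4
import Pool.Agent.R421.Z4.Rnk4
import Pool.Agent.R421.HF.MdlG

/-!
# Project Z4: the average over the boxes
-/

set_option autoImplicit false
set_option linter.all false

namespace Pool.Agent.R421.Z4

open Finset Pool.Agent.W262.RK Pool.Agent.W307.RT Pool.Agent.TH841.PT Pool.Agent.R421.HF
open Pool.Agent.R421.UR

/-- the coefficients of the weights -/
noncomputable def P4 (j : Fin 3) (κ : ℤ) : ℝ :=
  if κ = 1 then (if j = 0 then 1 / 2 else 1) else 0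

/-- the coefficients of the signed weights -/
noncomputable def Q4 (j : Fin 3) (κ : ℤ) : ℝ :=
  if j = 1 then (if κ = -1 then 1 else 0) else (if κ = 1 then (if j = 0 then 1 / 2 else 1) else 0)

lemma sumK4 (f : ℤ → ℝ) : ∑ κ ∈ ({1, -1} : Finset ℤ), f κ = f 1 + f (-1) := by
  rw [sum_insert (by decide), sum_singleton]

lemma sum_tyb (f : Ty → ℝ) (b : Bool) (x : ℝ) (h : ∀ θ, f θ = if tyb b = θ then x else 0) :
    ∑ θ, f θ = x := by
  rw [sum_congr rfl fun θ _ => h θ, sum_ite_eq, if_pos (mem_univ _)]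

lemma rs4 (j : Fin 3) (p : ℕ) : rs g4 j p = if j = 0 then 1 / 2 else 1 := by
  unfold rs
  rcases fin3 j with rfl | rfl | rfl
  · refine (sum_tyb _ false (1 / 2) fun θ => ?_).trans (by simp)
    unfold g4
    simp [eq_comm]
  · refine (sum_tyb _ (decide (jacobiSym (-1) p = -1)) 1 fun θ => ?_).trans (by simp)
    unfold g4
    simp [eq_comm]
  · refine (sum_tyb _ false 1 fun θ => ?_).trans (by simp)
    unfold g4
    simp [eq_comm]

lemma gP4 (j : Fin 3) (p : ℕ) : rs g4 j p = ∑ κ ∈ ({1, -1} : Finset ℤ), P4 j κ * Jr κ p := by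
  rw [rs4, sumK4, Jr_one']
  unfold P4
  simp

lemma gQ4 (j : Fin 3) {p : ℕ} (hp : p.Prime) (h2 : 2 < p) :
    ∑ θ : Ty, (if θ 0 = true then -1 else 1) * g4 (j, θ) p =
      ∑ κ ∈ ({1, -1} : Finset ℤ), Q4 j κ * Jr κ p := by
  rw [sumK4, Jr_one']
  rcases fin3 j with rfl | rfl | rfl
  · refine (sum_tyb _ false (1 / 2) fun θ => ?_).trans (by unfold Q4; simp)
    by_cases h : tyb false = θ
    · subst h
      unfold g4
      simp [tyb]
    · unfold g4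
      simp [h, Ne.symm h]
  · refine (sum_tyb _ (decide (jacobiSym (-1) p = -1)) (Jr (-1) p) fun θ => ?_).trans
      (by unfold Q4; simp)
    by_cases h : tyb (decide (jacobiSym (-1) p = -1)) = θ
    · subst h
      have hnd : ¬ (p : ℤ) ∣ -1 := by
        intro h3
        exact (Nat.prime_iff_prime_int.1 hp).not_dvd_one (dvd_neg.1 h3)
      unfold g4 Jr
      rcases Pool.Agent.R421.Z12.jac_pm hp hnd with h3 | h3
      · simp [h3, tyb]
      · simp [h3, tyb]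
    · unfold g4
      simp [h, Ne.symm h]
  · refine (sum_tyb _ false 1 fun θ => ?_).trans (by unfold Q4; simp)
    by_cases h : tyb false = θ
    · subst h
      unfold g4
      simp [tyb]
    · unfold g4
      simp [h, Ne.symm h]

lemma notsq4 (κ : ℤ) (h : κ ∈ ({1, -1} : Finset ℤ)) :
    κ ≠ 0 ∧ (κ = 1 ∨ ∀ r : ℤ, r ^ 2 ≠ κ) := by
  rw [mem_insert, mem_singleton] at h
  rcases h with rfl | rfl
  · exact ⟨by norm_num, Or.inl rfl⟩
  · exact ⟨by norm_num, Or.inr fun r hr => by nlinarith [sq_nonneg r]⟩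

lemma E4_eq (z y : ℕ) : E4 z y = (Real.exp (∑ j, Sp (rs g4 j) z y))⁻¹ := by
  unfold E4
  rw [Real.exp_neg]
  congr 2
  unfold Sp
  rw [sum_comm]
  refine sum_congr rfl fun p _ => ?_
  rw [Fin.sum_univ_three, rs4, rs4, rs4]
  simp
  ring

open Classical in
/-- **the average over the boxes** -/
theorem avg4 : ∃ α : ℝ, 0 < α ∧ α ≤ 1 ∧ ∃ C : ℝ, 0 ≤ C ∧ ∀ g S : ℕ, 1 ≤ g → g ≤ S →
    ∑ t ∈ (Bx g S).filter (fun t : ℤ × ℤ => IsCoprime t.1 t.2 ∧ IsCoprime (g : ℤ) t.2 ∧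
      ∀ j, F4 g t.1 t.2 j ≠ 0),
      ((2 : ℝ) ^ Module.finrank ℤ (EAB (A4 g t.1 t.2) (B4 g t.1 t.2)).toAffine.Point) ^ α ≤
        C * (g * (S : ℝ) ^ 3 * 16 ^ g.primeFactors.card) := by
  have hP0 : ∀ j κ, 0 ≤ P4 j κ := by
    intro j κ
    unfold P4
    split_ifs <;> norm_num
  have hQ0 : ∀ j κ, 0 ≤ Q4 j κ := by
    intro j κ
    unfold Q4
    split_ifs <;> norm_num
  have hcls : ∀ j, c4 j ≠ 3 := by decide
  have hm := mdlG c4 hcls g4 3 2 {1, -1} P4 Q4 (by decide) notsq4 hP0 hQ0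
    (fun j p _ _ => gP4 j p) (fun j p hp hz => gQ4 j hp hz) (by norm_num) g4_nonneg
    (fun j p => by rw [rs4]; split_ifs <;> norm_num)
  have a1 : ∀ j : Fin 3, 0 < P4 j 1 := by
    intro j
    unfold P4
    rw [if_pos rfl]
    split_ifs <;> norm_num
  have a2 : ∀ j : Fin 3, 0 ≤ (P4 j 1 + Q4 j 1) / 2 := by
    intro j
    have h1 := hP0 j 1
    have h2 := hQ0 j 1
    positivity
  have a3 : ∀ k : Fin 4, k ≠ 3 → Wc c4 (fun j => (P4 j 1 + Q4 j 1) / 2) k <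
      Wo c4 (fun j => P4 j 1) - Wc c4 (fun j => P4 j 1) k := by
    intro k hk
    have e1 : ∀ f : Fin 3 → ℝ, Wc c4 f k = ∑ j, if c4 j = k then f j else 0 := by
      intro f
      unfold Wc
      rw [sum_filter]
    have e2 : ∀ f : Fin 3 → ℝ, Wo c4 f = ∑ j, if c4 j ≠ 3 then f j else 0 := by
      intro f
      unfold Wo
      rw [sum_filter]
    rw [e1, e1, e2]
    simp only [Fin.sum_univ_three]
    have h4 : ∀ k : Fin 4, k ≠ 3 → k = 0 ∨ k = 1 ∨ k = 2 := by decide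
    rcases h4 k hk with rfl | rfl | rfl
    · simp [c4, P4, Q4] <;> norm_num
    · simp [c4, P4, Q4] <;> norm_num
    · simp [c4, P4, Q4] <;> norm_num
  obtain ⟨α, hα0, hα1, hmdl⟩ := mdl_alpha c4 _ _ a1 a2 a3
  refine ⟨α, hα0, hα1, ?_⟩
  obtain ⟨z0, hz0⟩ := hm
  obtain ⟨z, hz⟩ : ∃ z : ℕ, z = z0 + 17 := ⟨_, rfl⟩
  obtain ⟨C0, E0, hM⟩ := hz0 z (by omega)
  obtain ⟨CM, hCM⟩ := hmdl g4 3 z C0 E0 hM
  obtain ⟨Cc, K, y0, hCc0, hK1, hcn⟩ := cnt4 z (by omega)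
  -- the rank
  let r : ℕ → ℤ × ℤ → ℝ := fun g t =>
    ((2 : ℝ) ^ Module.finrank ℤ (EAB (A4 g t.1 t.2) (B4 g t.1 t.2)).toAffine.Point) ^ α
  have hr0 : ∀ g t, 0 ≤ r g t := fun g t => Real.rpow_nonneg (by positivity) _
  have hgbd : ∀ (i : Fin 3 × Ty) (p : ℕ), 0 ≤ g4 i p ∧ g4 i p ≤ ((3 : ℕ) : ℝ) := fun i p =>
    ⟨g4_nonneg i p, (g4_le i p).trans (by norm_num)⟩
  have hgn : ∀ {y' : ℕ} {s : Fin 3 × Ty → ℕ} (_ : s ∈ Tup (Fin 3 × Ty) z y')
      (i : Fin 3 × Ty), 0 ≤ gp (g4 i) 3 (s i) := fun hs i =>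
    gp4_nonneg (by omega) i ((Pool.Agent.W372.RK2.mem_Tup'.1 hs).1 i)
  suffices key : ∃ C2 : ℝ, ∀ θ : {q : ℕ × ℕ // 1 ≤ q.1 ∧ q.1 ≤ q.2},
      ∑ t ∈ (Bx θ.1.1 θ.1.2).filter (fun t : ℤ × ℤ =>
      IsCoprime t.1 t.2 ∧ IsCoprime (θ.1.1 : ℤ) t.2 ∧ ∀ j, F4 θ.1.1 t.1 t.2 j ≠ 0), r θ.1.1 t ≤
      C2 * (θ.1.1 * (θ.1.2 : ℝ) ^ 3 * 16 ^ θ.1.1.primeFactors.card) by
    obtain ⟨C2, hC2⟩ := key
    refine ⟨max C2 0, le_max_right _ _, fun g S hg hgS => ?_⟩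
    exact (hC2 ⟨(g, S), hg, hgS⟩).trans (mul_le_mul_of_nonneg_right (le_max_left _ _)
      (by positivity))
  refine Pool.Agent.Y455.Z8.antx (Fin 3 × Ty) (ℤ × ℤ) {q : ℕ × ℕ // 1 ≤ q.1 ∧ q.1 ≤ q.2}
    (fun θ => (Bx θ.1.1 θ.1.2).filter (fun t : ℤ × ℤ =>
      IsCoprime t.1 t.2 ∧ IsCoprime (θ.1.1 : ℤ) t.2 ∧ ∀ j, F4 θ.1.1 t.1 t.2 j ≠ 0))
    (fun θ => θ.1.2) (fun θ t => pr4 θ.1.1 z t.1 t.2)
    (fun θ => θ.1.1 * (θ.1.2 : ℝ) ^ 3 * 16 ^ θ.1.1.primeFactors.card) z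
    (fun y => Real.exp (∑ j, Sp (rs g4 j) z y))
    (fun s => NBA α (clsI c4) eI s * ∏ i, gp (g4 i) 3 (s i))
    (fun v => ∏ i, ((4 : ℝ) ^ (v i).primeFactors.card * (gp (g4 i) 3 (v i) / v i)))
    (fun w => ∏ i, (((3 : ℕ) : ℝ) ^ (w i).primeFactors.card / (w i : ℝ)))
    (fun θ t => r θ.1.1 t) (Cc * 4 ^ (z + 5)) (4 ^ 9) K y0
    (by omega) (fun y hy => Real.exp_pos _)
    (fun θ => θ.2.1.trans θ.2.2) (fun θ => by positivity) (fun X0 => ?_) (fun θ t ht => ?_)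
    (fun θ t => hr0 _ _) (by positivity) (one_le_pow₀ (by norm_num)) hK1
    (fun y s hs => ⟨?_, ?_⟩) (fun y Y hzy w hw => ?_) (fun lam hlam => ?_)
    (fun lam hlam => ?_) (fun lam hlam => ?_) ?_
  · -- small scales
    refine ⟨∑ g ∈ range (X0 + 1), ∑ S ∈ range (X0 + 1), ∑ t ∈ Bx g S, r g t, ?_⟩
    rintro ⟨⟨g, S⟩, hg, hgS⟩ hle
    simp only at hle hg hgS ⊢
    have e1 : ∑ t ∈ (Bx g S).filter (fun t : ℤ × ℤ =>
        IsCoprime t.1 t.2 ∧ IsCoprime (g : ℤ) t.2 ∧ ∀ j, F4 g t.1 t.2 j ≠ 0), r g t ≤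
        ∑ g ∈ range (X0 + 1), ∑ S ∈ range (X0 + 1), ∑ t ∈ Bx g S, r g t := by
      have k1 : ∑ t ∈ (Bx g S).filter (fun t : ℤ × ℤ =>
          IsCoprime t.1 t.2 ∧ IsCoprime (g : ℤ) t.2 ∧ ∀ j, F4 g t.1 t.2 j ≠ 0), r g t ≤
          ∑ t ∈ Bx g S, r g t :=
        sum_le_sum_of_subset_of_nonneg (filter_subset _ _) fun t _ _ => hr0 _ _
      have k2 : ∑ t ∈ Bx g S, r g t ≤ ∑ S ∈ range (X0 + 1), ∑ t ∈ Bx g S, r g t :=
        single_le_sum (f := fun S => ∑ t ∈ Bx g S, r g t)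
          (fun _ _ => sum_nonneg fun _ _ => hr0 _ _) (mem_range.2 (by omega))
      have k3 : ∑ S ∈ range (X0 + 1), ∑ t ∈ Bx g S, r g t ≤
          ∑ g ∈ range (X0 + 1), ∑ S ∈ range (X0 + 1), ∑ t ∈ Bx g S, r g t :=
        single_le_sum (f := fun g => ∑ S ∈ range (X0 + 1), ∑ t ∈ Bx g S, r g t)
          (fun _ _ => sum_nonneg fun _ _ => sum_nonneg fun _ _ => hr0 _ _)
          (mem_range.2 (by omega))
      exact k1.trans (k2.trans k3)
    have e2 : (1 : ℝ) ≤ g * (S : ℝ) ^ 3 * 16 ^ g.primeFactors.card := by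
      have f1 : (1 : ℝ) ≤ g := by exact_mod_cast hg
      have f2 : (1 : ℝ) ≤ (S : ℝ) ^ 3 := one_le_pow₀ (by exact_mod_cast hg.trans hgS)
      exact one_le_mul_of_one_le_of_one_le (one_le_mul_of_one_le_of_one_le f1 f2)
        (one_le_pow₀ (by norm_num))
    exact e1.trans (le_mul_of_one_le_right (sum_nonneg fun _ _ => sum_nonneg fun _ _ =>
      sum_nonneg fun _ _ => hr0 _ _) e2)
  · have h4 := (mem_filter.1 ht).2
    exact prv_Gd h4.2.2 (fun p hp hzp j l => un4 h4.1 h4.2.1 hp (by omega))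
  · exact mul_nonneg (NBA_nonneg _ _ _) (prod_nonneg fun i _ => hgn hs i)
  · exact prod_nonneg fun i _ => mul_nonneg (by positivity)
      (div_nonneg (hgn hs i) (Nat.cast_nonneg _))
  · exact prod_nonneg fun i _ => by positivity
  · -- the first sum
    obtain ⟨A, hA⟩ := RSPf.rsp (Fin 3 × Ty) z 3 g4 (NBA α (clsI c4) eI)
      (fun y => CM * Real.exp (∑ j, Sp (rs g4 j) z y)) 4 lam (by omega) hgbd (by norm_num) hlam
      (NBA_nonneg _ _)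
      (fun y hy s e' hse => suba hα0.le hα1 (clsI c4) eI z y s e' hse)
      (fun y hy => hCM y hy)
    refine ⟨A * CM, fun y hy => ?_⟩
    have := hA y hy
    rw [mul_assoc]
    exact this
  · exact RVU.rvp (Fin 3 × Ty) z 3 g4 4 lam (by omega) hgbd (by norm_num) hlam
  · exact RVU.rup (Fin 3 × Ty) ((3 : ℕ) : ℝ) lam (by norm_num) hlam
  -- the local majorant
  rintro ⟨⟨g, S⟩, hg1, hgS⟩ y Y k hy0 hzy hyK hk s hs v hv w hw h8 T' hT' hval
  simp only at hg1 hgS hyK hk h8 hT' hval ⊢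
  obtain ⟨W, hW⟩ : ∃ W : ℝ, W = 4 ^ (z + 5) *
      (4 ^ 9) ^ k * 4 ^ g.primeFactors.card * 4 ^ (∑ i, (v i).primeFactors.card) *
      NBA α (clsI c4) eI s := ⟨_, rfl⟩
  have hW0 : 0 ≤ W := by
    rw [hW]
    exact mul_nonneg (by positivity) (NBA_nonneg _ _ _)
  have e1 : ∀ t ∈ T', r g t ≤ W := by
    intro t ht
    have h4 := mem_filter.1 (hT' ht)
    obtain ⟨hts, htv, _⟩ := hval t ht
    have h5 := mem_Bx.1 h4.1
    have h6 := rnkA4 hα0.le hα1 (z := z) (by omega) h4.2.1 h4.2.2.1 h4.2.2.2 hg1 hgS h5.1 h5.2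
      hzy hk
    rw [hts, htv] at h6
    rw [hW]
    exact h6
  have e3 : (T'.card : ℝ) ≤ Cc * (g * S ^ 3 * 4 ^ g.primeFactors.card) * RW4 s v w *
      E4 z y := by
    refine le_trans ?_ (hcn S y Y hy0 hzy hyK s hs v hv w hw h8 g hg1)
    have h4 : T' ⊆ (Bx g S).filter (fun t : ℤ × ℤ => G4 g z y s v w t.1 t.2) := by
      intro t ht
      have h5 := mem_filter.1 (hT' ht)
      have h6 := hval t ht
      exact mem_filter.2 ⟨h5.1, ⟨h5.2.1, h5.2.2.1, h5.2.2.2, h6.1, h6.2.1, h6.2.2⟩⟩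
    exact_mod_cast card_le_card h4
  calc ∑ t ∈ T', r g t ≤ ∑ _t ∈ T', W := sum_le_sum e1
    _ = (T'.card : ℝ) * W := by rw [sum_const, nsmul_eq_mul]
    _ ≤ _ := mul_le_mul_of_nonneg_right e3 hW0
    _ = _ := by
        rw [hW, prod_mul_distrib (f := fun i => (4 : ℝ) ^ (v i).primeFactors.card),
          prod_pow_eq_pow_sum, E4_eq]
        have e16 : (16 : ℝ) ^ g.primeFactors.card = 4 ^ g.primeFactors.card *
            4 ^ g.primeFactors.card := by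
          rw [← mul_pow]
          norm_num
        rw [e16]
        unfold RW4
        rw [div_eq_mul_inv _ (Real.exp _)]
        ring

end Pool.Agent.R421.Z4
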