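import Pool.Agent.R421.Z4.Wgt

/-!
# Project Z4: the count of the pairs in a box
-/

set_option autoImplicit false
set_option linter.all false

namespace Pool.Agent.R421.Z4

open Finset Pool.Agent.W262.RK Pool.Agent.W307.RT Pool.Agent.TH841.PT Pool.Agent.R421.HF
open Pool.Agent.TH841.PT.CNTPf (mem_flt exp_le_div)
open Pool.Agent.Y515.Z8 (sum_w)

attribute [local irreducible] RW4 Pa

/-- the box -/
noncomputable def Bx (g S : ℕ) : Finset (ℤ × ℤ) :=
  (Icc (-(S : ℤ)) S) ×ˢ (Icc (-((4 * g * S ^ 2 : ℕ) : ℤ)) ((4 * g * S ^ 2 : ℕ) : ℤ))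

lemma mem_Bx {g S : ℕ} {t : ℤ × ℤ} :
    t ∈ Bx g S ↔ t.1.natAbs ≤ S ∧ t.2.natAbs ≤ 4 * g * S ^ 2 := by
  unfold Bx
  rw [mem_product, mem_Icc, mem_Icc]
  generalize 4 * g * S ^ 2 = n
  constructor
  · rintro ⟨⟨h1, h2⟩, h3, h4⟩
    constructor <;> omega
  · rintro ⟨h1, h2⟩
    refine ⟨⟨?_, ?_⟩, ?_, ?_⟩ <;> omega

/-- the normalisation -/
noncomputable def E4 (z y : ℕ) : ℝ := Real.exp (-∑ p ∈ PS z y, (5 / 2 : ℝ) / p)

lemma exp_two_le {x : ℝ} (h0 : 0 ≤ x) (h1 : x ≤ 1) : Real.exp x ≤ 1 + 2 * x := by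
  have h := Real.abs_exp_sub_one_le (x := x) (by rwa [abs_of_nonneg h0])
  rw [abs_of_nonneg h0] at h
  have := (abs_le.1 h).2
  linarith

section

variable {g z y Y : ℕ} {s v u : Fin 3 × Ty → ℕ}

open Classical in
/-- the density -/
noncomputable def rh (g M : ℕ) (p : ℕ) : ℝ :=
  if p < 4 then 1 else if p ∣ g ∨ p ∣ M then 1 else Real.exp (2 / p) / 2

lemma rh_bd (g M p : ℕ) : 0 ≤ rh g M p ∧ rh g M p ≤ 1 := by
  unfold rh
  split_ifs with h1 h2
  · norm_num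
  · norm_num
  · have hp : (4 : ℝ) ≤ p := by exact_mod_cast (by omega : 4 ≤ p)
    have h3 : (2 : ℝ) / p ≤ 1 / 2 := by
      rw [div_le_div_iff₀ (by linarith) (by norm_num)]
      linarith
    have h4 := exp_two_le (x := 2 / (p : ℝ)) (by positivity) (by linarith)
    constructor
    · positivity
    · linarith

open Classical in
/-- the local factors of a multiple of `M0` -/
lemma WA_mul {M0' M1' n : ℕ} {p : ℕ} (hp : p.Prime) (h4 : 4 ≤ p) (hg : p ∣ M0' → ¬ p ∣ g) :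
    WA g M1' ((M0' * n : ℕ) : ℤ) p = (if p ∣ g then Real.exp (2 / p) else 1) *
      (if p ∣ M1' then Real.exp (2 / p) else 1) *
      ((if p ∣ M0' then Real.exp (2 / p) / 2 else 1) * (if p ∣ n then rh g M0' p else 1)) := by
  have hd : ((p : ℤ) ∣ ((M0' * n : ℕ) : ℤ)) ↔ (p ∣ M0' ∨ p ∣ n) := by
    rw [Int.natCast_dvd_natCast, hp.dvd_mul]
  have e : ((if (p : ℤ) ∣ ((M0' * n : ℕ) : ℤ) ∧ ¬ p ∣ g then Real.exp (2 / (p : ℝ)) / 2 else 1) : ℝ) =
      (if p ∣ M0' then Real.exp (2 / (p : ℝ)) / 2 else 1) * (if p ∣ n then rh g M0' p else 1) := by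
    unfold rh
    rw [if_neg (by omega : ¬ p < 4)]
    simp only [hd]
    by_cases h1 : p ∣ M0'
    · have h2 := hg h1
      simp [h1, h2]
    · by_cases h2 : p ∣ g
      · simp [h1, h2]
      · simp [h1, h2]
  unfold WA
  rw [← e]

/-- the sum of the densities -/
lemma rh_sum {M : ℕ} {p : ℕ} (h4 : 4 ≤ p) :
    (open Classical in
    Real.exp (-((1 - rh g M p) / p)) ≤ Real.exp (-(1 / 2 / (p : ℝ))) *
      Real.exp (2 * (1 / (p : ℝ) ^ 2)) * ((if p ∣ g then Real.exp (1 / 2 / p) else 1) *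
      (if p ∣ M then Real.exp (1 / 2 / p) else 1))) := by
  have hp : (4 : ℝ) ≤ p := by exact_mod_cast h4
  have hp0 : (0 : ℝ) < p := by linarith
  have h1e : (1 : ℝ) ≤ Real.exp (1 / 2 / p) := Real.one_le_exp (by positivity)
  have h1f : (1 : ℝ) ≤ Real.exp (2 * (1 / (p : ℝ) ^ 2)) := Real.one_le_exp (by positivity)
  have hneg : Real.exp (-(1 / 2 / (p : ℝ))) * Real.exp (1 / 2 / (p : ℝ)) = 1 := by
    rw [← Real.exp_add]
    simp
  have hn0 : 0 < Real.exp (-(1 / 2 / (p : ℝ))) := Real.exp_pos _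
  unfold rh
  rw [if_neg (by omega : ¬ p < 4)]
  by_cases h : p ∣ g ∨ p ∣ M
  · rw [if_pos h]
    have h2 : (1 : ℝ) ≤ Real.exp (-(1 / 2 / (p : ℝ))) * Real.exp (2 * (1 / (p : ℝ) ^ 2)) *
        Real.exp (1 / 2 / p) := by
      have e : Real.exp (-(1 / 2 / (p : ℝ))) * Real.exp (2 * (1 / (p : ℝ) ^ 2)) *
        Real.exp (1 / 2 / p) = (Real.exp (-(1 / 2 / (p : ℝ))) * Real.exp (1 / 2 / (p : ℝ))) *
          Real.exp (2 * (1 / (p : ℝ) ^ 2)) := by ring
      rw [e, hneg, one_mul]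
      exact h1f
    have h3 : Real.exp (-((1 - 1) / (p : ℝ))) = 1 := by simp
    rw [h3]
    refine h2.trans ?_
    apply mul_le_mul_of_nonneg_left _ (by positivity)
    by_cases hg : p ∣ g
    · rw [if_pos hg]
      apply le_mul_of_one_le_right (by positivity)
      split_ifs
      · exact h1e
      · exact le_rfl
    · rw [if_neg hg, if_pos (h.resolve_left hg), one_mul]
  · have h' := not_or.1 h
    rw [if_neg h, if_neg h'.1, if_neg h'.2, mul_one, mul_one, ← Real.exp_add]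
    apply Real.exp_le_exp.2
    have h3 : (2 : ℝ) / p ≤ 1 / 2 := by
      rw [div_le_div_iff₀ (by linarith) (by norm_num)]
      linarith
    have h5 := exp_two_le (x := 2 / (p : ℝ)) (by positivity) (by linarith)
    have h6 : (Real.exp (2 / (p : ℝ)) / 2 - 1) / p ≤ (-(1 / 2) + 2 / p) / p := by
      apply div_le_div_of_nonneg_right _ hp0.le
      have : 2 * (2 / (p : ℝ)) = 2 * (2 / p) := rfl
      linarith
    have e1 : -((1 - Real.exp (2 / (p : ℝ)) / 2) / p) = (Real.exp (2 / (p : ℝ)) / 2 - 1) / p := by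
      ring
    have e2 : (-(1 / 2) + 2 / (p : ℝ)) / p = -(1 / 2 / (p : ℝ)) + 2 * (1 / (p : ℝ) ^ 2) := by
      field_simp
    rw [e1]
    linarith

end

lemma M01 (s v u : Fin 3 × Ty → ℕ) : M0 s v u * M1 s v u = ∏ i, mi s v u i := by
  unfold M0 M1
  exact prod_filter_mul_prod_filter_not _ _ _

lemma four_root {m x S : ℕ} (h1 : m ^ 4 ≤ S) (h2 : x ^ 4 ≤ S) (hS : 1 ≤ S) : m * x ≤ S := by
  by_contra h
  push Not at h
  have h3 : S ^ 4 < (m * x) ^ 4 := Nat.pow_lt_pow_left h (by norm_num)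
  have h4 : (m * x) ^ 4 ≤ S * S := by
    rw [mul_pow]
    exact Nat.mul_le_mul h1 h2
  have h5 : S * S ≤ S ^ 4 := by
    rw [← pow_two]
    exact Nat.pow_le_pow_right hS (by norm_num)
  omega

lemma sum_mult (M S : ℕ) (hM : 1 ≤ M) (f : ℕ → ℝ) (hf : ∀ n, 0 ≤ f n) :
    ∑ n ∈ Icc 1 S, (if M ∣ n then f n else 0) ≤ ∑ k ∈ Icc 1 (S / M), f (M * k) := by
  rw [← sum_filter]
  have h : (Icc 1 S).filter (fun n => M ∣ n) ⊆ (Icc 1 (S / M)).image (fun k => M * k) := by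
    intro n hn
    rw [mem_filter, mem_Icc] at hn
    obtain ⟨⟨h1, h2⟩, k, rfl⟩ := hn
    rw [mem_image]
    refine ⟨k, ?_, rfl⟩
    rw [mem_Icc]
    constructor
    · rcases Nat.eq_zero_or_pos k with h | h
      · subst h
        omega
      · exact h
    · rw [Nat.le_div_iff_mul_le hM, mul_comm]
      exact h2
  refine (sum_le_sum_of_subset_of_nonneg h fun n _ _ => hf n).trans ?_
  rw [sum_image]
  intro a _ b _ hab
  exact Nat.eq_of_mul_eq_mul_left hM hab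

open Classical in
/-- the factor of `g` -/
lemma Fg_le {g z y : ℕ} (hz : 4 ≤ z) (hg : 1 ≤ g) :
    ∏ p ∈ PS z y, ((if p ∣ g then Real.exp (2 / (p : ℝ)) else 1) *
      (if p ∣ g then Real.exp (1 / 2 / (p : ℝ)) else 1)) ≤ 4 ^ g.primeFactors.card := by
  have e1 : ∏ p ∈ PS z y, ((if p ∣ g then Real.exp (2 / (p : ℝ)) else 1) *
      (if p ∣ g then Real.exp (1 / 2 / (p : ℝ)) else 1)) ≤
      ∏ p ∈ PS z y, (if p ∣ g then (4 : ℝ) else 1) := by
    refine prod_le_prod (fun p _ => by split_ifs <;> positivity) fun p hp => ?_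
    have hp4 : (4 : ℝ) ≤ p := by exact_mod_cast (by have := (mem_PS.1 hp).1.1; omega : 4 ≤ p)
    split_ifs
    · have h3 : (2 : ℝ) / p ≤ 1 / 2 := by
        rw [div_le_div_iff₀ (by linarith) (by norm_num)]
        linarith
      have h4 : (1 : ℝ) / 2 / p ≤ 1 / 2 := by
        rw [div_le_iff₀ (by linarith)]
        linarith
      have h5 := exp_two_le (x := 2 / (p : ℝ)) (by positivity) (by linarith)
      have h6 := exp_two_le (x := 1 / 2 / (p : ℝ)) (by positivity) (by linarith)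
      have h7 : Real.exp (2 / (p : ℝ)) * Real.exp (1 / 2 / (p : ℝ)) ≤ 2 * 2 :=
        mul_le_mul (by linarith) (by linarith) (Real.exp_pos _).le (by norm_num)
      linarith
    · norm_num
  refine e1.trans ?_
  rw [← prod_filter, prod_const]
  apply pow_le_pow_right₀ (by norm_num)
  apply card_le_card
  intro p hp
  rw [mem_filter] at hp
  exact Nat.mem_primeFactors.2 ⟨(mem_PS.1 hp.1).2, hp.2, by omega⟩

lemma alg4 (C1 C2 eQ g S m0 m1 En En' Fg Fg' F1 H0 H0' : ℝ) :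
    2 * (C1 * (9 * (g * S ^ 2) / m1) * (En * (Fg * F1 * (H0 *
      (C2 * (S / m0) * (En' * eQ * (Fg' * H0'))))))) =
    2 * (C1 * 9) * (C2 * eQ) * (g * S ^ 3) * (En * En') * (Fg * Fg') *
      ((H0 * H0' * F1) / (m0 * m1)) := by
  simp only [div_eq_mul_inv, mul_inv]
  ring


open Classical in
/-- CNT -/
theorem cnt4 (z : ℕ) (hz : 6 ≤ z) : ∃ (C : ℝ) (K y0 : ℕ), 0 ≤ C ∧ 1 ≤ K ∧
    ∀ S y Y : ℕ, y0 ≤ y → z < y → y ^ K ≤ S →
    ∀ s ∈ Tup (Fin 3 × Ty) z y, ∀ v ∈ Tup (Fin 3 × Ty) z y, ∀ u ∈ Tup (Fin 3 × Ty) y Y,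
    (∏ i, s i * v i * u i) ^ 8 ≤ S → ∀ g : ℕ, 1 ≤ g →
      (((Bx g S).filter (fun t : ℤ × ℤ => G4 g z y s v u t.1 t.2)).card : ℝ) ≤
        C * (g * S ^ 3 * 4 ^ g.primeFactors.card) * RW4 s v u * E4 z y := by
  obtain ⟨C1, K1, y1, hC1, hK1, hA⟩ := fixA z hz
  obtain ⟨C2, K2, y2, hC2, hK2, hR⟩ := rho z (by omega)
  obtain ⟨Q, hQ0, hQ⟩ := sum_sq_le
  refine ⟨2 * (C1 * 9) * (C2 * Real.exp (2 * Q)), 4 * (K1 + K2), y1 + y2, by positivity,
    by omega, ?_⟩
  intro S y Y hy0 hzy hS s hs v hv u hu hsvu g hg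
  have hs' := (Pool.Agent.W372.RK2.mem_Tup'.1 hs).1
  have hv' := (Pool.Agent.W372.RK2.mem_Tup'.1 hv).1
  have hu' := (Pool.Agent.W372.RK2.mem_Tup'.1 hu).1
  have hy1 : 1 ≤ y := by omega
  have hS1 : 1 ≤ S := le_trans (Nat.one_le_pow _ _ hy1) hS
  obtain ⟨m0, hm0⟩ : ∃ m, m = M0 s v u := ⟨_, rfl⟩
  obtain ⟨m1, hm1⟩ : ∃ m, m = M1 s v u := ⟨_, rfl⟩
  have h0pos : 1 ≤ m0 := by rw [hm0]; exact M0_pos hs' hv' hu'
  have h1pos : 1 ≤ m1 := by rw [hm1]; exact M1_pos hs' hv' hu'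
  have hmo : moG s v u ^ 4 ≤ S := moG_le hs' hu' hsvu
  have hmo2 : m0 * m1 = moG s v u := by
    rw [hm0, hm1, M01]
    rfl
  have h04 : m0 ^ 4 ≤ S := by
    refine (Nat.pow_le_pow_left ?_ 4).trans hmo
    rw [← hmo2]
    exact Nat.le_mul_of_pos_right _ h1pos
  have h14 : m1 ^ 4 ≤ S := by
    refine (Nat.pow_le_pow_left ?_ 4).trans hmo
    rw [← hmo2]
    exact Nat.le_mul_of_pos_left _ h0pos
  have hyK1 : (y ^ K1) ^ 4 ≤ S := by
    rw [← pow_mul]
    exact (Nat.pow_le_pow_right hy1 (by omega)).trans hS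
  have hyK2 : (y ^ K2) ^ 4 ≤ S := by
    rw [← pow_mul]
    exact (Nat.pow_le_pow_right hy1 (by omega)).trans hS
  have hm0y : m0 * y ^ K2 ≤ S := four_root h04 hyK2 hS1
  have hm1y : m1 * y ^ K1 ≤ S := four_root h14 hyK1 hS1
  have hR0 := RW4_nonneg (u := u) (by omega : 3 < z) hs' hv'
  have hE0 : 0 < E4 z y := Real.exp_pos _
  obtain ⟨T, hT⟩ : ∃ T, T = (Bx g S).filter (fun t : ℤ × ℤ => G4 g z y s v u t.1 t.2) := ⟨_, rfl⟩
  rw [← hT]
  have hTG : ∀ t ∈ T, (t.1.natAbs ≤ S ∧ t.2.natAbs ≤ 4 * g * S ^ 2) ∧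
      G4 g z y s v u t.1 t.2 := by
    intro t ht
    rw [hT, mem_filter, mem_Bx] at ht
    exact ht
  rcases T.eq_empty_or_nonempty with hTe | ⟨t0, ht0⟩
  · rw [hTe, card_empty, Nat.cast_zero]
    exact mul_nonneg (mul_nonneg (by positivity) hR0) hE0.le
  have G0 := (hTG t0 ht0).2
  have hng : ∀ p : ℕ, p.Prime → p ∣ m0 → p ∈ PS z y → ¬ p ∣ g := by
    intro p hp hpm hP
    rw [hm0] at hpm
    unfold M0 at hpm
    obtain ⟨i, hi, h1⟩ := (hp.prime.dvd_finsetProd_iff _).1 hpm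
    unfold mi at h1
    exact ty_nd (G0.fm hzy hu hp h1).2.2
  -- the sizes
  obtain ⟨n4, hn4⟩ : ∃ n, n = 4 * g * S ^ 2 := ⟨_, rfl⟩
  obtain ⟨X, hX⟩ : ∃ X, X = 2 * n4 + 1 := ⟨_, rfl⟩
  obtain ⟨N, hN⟩ : ∃ N : ℤ, N = (n4 : ℤ) + 1 := ⟨_, rfl⟩
  have hgS : 1 ≤ g * S ^ 2 := Nat.mul_pos hg (pow_pos hS1 2)
  have hn4' : n4 = 4 * (g * S ^ 2) := by rw [hn4]; ring
  have hX9 : X ≤ 9 * (g * S ^ 2) := by
    rw [hX, hn4']
    generalize g * S ^ 2 = q at hgS
    omega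
  -- the bound on a fibre
  obtain ⟨f, hf⟩ : ∃ f : ℕ → ℝ, f = fun n : ℕ => C1 * ((9 * (g * S ^ 2) : ℕ) / (m1 : ℝ)) *
    ∏ p ∈ PS z y, (Real.exp (-(2 / (p : ℝ))) * WA g m1 (n : ℤ) p) := ⟨_, rfl⟩
  have hWA0 : ∀ (a : ℤ) p, 0 ≤ WA g m1 a p := by
    intro a p
    unfold WA
    split_ifs <;> positivity
  have hf0 : ∀ n, 0 ≤ f n := by
    intro n
    rw [hf]
    refine mul_nonneg (by positivity) (prod_nonneg fun p _ => mul_nonneg (Real.exp_pos _).le
      (hWA0 _ _))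
  have hfib : ∀ a ∈ (Icc (-(S : ℤ)) S).filter (fun w => w ≠ 0),
      ((T.filter (fun t : ℤ × ℤ => t.1 = a)).card : ℝ) ≤
      (fun n : ℕ => if m0 ∣ n then f n else 0) a.natAbs := by
    intro a ha
    have ha0 : a ≠ 0 := (mem_filter.1 ha).2
    have haS : a.natAbs ≤ S := by
      have := mem_Icc.1 (mem_filter.1 ha).1
      omega
    simp only
    rcases (T.filter (fun t : ℤ × ℤ => t.1 = a)).eq_empty_or_nonempty with he | ⟨t1, ht1⟩
    · rw [he, card_empty, Nat.cast_zero]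
      split_ifs
      · exact hf0 _
      · exact le_rfl
    have hd : m0 ∣ a.natAbs := by
      obtain ⟨h1, h2⟩ := mem_filter.1 ht1
      have h3 := (hTG t1 h1).2.dvdM0 (by omega) hzy hs hv hu
      rw [h2, ← hm0] at h3
      exact Int.natCast_dvd.1 h3
    rw [if_pos hd]
    have hma : ∏ p ∈ Pa g z y a, p ≤ S := by
      have h1 := Int.natCast_dvd.1 (ma_dvd g z y a)
      exact (Nat.le_of_dvd (Int.natAbs_pos.2 ha0) h1).trans haS
    have hXb : (∏ p ∈ Pa g z y a, p) * M1 s v u * y ^ K1 ≤ X := by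
      rw [← hm1, mul_assoc]
      refine (Nat.mul_le_mul hma hm1y).trans ?_
      have hq1 : S * S ≤ g * S ^ 2 := by
        rw [← pow_two]
        exact Nat.le_mul_of_pos_left _ hg
      rw [hX, hn4']
      generalize g * S ^ 2 = q at hq1
      omega
    have h1 := hA X y Y (by omega) hzy s hs v hv u hu g a N hXb
    have h2 : (T.filter (fun t : ℤ × ℤ => t.1 = a)).card ≤
        ((Icc 1 X).filter (fun t : ℕ => G4 g z y s v u a ((t : ℤ) - N))).card := by
      apply card_le_card_of_injOn (fun t : ℤ × ℤ => (t.2 + N).toNat)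
      · intro t ht
        have ht' := mem_filter.1 (mem_coe.1 ht)
        obtain ⟨⟨b1, b2⟩, gg⟩ := hTG t ht'.1
        rw [← hn4] at b2
        have e : (((t.2 + N).toNat : ℕ) : ℤ) = t.2 + N := Int.toNat_of_nonneg (by omega)
        have e0 : 1 ≤ (t.2 + N).toNat ∧ (t.2 + N).toNat ≤ X := by
          rw [hN, hX]
          constructor <;> omega
        rw [mem_coe, mem_filter, mem_Icc, e]
        refine ⟨e0, ?_⟩
        have e2 : t.2 + N - N = t.2 := by ring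
        rw [e2, ← ht'.2]
        exact gg
      · intro t ht r hr hab
        have ht' := mem_filter.1 (mem_coe.1 ht)
        have hr' := mem_filter.1 (mem_coe.1 hr)
        have bt := (hTG t ht'.1).1
        have br := (hTG r hr'.1).1
        rw [← hn4] at bt br
        simp only at hab
        have e1 : t.2 = r.2 := by omega
        exact Prod.ext (ht'.2.trans hr'.2.symm) e1
    refine (Nat.cast_le.2 h2).trans (h1.trans ?_)
    rw [hf, ← hm1]
    have e3 : ∏ p ∈ PS z y, (Real.exp (-(2 / (p : ℝ))) * WA g m1 a p) =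
        ∏ p ∈ PS z y, (Real.exp (-(2 / (p : ℝ))) * WA g m1 ((a.natAbs : ℕ) : ℤ) p) := by
      refine prod_congr rfl fun p _ => ?_
      have : WA g m1 a p = WA g m1 ((a.natAbs : ℕ) : ℤ) p := by
        unfold WA
        simp only [Int.dvd_natAbs]
      rw [this]
    rw [e3]
    apply mul_le_mul_of_nonneg_right _ (prod_nonneg fun p _ => mul_nonneg (Real.exp_pos _).le
      (hWA0 _ _))
    apply mul_le_mul_of_nonneg_left _ hC1
    apply div_le_div_of_nonneg_right _ (Nat.cast_nonneg _)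
    exact_mod_cast hX9
  -- the sum over the first variables
  have hsplit : (T.card : ℝ) ≤ 2 * ∑ n ∈ Icc 1 S, (if m0 ∣ n then f n else 0) := by
    refine le_trans ?_ (sum_w (fun n : ℕ => if m0 ∣ n then f n else 0) (fun n => by
      split_ifs
      · exact hf0 _
      · exact le_rfl) S)
    refine le_trans ?_ (sum_le_sum hfib)
    rw [← Nat.cast_sum, Nat.cast_le]
    apply le_of_eq
    apply card_eq_sum_card_fiberwise (f := fun t : ℤ × ℤ => t.1)
    intro t ht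
    have b := (hTG t (mem_coe.1 ht)).1
    have c := (hTG t (mem_coe.1 ht)).2.ne 0
    rw [mem_coe, mem_filter, mem_Icc]
    refine ⟨?_, c⟩
    simp only
    constructor <;> omega
  refine hsplit.trans ((mul_le_mul_of_nonneg_left (sum_mult m0 S h0pos f hf0)
    zero_le_two).trans ?_)
  -- the local factors
  obtain ⟨Fg, hFg⟩ : ∃ F : ℝ, F = ∏ p ∈ PS z y, (if p ∣ g then Real.exp (2 / (p : ℝ)) else 1) :=
    ⟨_, rfl⟩
  obtain ⟨Fg', hFg'⟩ : ∃ F : ℝ, F = ∏ p ∈ PS z y, (if p ∣ g then Real.exp (1 / 2 / (p : ℝ))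
    else 1) := ⟨_, rfl⟩
  obtain ⟨F1, hF1⟩ : ∃ F : ℝ, F = ∏ p ∈ PS z y, (if p ∣ m1 then Real.exp (2 / (p : ℝ)) else 1) :=
    ⟨_, rfl⟩
  obtain ⟨H0, hH0⟩ : ∃ F : ℝ, F = ∏ p ∈ PS z y, (if p ∣ m0 then Real.exp (2 / (p : ℝ)) / 2
    else 1) := ⟨_, rfl⟩
  obtain ⟨H0', hH0'⟩ : ∃ F : ℝ, F = ∏ p ∈ PS z y, (if p ∣ m0 then Real.exp (1 / 2 / (p : ℝ))
    else 1) := ⟨_, rfl⟩
  obtain ⟨En, hEn⟩ : ∃ F : ℝ, F = ∏ p ∈ PS z y, Real.exp (-(2 / (p : ℝ))) := ⟨_, rfl⟩
  obtain ⟨En', hEn'⟩ : ∃ F : ℝ, F = ∏ p ∈ PS z y, Real.exp (-(1 / 2 / (p : ℝ))) := ⟨_, rfl⟩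
  have pFg : 0 ≤ Fg := by rw [hFg]; exact prod_nonneg fun p _ => by split_ifs <;> positivity
  have pFg' : 0 ≤ Fg' := by rw [hFg']; exact prod_nonneg fun p _ => by split_ifs <;> positivity
  have pF1 : 0 ≤ F1 := by rw [hF1]; exact prod_nonneg fun p _ => by split_ifs <;> positivity
  have pH0 : 0 ≤ H0 := by rw [hH0]; exact prod_nonneg fun p _ => by split_ifs <;> positivity
  have pH0' : 0 ≤ H0' := by rw [hH0']; exact prod_nonneg fun p _ => by split_ifs <;> positivity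
  have pEn : 0 ≤ En := by rw [hEn]; exact prod_nonneg fun p _ => (Real.exp_pos _).le
  have pEn' : 0 ≤ En' := by rw [hEn']; exact prod_nonneg fun p _ => (Real.exp_pos _).le
  have hprod : ∀ k : ℕ, ∏ p ∈ PS z y, (Real.exp (-(2 / (p : ℝ))) *
      WA g m1 ((m0 * k : ℕ) : ℤ) p) =
      En * (Fg * F1 * (H0 * ∏ p ∈ PS z y, (if p ∣ k then rh g m0 p else 1))) := by
    intro k
    rw [hEn, hFg, hF1, hH0, ← prod_mul_distrib, ← prod_mul_distrib, ← prod_mul_distrib,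
      ← prod_mul_distrib]
    refine prod_congr rfl fun p hp => ?_
    have hpp := (mem_PS.1 hp).2
    rw [WA_mul hpp (by have := (mem_PS.1 hp).1.1; omega) (fun h => hng p hpp h hp)]
  have hyS : y ^ K2 ≤ S / m0 := by
    rw [Nat.le_div_iff_mul_le h0pos, mul_comm]
    exact hm0y
  have hrho := hR (S / m0) y (by omega) hzy hyS (rh g m0) (rh_bd g m0)
  have hexp : Real.exp (-∑ p ∈ PS z y, (1 - rh g m0 p) / p) ≤
      En' * Real.exp (2 * Q) * (Fg' * H0') := by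
    have h1 : Real.exp (-∑ p ∈ PS z y, (1 - rh g m0 p) / p) ≤
        ∏ p ∈ PS z y, (Real.exp (-(1 / 2 / (p : ℝ))) *
      Real.exp (2 * (1 / (p : ℝ) ^ 2)) * ((if p ∣ g then Real.exp (1 / 2 / p) else 1) *
      (if p ∣ m0 then Real.exp (1 / 2 / p) else 1))) := by
      rw [← sum_neg_distrib, Real.exp_sum]
      exact prod_le_prod (fun _ _ => (Real.exp_pos _).le) fun p hp =>
        rh_sum (by have := (mem_PS.1 hp).1.1; omega)
    refine h1.trans ?_
    rw [prod_mul_distrib, prod_mul_distrib, prod_mul_distrib, ← hEn', ← hFg', ← hH0',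
      ← Real.exp_sum, ← mul_sum]
    apply mul_le_mul_of_nonneg_right _ (mul_nonneg pFg' pH0')
    apply mul_le_mul_of_nonneg_left _ pEn'
    exact Real.exp_le_exp.2 (mul_le_mul_of_nonneg_left (hQ _) zero_le_two)
  -- the weights
  have hI0 : H0 * H0' = ∏ i ∈ univ.filter (fun i : Fin 3 × Ty => i.1 = 0),
      ((∏ p ∈ (s i).primeFactors, wl i p) * ∏ p ∈ (v i).primeFactors, wl i p) := by
    have h1 := G0.prodI (by omega) hzy hs hv hu (univ.filter (fun i : Fin 3 × Ty => i.1 = 0))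
      (fun p => Real.exp (2 / p) / 2 * Real.exp (1 / 2 / p))
    have h2 : ∏ i ∈ univ.filter (fun i : Fin 3 × Ty => i.1 = 0), mi s v u i = m0 := by
      rw [hm0]
      rfl
    rw [h2] at h1
    have h3 : H0 * H0' = ∏ p ∈ PS z y, (if p ∣ m0 then Real.exp (2 / (p : ℝ)) / 2 *
        Real.exp (1 / 2 / p) else 1) := by
      rw [hH0, hH0', ← prod_mul_distrib]
      refine prod_congr rfl fun p _ => ?_
      split_ifs
      · rfl
      · rw [one_mul]
    rw [h3, h1]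
    refine prod_congr rfl fun i hi => ?_
    have e : ∀ p : ℕ, wl i p = Real.exp (2 / p) / 2 * Real.exp (1 / 2 / p) := fun p => by
      unfold wl
      rw [if_pos (mem_filter.1 hi).2]
    congr 1
    · exact prod_congr rfl fun p _ => (e p).symm
    · exact prod_congr rfl fun p _ => (e p).symm
  have hI1 : F1 = ∏ i ∈ univ.filter (fun i : Fin 3 × Ty => i.1 ≠ 0),
      ((∏ p ∈ (s i).primeFactors, wl i p) * ∏ p ∈ (v i).primeFactors, wl i p) := by
    have h1 := G0.prodI (by omega) hzy hs hv hu (univ.filter (fun i : Fin 3 × Ty => i.1 ≠ 0))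
      (fun p => Real.exp (2 / p))
    have h2 : ∏ i ∈ univ.filter (fun i : Fin 3 × Ty => i.1 ≠ 0), mi s v u i = m1 := by
      rw [hm1]
      rfl
    rw [h2] at h1
    rw [hF1, h1]
    refine prod_congr rfl fun i hi => ?_
    have e : ∀ p : ℕ, wl i p = Real.exp (2 / p) := fun p => by
      unfold wl
      rw [if_neg (mem_filter.1 hi).2]
    congr 1
    · exact prod_congr rfl fun p _ => (e p).symm
    · exact prod_congr rfl fun p _ => (e p).symm
  have hRW : (H0 * H0' * F1) / ((m0 : ℝ) * m1) ≤ RW4 s v u := by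
    have h1 := G0.RW_ge (by omega) hs' hv' hu'
    have h2 : H0 * H0' * F1 = ∏ i, ((∏ p ∈ (s i).primeFactors, wl i p) *
        ∏ p ∈ (v i).primeFactors, wl i p) := by
      rw [hI0, hI1]
      exact prod_filter_mul_prod_filter_not _ _ _
    rw [h2]
    have h3 : ((∏ i, mi s v u i : ℕ) : ℝ) = (m0 : ℝ) * m1 := by
      rw [← M01, hm0, hm1]
      push_cast
      rfl
    rw [h3] at h1
    exact h1
  have hFF : Fg * Fg' ≤ 4 ^ g.primeFactors.card := by
    rw [hFg, hFg', ← prod_mul_distrib]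
    exact Fg_le (by omega) hg
  have hEE : En * En' = E4 z y := by
    rw [hEn, hEn', ← Real.exp_sum, ← Real.exp_sum, ← Real.exp_add]
    unfold E4
    congr 1
    rw [← sum_add_distrib, ← sum_neg_distrib]
    refine sum_congr rfl fun p _ => ?_
    ring
  have hm0R : (0 : ℝ) < m0 := by exact_mod_cast h0pos
  have hm1R : (0 : ℝ) < m1 := by exact_mod_cast h1pos
  have hsum : ∑ k ∈ Icc 1 (S / m0), f (m0 * k) ≤
      C1 * ((9 * (g * S ^ 2) : ℕ) / (m1 : ℝ)) * (En * (Fg * F1 * (H0 *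
        (C2 * (S / m0) * (En' * Real.exp (2 * Q) * (Fg' * H0')))))) := by
    rw [hf]
    simp only
    simp_rw [hprod]
    rw [← mul_sum]
    apply mul_le_mul_of_nonneg_left _ (by positivity)
    rw [← mul_sum]
    apply mul_le_mul_of_nonneg_left _ pEn
    rw [← mul_sum]
    apply mul_le_mul_of_nonneg_left _ (mul_nonneg pFg pF1)
    rw [← mul_sum]
    apply mul_le_mul_of_nonneg_left _ pH0
    refine hrho.trans (mul_le_mul ?_ hexp (Real.exp_pos _).le (by positivity))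
    apply mul_le_mul_of_nonneg_left _ hC2
    exact Nat.cast_div_le
  calc 2 * ∑ k ∈ Icc 1 (S / m0), f (m0 * k) ≤ 2 * (C1 * ((9 * (g * S ^ 2) : ℕ) / (m1 : ℝ)) *
      (En * (Fg * F1 * (H0 * (C2 * (S / m0) * (En' * Real.exp (2 * Q) * (Fg' * H0')))))))
      := mul_le_mul_of_nonneg_left hsum zero_le_two
    _ = 2 * (C1 * 9) * (C2 * Real.exp (2 * Q)) * (g * S ^ 3) * (En * En') * (Fg * Fg') *
        ((H0 * H0' * F1) / ((m0 : ℝ) * m1)) := by
        push_cast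
        exact alg4 _ _ _ _ _ _ _ _ _ _ _ _ _ _
    _ ≤ 2 * (C1 * 9) * (C2 * Real.exp (2 * Q)) * (g * S ^ 3) * (En * En') *
        4 ^ g.primeFactors.card * RW4 s v u := by
        apply mul_le_mul _ hRW (by positivity) (by positivity)
        exact mul_le_mul_of_nonneg_left hFF (by positivity)
    _ = _ := by
        rw [hEE]
        ring

end Pool.Agent.R421.Z4
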