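import Pool.Agent.R421.Z4.Frm
import Pool.Agent.R421.Z12.Frm

/-!
# Project Z4: the count of the second variables for a fixed first variable
-/

set_option autoImplicit false
set_option linter.all false

namespace Pool.Agent.R421.Z4

open Finset Pool.Agent.W262.RK Pool.Agent.W307.RT Pool.Agent.TH841.PT Pool.Agent.R421.HF
open Pool.Agent.TH841.PT.CNTPf (mem_flt)
open Pool.Agent.Y515.Z8 (card_fib card_range)
open Pool.Agent.R421.Z12 (jac_pm)

lemma jac_cong {p : ℕ} {x y : ℤ} (h : (p : ℤ) ∣ x - y) : jacobiSym x p = jacobiSym y p := by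
  apply jacobiSym.mod_left'
  have h1 : y ≡ x [ZMOD (p : ℤ)] := Int.modEq_iff_dvd.2 h
  exact h1.symm

/-- half of the residue classes have a given symbol -/
lemma cardA {p : ℕ} (hp : p.Prime) (h2 : 2 < p) {g : ℕ} (hg : ¬ p ∣ g) (N : ℤ) (ε : ℤ)
    (hε : ε = 1 ∨ ε = -1) :
    2 * ((range p).filter (fun n : ℕ => jacobiSym (g * ((n : ℤ) - N)) p = ε)).card ≤ p := by
  classical
  haveI : Fact p.Prime := ⟨hp⟩
  have hg0 : (g : ZMod p) ≠ 0 := by
    rw [Ne, ZMod.natCast_eq_zero_iff]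
    exact hg
  have e1 := card_range N (fun x : ZMod p => quadraticChar (ZMod p) (g * x) = ε)
    (fun n : ℕ => jacobiSym (g * ((n : ℤ) - N)) p = ε) (fun n => by
      rw [← jacobiSym.legendreSym.to_jacobiSym, legendreSym]
      push_cast
      rfl)
  rw [e1]
  have e2 : (univ.filter (fun x : ZMod p => quadraticChar (ZMod p) (g * x) = ε)).card =
      (univ.filter (fun x : ZMod p => quadraticChar (ZMod p) x = ε)).card := by
    apply card_bij (fun x _ => (g : ZMod p) * x)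
    · intro x hx
      rw [mem_filter] at hx ⊢
      exact ⟨mem_univ _, hx.2⟩
    · intro x _ y _ h
      exact mul_left_cancel₀ hg0 h
    · intro x hx
      rw [mem_filter] at hx
      refine ⟨(g : ZMod p)⁻¹ * x, ?_, ?_⟩
      · rw [mem_filter, ← mul_assoc, mul_inv_cancel₀ hg0, one_mul]
        exact ⟨mem_univ _, hx.2⟩
      · rw [← mul_assoc, mul_inv_cancel₀ hg0, one_mul]
  rw [e2]
  have hsum : ∑ x : ZMod p, quadraticChar (ZMod p) x = 0 := by
    apply quadraticChar_sum_zero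
    rw [ZMod.ringChar_zmod_n]
    omega
  have h3 : ∑ x : ZMod p, (1 + ε * quadraticChar (ZMod p) x) = (p : ℤ) := by
    rw [sum_add_distrib, ← mul_sum, hsum, mul_zero, add_zero, sum_const, card_univ, ZMod.card]
    simp
  have h4 : (2 : ℤ) * ((univ.filter (fun x : ZMod p => quadraticChar (ZMod p) x = ε)).card : ℤ) ≤
      ∑ x : ZMod p, (1 + ε * quadraticChar (ZMod p) x) := by
    have h5 : (2 : ℤ) * ((univ.filter (fun x : ZMod p => quadraticChar (ZMod p) x = ε)).card : ℤ) =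
        ∑ x ∈ univ.filter (fun x : ZMod p => quadraticChar (ZMod p) x = ε),
          (1 + ε * quadraticChar (ZMod p) x) := by
      have h6 : ∀ x ∈ univ.filter (fun x : ZMod p => quadraticChar (ZMod p) x = ε),
          (1 + ε * quadraticChar (ZMod p) x) = 2 := by
        intro x hx
        rw [(mem_filter.1 hx).2]
        rcases hε with h | h <;> rw [h] <;> norm_num
      rw [sum_congr rfl h6, sum_const, nsmul_eq_mul, mul_comm]
    rw [h5]
    apply sum_le_sum_of_subset_of_nonneg (filter_subset _ _)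
    intro x _ _
    rcases hε with h | h <;> rw [h]
    · have := quadraticChar_dichotomy (F := ZMod p) (a := x)
      by_cases hx : x = 0
      · rw [hx]; simp
      · rcases this hx with h | h <;> rw [h] <;> norm_num
    · have := quadraticChar_dichotomy (F := ZMod p) (a := x)
      by_cases hx : x = 0
      · rw [hx]; simp
      · rcases this hx with h | h <;> rw [h] <;> norm_num
  rw [h3] at h4
  exact_mod_cast h4

/-- the sieved classes -/
def Zc (g : ℕ) (a N : ℤ) (p n : ℕ) : Prop :=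
  (¬ p ∣ g ∧ ¬ (p : ℤ) ∣ a) ∧ ((p : ℤ) ∣ (n : ℤ) - N ∨ (p : ℤ) ∣ g * a ^ 2 - 4 * ((n : ℤ) - N))

lemma Zc_per (g : ℕ) (a N : ℤ) {p : ℕ} (n : ℕ) : Zc g a N p n ↔ Zc g a N p (n % p) := by
  have h : (p : ℤ) ∣ (n : ℤ) - ((n % p : ℕ) : ℤ) := by
    push_cast
    exact Int.dvd_self_sub_emod
  unfold Zc
  apply and_congr_right
  intro _
  have e1 : (n : ℤ) - N = ((n : ℤ) - ((n % p : ℕ) : ℤ)) + (((n % p : ℕ) : ℤ) - N) := by ring
  have e2 : (g : ℤ) * a ^ 2 - 4 * ((n : ℤ) - N) = (-4) * ((n : ℤ) - ((n % p : ℕ) : ℤ)) +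
    (g * a ^ 2 - 4 * (((n % p : ℕ) : ℤ) - N)) := by ring
  apply or_congr
  · rw [e1]
    exact dvd_add_right h
  · rw [e2]
    exact dvd_add_right (h.mul_left (-4))

/-- the number of the classes -/
def nu4 (g : ℕ) (a : ℤ) (p : ℕ) : ℕ := if p ∣ g ∨ (p : ℤ) ∣ a then 0 else 2

open Classical in
lemma Zc_card {g : ℕ} {a N : ℤ} {p : ℕ} (hp : p.Prime) (h2 : 2 < p) :
    ((range p).filter (fun n => Zc g a N p n)).card = nu4 g a p ∧ nu4 g a p ≤ 2 := by
  haveI : Fact p.Prime := ⟨hp⟩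
  unfold nu4
  by_cases h : p ∣ g ∨ (p : ℤ) ∣ a
  · rw [if_pos h]
    refine ⟨?_, by norm_num⟩
    rw [card_eq_zero, filter_eq_empty_iff]
    intro n _ hn
    rcases h with h | h
    · exact hn.1.1 h
    · exact hn.1.2 h
  · rw [if_neg h]
    push Not at h
    refine ⟨?_, le_rfl⟩
    have hg0 : (g : ZMod p) ≠ 0 := by
      rw [Ne, ZMod.natCast_eq_zero_iff]
      exact h.1
    have ha0 : (a : ZMod p) ≠ 0 := by
      rw [Ne, ZMod.intCast_zmod_eq_zero_iff_dvd]
      exact h.2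
    have h40 : (4 : ZMod p) ≠ 0 := by
      have h3 : ((4 : ℕ) : ZMod p) ≠ 0 := by
        rw [Ne, ZMod.natCast_eq_zero_iff]
        intro h5
        have h6 : p ∣ 2 ^ 2 := h5
        have h7 := Nat.le_of_dvd (by norm_num) (hp.dvd_of_dvd_pow h6)
        omega
      exact_mod_cast h3
    have e1 := card_range N (fun x : ZMod p => x = 0 ∨ (g : ZMod p) * a ^ 2 - 4 * x = 0)
      (fun n : ℕ => Zc g a N p n) (fun n => by
        unfold Zc
        rw [← ZMod.intCast_zmod_eq_zero_iff_dvd ((n : ℤ) - N), ← ZMod.intCast_zmod_eq_zero_iff_dvd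
          ((g : ℤ) * a ^ 2 - 4 * ((n : ℤ) - N))]
        constructor
        · rintro ⟨-, h3⟩
          rcases h3 with h3 | h3
          · exact Or.inl h3
          · right
            rw [← h3]
            push_cast
            ring
        · intro h3
          refine ⟨h, ?_⟩
          rcases h3 with h3 | h3
          · exact Or.inl h3
          · right
            rw [← h3]
            push_cast
            ring)
    rw [e1]
    have e2 : univ.filter (fun x : ZMod p => x = 0 ∨ (g : ZMod p) * a ^ 2 - 4 * x = 0) =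
        {0, (g : ZMod p) * a ^ 2 / 4} := by
      ext x
      rw [mem_filter, mem_insert, mem_singleton]
      constructor
      · rintro ⟨-, h3⟩
        rcases h3 with h3 | h3
        · exact Or.inl h3
        · right
          rw [eq_div_iff h40]
          linear_combination -h3
      · intro h3
        refine ⟨mem_univ _, ?_⟩
        rcases h3 with h3 | h3
        · exact Or.inl h3
        · right
          rw [eq_div_iff h40] at h3
          linear_combination -h3
    rw [e2, card_pair]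
    intro h3
    have h4 : (g : ZMod p) * a ^ 2 / 4 ≠ 0 := div_ne_zero (mul_ne_zero hg0 (pow_ne_zero 2 ha0)) h40
    exact h4 h3.symm

/-- the primes that divide the first variable -/
noncomputable def Pa (g z y : ℕ) (a : ℤ) : Finset ℕ :=
  open Classical in (PS z y).filter (fun p : ℕ => (p : ℤ) ∣ a ∧ ¬ p ∣ g)

lemma mem_Pa {g z y : ℕ} {a : ℤ} {p : ℕ} : p ∈ Pa g z y a ↔
    p ∈ PS z y ∧ (p : ℤ) ∣ a ∧ ¬ p ∣ g := by
  unfold Pa
  rw [mem_filter]

lemma ma_dvd (g z y : ℕ) (a : ℤ) : ((∏ p ∈ Pa g z y a, p : ℕ) : ℤ) ∣ a := by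
  rw [Nat.cast_prod]
  apply Finset.prod_dvd_of_coprime
  · intro p hp q hq hpq
    rw [Function.onFun, Nat.isCoprime_iff_coprime]
    exact (Nat.coprime_primes (mem_PS.1 (mem_Pa.1 hp).1).2 (mem_PS.1 (mem_Pa.1 hq).1).2).2 hpq
  · intro p hp
    exact (mem_Pa.1 hp).2.1

lemma ma_pos (g z y : ℕ) (a : ℤ) : 1 ≤ ∏ p ∈ Pa g z y a, p :=
  Nat.succ_le_of_lt (prod_pos fun p hp => (mem_PS.1 (mem_Pa.1 hp).1).2.pos)

lemma dvd_ma {g z y : ℕ} {a : ℤ} {p : ℕ} (hp : p.Prime) :
    p ∣ ∏ p ∈ Pa g z y a, p ↔ p ∈ Pa g z y a := by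
  constructor
  · intro h
    obtain ⟨q, hq, hpq⟩ := (hp.prime.dvd_finsetProd_iff _).1 h
    rwa [(Nat.prime_dvd_prime_iff_eq hp (mem_PS.1 (mem_Pa.1 hq).1).2).1 hpq]
  · intro h
    exact dvd_prod_of_mem _ h

section

variable {g z y Y : ℕ} {s v u : Fin 3 × Ty → ℕ} {a b b' : ℤ}

lemma M1_pos (hs : ∀ i, s i ∈ (PP z y).divisors) (hv : ∀ i, v i ∈ (PP z y).divisors)
    (hu : ∀ i, u i ∈ (PP y Y).divisors) : 1 ≤ M1 s v u := by
  unfold M1 mi
  refine Nat.succ_le_of_lt (prod_pos fun j _ => ?_)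
  have h1 := dv_pos (hs j)
  have h2 := dv_pos (hv j)
  have h3 := dv_pos (hu j)
  positivity

lemma M0_pos (hs : ∀ i, s i ∈ (PP z y).divisors) (hv : ∀ i, v i ∈ (PP z y).divisors)
    (hu : ∀ i, u i ∈ (PP y Y).divisors) : 1 ≤ M0 s v u := by
  unfold M0 mi
  refine Nat.succ_le_of_lt (prod_pos fun j _ => ?_)
  have h1 := dv_pos (hs j)
  have h2 := dv_pos (hv j)
  have h3 := dv_pos (hu j)
  positivity

/-- the sign of the prime `p` -/
noncomputable def epp (s v : Fin 3 × Ty → ℕ) (p : ℕ) : ℤ :=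
  open Classical in if ∃ θ : Ty, p ∣ s (0, θ) ∨ p ∣ v (0, θ) then 1 else -1

lemma epp_or (s v : Fin 3 × Ty → ℕ) (p : ℕ) : epp s v p = 1 ∨ epp s v p = -1 := by
  unfold epp
  split_ifs <;> simp

/-- the symbols at the primes that divide the first variable -/
lemma G4.jac (h : G4 g z y s v u a b) {p : ℕ} (hp : p ∈ Pa g z y a) :
    jacobiSym (g * b) p = epp s v p := by
  obtain ⟨hP, hpa, hpg⟩ := mem_Pa.1 hp
  have hpp := (mem_PS.1 hP).2
  haveI : Fact p.Prime := ⟨hpp⟩
  have hpb := cop_nd' h.cop hpp hpa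
  unfold epp
  by_cases he : ∃ θ : Ty, p ∣ s (0, θ) ∨ p ∣ v (0, θ)
  · rw [if_pos he]
    obtain ⟨θ, hθ⟩ := he
    rcases hθ with hθ | hθ
    · exact (ty_0 (h.fs hpp hθ).2.2.2).1
    · exact (ty_0 (h.fv hpp hθ).2.2).1
  · rw [if_neg he]
    have hgb : ¬ (p : ℤ) ∣ g * b := by
      intro h1
      rcases (Nat.prime_iff_prime_int.1 hpp).dvd_or_dvd h1 with h2 | h2
      · exact hpg (Int.natCast_dvd_natCast.1 h2)
      · exact hpb h2
    rcases Pool.Agent.R421.Z12.jac_pm hpp hgb with h1 | h1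
    · exfalso
      apply he
      refine ⟨tyb false, ?_⟩
      exact h.mem hP (i := (0, tyb false)) hpa (ty_s0 hpg h1)
    · exact h1

/-- the sieve conditions -/
lemma G4.siv (h : G4 g z y s v u a b) (hz : 2 ≤ z) {p : ℕ} (hP : p ∈ PS z y)
    (hM : ¬ p ∣ M1 s v u) (hpg : ¬ p ∣ g) :
    ¬ (p : ℤ) ∣ b ∧ ¬ (p : ℤ) ∣ g * a ^ 2 - 4 * b := by
  have key : ∀ i : Fin 3 × Ty, i.1 ≠ 0 → ¬ (p ∣ s i ∨ p ∣ v i) := by
    intro i hi h1
    apply hM
    unfold M1
    refine Dvd.dvd.trans ?_ (dvd_prod_of_mem _ (mem_filter.2 ⟨mem_univ i, hi⟩))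
    unfold mi
    rcases h1 with h1 | h1
    · exact (h1.mul_right _).mul_right _
    · exact ((h1.pow two_ne_zero).mul_left _).mul_right _
  constructor
  · intro h1
    exact key (2, tyb false) (by decide) (h.mem hP h1 (ty_s2 hpg))
  · intro h1
    exact key (1, tyb (decide (jacobiSym (-1) p = -1))) (by
      show (1 : Fin 3) ≠ 0
      decide) (h.mem hP h1 (ty_s1 hpg))

end

end Pool.Agent.R421.Z4
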