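import Pool.Agent.R421.Z4.Fix

/-!
# Project Z4: the count of the second variables for a fixed first variable, the bound
-/

set_option autoImplicit false
set_option linter.all false

namespace Pool.Agent.R421.Z4

open Finset Pool.Agent.W262.RK Pool.Agent.W307.RT Pool.Agent.TH841.PT Pool.Agent.R421.HF
open Pool.Agent.TH841.PT.CNTPf (mem_flt)
open Pool.Agent.Y515.Z8 (card_fib card_range)

attribute [local irreducible] Zc M1 nu4 Pa

/-- the local factors -/
noncomputable def WA (g M : ℕ) (a : ℤ) (p : ℕ) : ℝ :=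
  open Classical in
  (if p ∣ g then Real.exp (2 / p) else 1) * (if p ∣ M then Real.exp (2 / p) else 1) *
    (if (p : ℤ) ∣ a ∧ ¬ p ∣ g then Real.exp (2 / p) / 2 else 1)

lemma one_le_e (p : ℕ) : 1 ≤ Real.exp (2 / (p : ℝ)) := Real.one_le_exp (by positivity)

open Classical in
/-- the comparison of the local factors -/
lemma WA_cmp {g z y M : ℕ} {a : ℤ} {p : ℕ} (hp : p ∈ PS z y) :
    ((if ¬ p ∣ (∏ q ∈ Pa g z y a, q) * M then Real.exp (-((nu4 g a p : ℝ) / p))
      else 1) * (if p ∈ Pa g z y a then (1 / 2 : ℝ) else 1)) ≤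
      Real.exp (-(2 / (p : ℝ))) * WA g M a p := by
  have hpp := (mem_PS.1 hp).2
  have h1 := one_le_e p
  have h0 : 0 < Real.exp (2 / (p : ℝ)) := Real.exp_pos _
  have h00 : Real.exp (-(2 / (p : ℝ))) * Real.exp (2 / (p : ℝ)) = 1 := by
    rw [← Real.exp_add]
    simp
  have hneg : 0 < Real.exp (-(2 / (p : ℝ))) := Real.exp_pos _
  have hle1 : ∀ q : Prop, ∀ _ : Decidable q, ∀ x : ℝ, 0 ≤ x →
      (if q then Real.exp (-x) else 1) ≤ 1 := by
    intro q _ x hx
    split_ifs
    · exact Real.exp_le_one_iff.2 (by linarith)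
    · exact le_rfl
  have hM1 : (1 : ℝ) ≤ (if p ∣ M then Real.exp (2 / (p : ℝ)) else 1) := by
    split_ifs
    · exact h1
    · exact le_rfl
  unfold WA
  by_cases hg : p ∣ g
  · have hPa : p ∉ Pa g z y a := fun h => (mem_Pa.1 h).2.2 hg
    rw [if_neg hPa, if_pos hg, if_neg (fun h => h.2 hg : ¬ ((p : ℤ) ∣ a ∧ ¬ p ∣ g))]
    rw [mul_one, mul_one, ← mul_assoc, h00, one_mul]
    refine (hle1 _ _ _ ?_).trans hM1
    positivity
  · by_cases ha : (p : ℤ) ∣ a
    · have hPa : p ∈ Pa g z y a := mem_Pa.2 ⟨hp, ha, hg⟩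
      rw [if_pos hPa, if_neg hg, if_pos (show (p : ℤ) ∣ a ∧ ¬ p ∣ g from ⟨ha, hg⟩), one_mul]
      have e : Real.exp (-(2 / (p : ℝ))) * ((if p ∣ M then Real.exp (2 / (p : ℝ)) else 1) *
          (Real.exp (2 / (p : ℝ)) / 2)) =
          (Real.exp (-(2 / (p : ℝ))) * Real.exp (2 / (p : ℝ))) *
          (if p ∣ M then Real.exp (2 / (p : ℝ)) else 1) / 2 := by ring
      rw [e, h00, one_mul]
      refine (mul_le_mul_of_nonneg_right (hle1 _ _ _ ?_) (by norm_num)).trans ?_
      · positivity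
      · linarith
    · have hPa : p ∉ Pa g z y a := fun h => ha (mem_Pa.1 h).2.1
      rw [if_neg hPa, if_neg hg, if_neg (fun h => ha h.1 : ¬ ((p : ℤ) ∣ a ∧ ¬ p ∣ g)), one_mul,
        mul_one, mul_one]
      have hnu : nu4 g a p = 2 := by
        unfold nu4
        rw [if_neg (not_or.2 ⟨hg, ha⟩)]
      by_cases hm : p ∣ M
      · rw [if_pos hm, h00]
        exact hle1 _ _ _ (by positivity)
      · have hm2 : ¬ p ∣ (∏ q ∈ Pa g z y a, q) * M := by
          intro h
          rcases hpp.dvd_mul.1 h with h | h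
          · exact hPa ((dvd_ma hpp).1 h)
          · exact hm h
        rw [if_pos hm2, if_neg hm, hnu, mul_one]
        norm_num

open Classical in
/-- FIX for a fixed first variable -/
theorem fixA (z : ℕ) (hz : 6 ≤ z) : ∃ (C : ℝ) (K y0 : ℕ), 0 ≤ C ∧ 1 ≤ K ∧
    ∀ X y Y : ℕ, y0 ≤ y → z < y →
    ∀ s ∈ Tup (Fin 3 × Ty) z y, ∀ v ∈ Tup (Fin 3 × Ty) z y, ∀ u ∈ Tup (Fin 3 × Ty) y Y,
    ∀ (g : ℕ) (a N : ℤ), (∏ p ∈ Pa g z y a, p) * M1 s v u * y ^ K ≤ X →
    (((Icc 1 X).filter (fun t : ℕ => G4 g z y s v u a ((t : ℤ) - N))).card : ℝ) ≤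
      C * (X / (M1 s v u : ℕ)) * ∏ p ∈ PS z y, (Real.exp (-(2 / (p : ℝ))) * WA g (M1 s v u) a p) := by
  obtain ⟨C, K, y0, hC, hK, hSV⟩ := svq 2 z (by omega)
  refine ⟨C, K, y0, hC, hK, ?_⟩
  intro X y Y hy0 hzy s hs v hv u hu g a N hX
  have hs' := (Pool.Agent.W372.RK2.mem_Tup'.1 hs).1
  have hv' := (Pool.Agent.W372.RK2.mem_Tup'.1 hv).1
  have hu' := (Pool.Agent.W372.RK2.mem_Tup'.1 hu).1
  obtain ⟨ma, hma⟩ : ∃ ma, ma = ∏ p ∈ Pa g z y a, p := ⟨_, rfl⟩
  have hma1 : 1 ≤ ma := by rw [hma]; exact ma_pos g z y a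
  have hM1 : 1 ≤ M1 s v u := M1_pos hs' hv' hu'
  rw [← hma] at hX
  obtain ⟨T, hT⟩ : ∃ T, T = (Icc 1 X).filter (fun t : ℕ => G4 g z y s v u a ((t : ℤ) - N)) :=
    ⟨_, rfl⟩
  have hgood : ∀ t ∈ T, G4 g z y s v u a ((t : ℤ) - N) := by
    intro t ht
    rw [hT, mem_filter] at ht
    exact ht.2
  rw [← hT]
  obtain ⟨E, hE⟩ : ∃ E : ℝ, E = Real.exp (-∑ p ∈ (PS z y).filter (fun p => ¬ p ∣ ma * M1 s v u),
    (nu4 g a p : ℝ) / p) := ⟨_, rfl⟩
  have hE0 : 0 < E := by rw [hE]; exact Real.exp_pos _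
  obtain ⟨B, hB⟩ : ∃ B : ℝ, B = C * (X / ((ma * M1 s v u : ℕ) : ℝ)) * E := ⟨_, rfl⟩
  have hB0 : 0 ≤ B := by rw [hB]; positivity
  have hcard : (T.card : ℝ) ≤ ((Fintype.piFinset (fun p : Pa g z y a => (range (p : ℕ)).filter
      (fun n : ℕ => jacobiSym (g * ((n : ℤ) - N)) p = epp s v p))).card : ℝ) * B := by
    refine card_fib T (fun t => fun p : Pa g z y a => t % (p : ℕ)) _ B ?_ hB0 ?_
    · intro t ht
      rw [Fintype.mem_piFinset]
      intro p
      have h1 := hgood t ht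
      have hp := p.2
      have hpp := (mem_PS.1 (mem_Pa.1 hp).1).2
      rw [mem_filter, mem_range]
      refine ⟨Nat.mod_lt _ hpp.pos, ?_⟩
      rw [← h1.jac hp]
      apply jac_cong
      have e : (g : ℤ) * (((t % (p : ℕ) : ℕ) : ℤ) - N) - g * ((t : ℤ) - N) =
          (-g) * ((t : ℤ) - ((t % (p : ℕ) : ℕ) : ℤ)) := by ring
      rw [e]
      apply Dvd.dvd.mul_left
      push_cast
      exact Int.dvd_self_sub_emod
    · intro r hr
      rw [hB, hE]
      refine le_trans ?_ (hSV X y hy0 hzy (Zc g a N) (nu4 g a) (fun p _ n => Zc_per g a N n)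
        (fun p hp => Zc_card (mem_PS.1 hp).2 (by have := (mem_PS.1 hp).1.1; omega)) _ r
        (Nat.mul_pos hma1 hM1) hX)
      rw [Nat.cast_le]
      apply card_le_card
      intro t ht
      rw [mem_filter] at ht
      have h1 := hgood t ht.1
      have h2 := hgood r hr
      have htX : t ∈ Icc 1 X := by
        have := ht.1
        rw [hT] at this
        exact (mem_filter.1 this).1
      refine mem_flt htX ⟨?_, ?_⟩
      · -- the congruence
        have c1 : t ≡ r [MOD M1 s v u] := by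
          have h3 := h1.congM1 h2 (by omega) hzy hs hv hu
          have e : ((t : ℤ) - N) - ((r : ℤ) - N) = (t : ℤ) - r := by ring
          rw [e] at h3
          exact ((Nat.modEq_iff_dvd.2 h3)).symm
        have c2 : t ≡ r [MOD ma] := by
          rw [hma]
          have h3 : ((∏ p ∈ Pa g z y a, p : ℕ) : ℤ) ∣ (t : ℤ) - r := by
            rw [Nat.cast_prod]
            apply Finset.prod_dvd_of_coprime
            · intro p hp q hq hpq
              rw [Function.onFun, Nat.isCoprime_iff_coprime]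
              exact (Nat.coprime_primes (mem_PS.1 (mem_Pa.1 hp).1).2
                (mem_PS.1 (mem_Pa.1 hq).1).2).2 hpq
            · intro p hp
              have h4 : t % p = r % p := congrFun ht.2 ⟨p, hp⟩
              exact Nat.modEq_iff_dvd.1 (show r ≡ t [MOD p] from h4.symm)
          exact ((Nat.modEq_iff_dvd.2 h3)).symm
        have hcop : Nat.Coprime ma (M1 s v u) := by
          rw [hma]
          apply Nat.Coprime.prod_left
          intro p hp
          obtain ⟨hP, hpa, hpg⟩ := mem_Pa.1 hp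
          have hpp := (mem_PS.1 hP).2
          rw [hpp.coprime_iff_not_dvd]
          intro h3
          unfold M1 at h3
          obtain ⟨i, hi, h4⟩ := (hpp.prime.dvd_finsetProd_iff _).1 h3
          have h5 := h1.fm hzy hu hpp (i := i) (by unfold mi at h4; exact h4)
          have h6 := un4 h1.cop h1.cog hpp (by have := (mem_PS.1 hP).1.1; omega)
            (j := 0) (l := i.1) hpa h5.2.1
          exact (mem_filter.1 hi).2 h6.symm
        exact (Nat.modEq_and_modEq_iff_modEq_mul hcop).1 ⟨c2, c1⟩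
      · intro p hP hpm hZ
        unfold Zc at hZ
        have hM : ¬ p ∣ M1 s v u := fun h => hpm (h.mul_left _)
        have h3 := h1.siv (by omega) hP hM hZ.1.1
        rcases hZ.2 with h4 | h4
        · exact h3.1 h4
        · exact h3.2 h4
  -- the number of the classes
  have hcl : ((Fintype.piFinset (fun p : Pa g z y a => (range (p : ℕ)).filter
      (fun n : ℕ => jacobiSym (g * ((n : ℤ) - N)) p = epp s v p))).card : ℝ) ≤
      ma * ∏ p ∈ Pa g z y a, (1 / 2 : ℝ) := by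
    rw [Fintype.card_piFinset, hma]
    have e := prod_coe_sort (Pa g z y a) (fun p => ((range p).filter
      (fun n : ℕ => jacobiSym (g * ((n : ℤ) - N)) p = epp s v p)).card)
    rw [e]
    push_cast
    rw [← prod_mul_distrib]
    refine prod_le_prod (fun _ _ => Nat.cast_nonneg _) fun p hp => ?_
    obtain ⟨hP, hpa, hpg⟩ := mem_Pa.1 hp
    have h3 := cardA (mem_PS.1 hP).2 (by have := (mem_PS.1 hP).1.1; omega) hpg N _
      (epp_or s v p)
    have h4 : (2 : ℝ) * (((range p).filter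
      (fun n : ℕ => jacobiSym (g * ((n : ℤ) - N)) p = epp s v p)).card : ℝ) ≤ p := by
      exact_mod_cast h3
    linarith
  refine hcard.trans ((mul_le_mul_of_nonneg_right hcl hB0).trans ?_)
  have hma0 : (ma : ℝ) ≠ 0 := by exact_mod_cast (by omega : ma ≠ 0)
  have hM0 : ((M1 s v u : ℕ) : ℝ) ≠ 0 := by exact_mod_cast (by omega : M1 s v u ≠ 0)
  have e1 : ma * (∏ p ∈ Pa g z y a, (1 / 2 : ℝ)) * B =
      C * (X / (M1 s v u : ℕ)) * (E * ∏ p ∈ Pa g z y a, (1 / 2 : ℝ)) := by
    rw [hB]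
    push_cast
    field_simp
  rw [e1]
  apply mul_le_mul_of_nonneg_left _ (by positivity)
  have e2 : E = ∏ p ∈ PS z y, (if ¬ p ∣ (∏ q ∈ Pa g z y a, q) * M1 s v u then
      Real.exp (-((nu4 g a p : ℝ) / p)) else 1) := by
    rw [hE, hma, ← sum_neg_distrib, Real.exp_sum, prod_filter]
  have e3 : ∏ p ∈ Pa g z y a, (1 / 2 : ℝ) =
      ∏ p ∈ PS z y, (if p ∈ Pa g z y a then (1 / 2 : ℝ) else 1) := by
    have : Pa g z y a = (PS z y).filter (fun p => p ∈ Pa g z y a) := by
      ext p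
      rw [mem_filter]
      exact ⟨fun h => ⟨(mem_Pa.1 h).1, h⟩, fun h => h.2⟩
    conv_lhs => rw [this]
    rw [prod_filter]
  rw [e2, e3, ← prod_mul_distrib]
  refine prod_le_prod (fun p _ => ?_) fun p hp => ?_
  · split_ifs <;> positivity
  · exact WA_cmp hp

end Pool.Agent.R421.Z4
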