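import Pool.Agent.TH841.PT.SVP

/-!
# Project Z4: the sieve in residue classes to large moduli, sums of multiplicative weights
-/

set_option autoImplicit false
set_option linter.all false

namespace Pool.Agent.R421.Z4

open Finset Pool.Agent.W262.RK Pool.Agent.W307.RT Pool.Agent.TH841.PT
open Pool.Agent.TH841.PT.SVPf (svp)

open Classical in
/-- the upper bound sieve in a residue class to a large modulus -/
theorem svq (c z : ℕ) (hz : 2 * c + 2 ≤ z) : ∃ (C : ℝ) (K y0 : ℕ), 0 ≤ C ∧ 1 ≤ K ∧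
    ∀ X y : ℕ, y0 ≤ y → z < y → ∀ (Z : ℕ → ℕ → Prop) (ν : ℕ → ℕ),
    (∀ p ∈ PS z y, ∀ n, Z p n ↔ Z p (n % p)) →
    (∀ p ∈ PS z y, ((range p).filter (fun n => Z p n)).card = ν p ∧ ν p ≤ c) →
    ∀ m r : ℕ, 1 ≤ m → m * y ^ K ≤ X →
    (((Icc 1 X).filter (fun t : ℕ => t ≡ r [MOD m] ∧ ∀ p ∈ PS z y, ¬ p ∣ m → ¬ Z p t)).card : ℝ) ≤
      C * (X / m) * Real.exp (-∑ p ∈ (PS z y).filter (fun p => ¬ p ∣ m), (ν p : ℝ) / p) := by
  obtain ⟨C, K, y0, hC, hK, hS⟩ := svp c z hz
  refine ⟨2 * C, K, y0, by positivity, hK, ?_⟩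
  intro X y hy0 hzy Z ν hZ hν m r hm hX
  have hy1 : 1 ≤ y := by omega
  obtain ⟨X', hX'⟩ : ∃ X', X' = X / m + 1 := ⟨_, rfl⟩
  obtain ⟨r0, hr0⟩ : ∃ r0, r0 = r % m := ⟨_, rfl⟩
  have hyX : y ^ K ≤ X / m := by
    rw [Nat.le_div_iff_mul_le hm, mul_comm]
    exact hX
  have hXm1 : 1 ≤ X / m := (Nat.one_le_pow _ _ hy1).trans hyX
  -- the new conditions
  obtain ⟨Z', hZ'⟩ : ∃ Z' : ℕ → ℕ → Prop, ∀ p n, Z' p n ↔
      (¬ p ∣ m ∧ Z p (r0 + m * (n + (p - 1)))) := ⟨_, fun _ _ => Iff.rfl⟩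
  have hper : ∀ p ∈ PS z y, ∀ n k, n % p = k % p → (Z p n ↔ Z p k) := by
    intro p hp n k h
    rw [hZ p hp n, hZ p hp k, h]
  have hS' := hS X' y hy0 hzy (by omega) Z' (fun p => if p ∣ m then 0 else ν p) (by
    intro p hp n
    rw [hZ', hZ']
    apply and_congr_right
    intro _
    apply hper p hp
    have h1 : n + (p - 1) ≡ n % p + (p - 1) [MOD p] :=
      Nat.ModEq.add_right _ (Nat.mod_modEq n p).symm
    exact Nat.ModEq.add_left _ (h1.mul_left m)) (by
    intro p hp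
    have hpp := (mem_PS.1 hp).2
    by_cases hpm : p ∣ m
    · rw [if_pos hpm]
      refine ⟨?_, Nat.zero_le _⟩
      rw [card_eq_zero, filter_eq_empty_iff]
      intro n _ h
      exact ((hZ' p n).1 h).1 hpm
    · rw [if_neg hpm]
      refine ⟨?_, (hν p hp).2⟩
      rw [← (hν p hp).1]
      have hcop : Nat.Coprime p m := (Nat.Prime.coprime_iff_not_dvd hpp).2 hpm
      have hppos := hpp.pos
      apply card_bij (fun n _ => (r0 + m * (n + (p - 1))) % p)
      · intro n hn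
        rw [mem_filter] at hn ⊢
        have h1 := (hZ' p n).1 hn.2
        refine ⟨mem_range.2 (Nat.mod_lt _ hppos), ?_⟩
        rw [← hZ p hp]
        exact h1.2
      · intro n hn k hk h
        rw [mem_filter, mem_range] at hn hk
        have h1 : r0 + m * (n + (p - 1)) ≡ r0 + m * (k + (p - 1)) [MOD p] := h
        have h2 : m * (n + (p - 1)) ≡ m * (k + (p - 1)) [MOD p] := Nat.ModEq.add_left_cancel' _ h1
        have h3 : n + (p - 1) ≡ k + (p - 1) [MOD p] :=
          Nat.ModEq.cancel_left_of_coprime hcop h2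
        have h4 : n ≡ k [MOD p] := Nat.ModEq.add_right_cancel' _ h3
        have h5 : n % p = k % p := h4
        rwa [Nat.mod_eq_of_lt hn.1, Nat.mod_eq_of_lt hk.1] at h5
      · intro b hb
        rw [mem_filter, mem_range] at hb
        -- find `n` with `r0 + m * (n + p - 1) ≡ b`
        haveI : Fact p.Prime := ⟨hpp⟩
        have hm0 : (m : ZMod p) ≠ 0 := by
          rw [Ne, ZMod.natCast_eq_zero_iff]
          exact hpm
        obtain ⟨n, hn⟩ : ∃ n : ℕ, n = (((b : ZMod p) - r0) / m + 1).val := ⟨_, rfl⟩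
        have hnlt : n < p := by rw [hn]; exact ZMod.val_lt _
        have hnc : (n : ZMod p) = ((b : ZMod p) - r0) / m + 1 := by
          rw [hn, ZMod.natCast_zmod_val]
        have hkey : ((r0 + m * (n + (p - 1)) : ℕ) : ZMod p) = b := by
          have h1 : ((p - 1 : ℕ) : ZMod p) = -1 := by
            rw [Nat.cast_sub hpp.one_le]
            simp
          push_cast
          rw [h1, hnc]
          field_simp
          ring
        have hmod : (r0 + m * (n + (p - 1))) % p = b := by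
          have := (ZMod.natCast_eq_natCast_iff' _ _ _).1 hkey
          rw [this, Nat.mod_eq_of_lt hb.1]
        refine ⟨n, ?_, hmod⟩
        rw [mem_filter, mem_range]
        refine ⟨hnlt, (hZ' p n).2 ⟨hpm, ?_⟩⟩
        rw [hZ p hp, hmod]
        exact hb.2) 1 0 le_rfl (by
    rw [one_pow]
    omega)
  -- compare the counts
  have hcard : ((Icc 1 X).filter (fun t : ℕ => t ≡ r [MOD m] ∧
      ∀ p ∈ PS z y, ¬ p ∣ m → ¬ Z p t)).card ≤
      ((Icc 1 X').filter (fun t : ℕ => t ≡ 0 [MOD 1] ∧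
        ∀ p ∈ PS z y, ¬ p ∣ 1 → ¬ Z' p t)).card := by
    have hdec : ∀ t : ℕ, t ≡ r [MOD m] → t = r0 + m * (t / m) := by
      intro t ht
      have h1 : t % m = r0 := by rw [hr0]; exact ht
      have h2 := Nat.mod_add_div t m
      rw [h1] at h2
      exact h2.symm
    apply card_le_card_of_injOn (fun t => t / m + 1)
    · intro t ht
      have ht' := mem_filter.1 (mem_coe.1 ht)
      rw [mem_Icc] at ht'
      rw [mem_coe, mem_filter, mem_Icc]
      have h1 := hdec t ht'.2.1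
      refine ⟨⟨Nat.le_add_left 1 _, ?_⟩, Nat.modEq_one, ?_⟩
      · rw [hX']
        exact Nat.succ_le_succ (Nat.div_le_div_right ht'.1.2)
      · intro p hp _ h
        have h2 := (hZ' p _).1 h
        apply ht'.2.2 p hp h2.1
        have hpp := (mem_PS.1 hp).2
        rw [hper p hp t (r0 + m * (t / m + 1 + (p - 1)))]
        · exact h2.2
        · have e : r0 + m * (t / m + 1 + (p - 1)) = t + m * p := by
            have e1 : t / m + 1 + (p - 1) = t / m + p := by
              have := hpp.one_le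
              omega
            rw [e1, mul_add, ← add_assoc, ← h1]
          rw [e]
          exact (Nat.add_mul_mod_self_right t m p).symm
    · intro t ht k hk h
      have ht' := (mem_filter.1 (mem_coe.1 ht)).2.1
      have hk' := (mem_filter.1 (mem_coe.1 hk)).2.1
      have h1 : t / m = k / m := by
        simp only at h
        omega
      rw [hdec t ht', hdec k hk', h1]
  refine (Nat.cast_le.2 hcard).trans (hS'.trans ?_)
  have hf : (PS z y).filter (fun p => ¬ p ∣ 1) = PS z y := by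
    apply filter_true_of_mem
    intro p hp h
    exact (mem_PS.1 hp).2.one_lt.ne' (Nat.dvd_one.1 h)
  have hsum : ∑ p ∈ (PS z y).filter (fun p => ¬ p ∣ 1), (((if p ∣ m then 0 else ν p : ℕ)) : ℝ) / p =
      ∑ p ∈ (PS z y).filter (fun p => ¬ p ∣ m), (ν p : ℝ) / p := by
    rw [hf, sum_filter]
    refine sum_congr rfl fun p _ => ?_
    by_cases h : p ∣ m
    · rw [if_pos h, if_neg (not_not.2 h)]
      simp
    · rw [if_neg h, if_pos h]
  rw [hsum]
  apply mul_le_mul_of_nonneg_right _ (Real.exp_pos _).le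
  have hm0 : (0 : ℝ) < m := by exact_mod_cast hm
  have h2 : ((X' : ℕ) : ℝ) ≤ 2 * (X / m) := by
    have h3 : ((X / m : ℕ) : ℝ) ≤ (X : ℝ) / m := Nat.cast_div_le
    have h4 : (1 : ℝ) ≤ ((X / m : ℕ) : ℝ) := by exact_mod_cast hXm1
    rw [hX']
    push_cast
    push_cast at h3 h4
    linarith
  rw [Nat.cast_one, div_one]
  calc C * (X' : ℝ) ≤ C * (2 * (X / m)) := mul_le_mul_of_nonneg_left h2 hC
    _ = _ := by ring

lemma exp_neg_le {x : ℝ} (hx : 0 ≤ x) : Real.exp (-x) ≤ 1 - x + x ^ 2 / 2 := by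
  -- `(1 + x + x² / 2) (1 - x + x² / 2) = 1 + x⁴ / 4 ≥ 1`
  have h1 : 1 + x + x ^ 2 / 2 ≤ Real.exp x := Real.quadratic_le_exp_of_nonneg hx
  have h2 : 0 < Real.exp x := Real.exp_pos x
  have h3 : 0 ≤ 1 - x + x ^ 2 / 2 := by nlinarith [sq_nonneg (x - 1)]
  rw [Real.exp_neg, inv_le_iff_one_le_mul₀ h2]
  calc (1 : ℝ) ≤ (1 - x + x ^ 2 / 2) * (1 + x + x ^ 2 / 2) := by nlinarith [sq_nonneg (x ^ 2)]
    _ ≤ (1 - x + x ^ 2 / 2) * Real.exp x := mul_le_mul_of_nonneg_left h1 h3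

/-- the sum over the squares -/
lemma sum_sq_le : ∃ K : ℝ, 0 ≤ K ∧ ∀ s : Finset ℕ, ∑ p ∈ s, 1 / (p : ℝ) ^ 2 ≤ K := by
  have h : Summable (fun n : ℕ => 1 / (n : ℝ) ^ 2) := Real.summable_one_div_nat_pow.2 one_lt_two
  refine ⟨∑' n : ℕ, 1 / (n : ℝ) ^ 2, tsum_nonneg fun n => by positivity, fun s => ?_⟩
  exact h.sum_le_tsum s fun n _ => by positivity

open Classical in
/-- RHO: the sum of a multiplicative weight -/
theorem rho (z : ℕ) (hz : 4 ≤ z) : ∃ (C : ℝ) (K y0 : ℕ), 0 ≤ C ∧ 1 ≤ K ∧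
    ∀ N y : ℕ, y0 ≤ y → z < y → y ^ K ≤ N → ∀ ρ : ℕ → ℝ, (∀ p, 0 ≤ ρ p ∧ ρ p ≤ 1) →
    ∑ n ∈ Icc 1 N, ∏ p ∈ PS z y, (if p ∣ n then ρ p else 1) ≤
      C * N * Real.exp (-∑ p ∈ PS z y, (1 - ρ p) / p) := by
  obtain ⟨C, K, y0, hC, hK, hS⟩ := svq 1 z (by omega)
  obtain ⟨Q, hQ0, hQ⟩ := sum_sq_le
  refine ⟨C * Real.exp Q, K, y0, by positivity, hK, ?_⟩
  intro N y hy0 hzy hN ρ hρ
  -- the sieve for a set of primes
  have hR : ∀ R ∈ (PS z y).powerset, ∑ n ∈ Icc 1 N, ∏ p ∈ R, (if p ∣ n then (0 : ℝ) else 1) ≤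
      C * N * ∏ p ∈ R, Real.exp (-(1 / (p : ℝ))) := by
    intro R hR
    rw [mem_powerset] at hR
    obtain ⟨Z, hZ⟩ : ∃ Z : ℕ → ℕ → Prop, ∀ p n, Z p n ↔ (p ∈ R ∧ p ∣ n) :=
      ⟨_, fun _ _ => Iff.rfl⟩
    have h1 := hS N y hy0 hzy Z (fun p => if p ∈ R then 1 else 0) (by
      intro p _ n
      rw [hZ, hZ, Nat.dvd_mod_iff (dvd_refl p)]) (by
      intro p hp
      have hpp := (mem_PS.1 hp).2
      by_cases h : p ∈ R
      · rw [if_pos h]
        refine ⟨?_, le_rfl⟩
        rw [card_eq_one]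
        refine ⟨0, ?_⟩
        ext n
        rw [mem_filter, mem_range, mem_singleton, hZ]
        constructor
        · rintro ⟨h1, _, h2⟩
          exact Nat.eq_zero_of_dvd_of_lt h2 h1
        · rintro rfl
          exact ⟨hpp.pos, h, dvd_zero _⟩
      · rw [if_neg h]
        refine ⟨?_, Nat.zero_le _⟩
        rw [card_eq_zero, filter_eq_empty_iff]
        intro n _ h1
        exact h ((hZ p n).1 h1).1) 1 0 le_rfl (by rw [one_mul]; exact hN)
    have e1 : ∑ n ∈ Icc 1 N, ∏ p ∈ R, (if p ∣ n then (0 : ℝ) else 1) =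
        (((Icc 1 N).filter (fun t : ℕ => ∀ p ∈ R, ¬ p ∣ t)).card : ℝ) := by
      rw [card_filter]
      push_cast
      refine sum_congr rfl fun n _ => ?_
      by_cases h : ∀ p ∈ R, ¬ p ∣ n
      · rw [if_pos h]
        exact prod_eq_one fun p hp => if_neg (h p hp)
      · rw [if_neg h]
        push Not at h
        obtain ⟨p, hp, hpn⟩ := h
        exact prod_eq_zero hp (if_pos hpn)
    have e3 : ∑ p ∈ (PS z y).filter (fun p => ¬ p ∣ 1), (((if p ∈ R then 1 else 0 : ℕ)) : ℝ) / p =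
        ∑ p ∈ R, 1 / (p : ℝ) := by
      have hf : (PS z y).filter (fun p => ¬ p ∣ 1) = PS z y := by
        apply filter_true_of_mem
        intro p hp h
        exact (mem_PS.1 hp).2.one_lt.ne' (Nat.dvd_one.1 h)
      rw [hf]
      have : R = (PS z y).filter (fun p => p ∈ R) := by
        ext p
        rw [mem_filter]
        exact ⟨fun h => ⟨hR h, h⟩, fun h => h.2⟩
      conv_rhs => rw [this]
      rw [sum_filter]
      refine sum_congr rfl fun p _ => ?_
      by_cases h : p ∈ R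
      · rw [if_pos h, if_pos h]
        simp
      · rw [if_neg h, if_neg h]
        simp
    rw [e1]
    refine le_trans ?_ (h1.trans (le_of_eq ?_))
    · rw [Nat.cast_le]
      apply card_le_card
      intro t ht
      have ht' := mem_filter.1 ht
      exact mem_filter.2 ⟨ht'.1, Nat.modEq_one, fun p _ _ h =>
        ht'.2 p ((hZ p t).1 h).1 ((hZ p t).1 h).2⟩
    · rw [e3, Nat.cast_one, div_one, ← Real.exp_sum, sum_neg_distrib]
  -- expansion
  have hexp : ∀ n : ℕ, ∏ p ∈ PS z y, (if p ∣ n then ρ p else 1) =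
      ∑ R ∈ (PS z y).powerset, (∏ p ∈ PS z y \ R, ρ p) *
        ((∏ p ∈ R, (1 - ρ p)) * ∏ p ∈ R, (if p ∣ n then (0 : ℝ) else 1)) := by
    intro n
    have h1 : ∏ p ∈ PS z y, (if p ∣ n then ρ p else 1) =
        ∏ p ∈ PS z y, ((1 - ρ p) * (if p ∣ n then (0 : ℝ) else 1) + ρ p) := by
      refine prod_congr rfl fun p _ => ?_
      split_ifs <;> ring
    rw [h1, prod_add]
    refine sum_congr rfl fun R _ => ?_
    rw [prod_mul_distrib]
    ring
  calc ∑ n ∈ Icc 1 N, ∏ p ∈ PS z y, (if p ∣ n then ρ p else 1) =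
      ∑ R ∈ (PS z y).powerset, (∏ p ∈ PS z y \ R, ρ p) * ((∏ p ∈ R, (1 - ρ p)) *
        ∑ n ∈ Icc 1 N, ∏ p ∈ R, (if p ∣ n then (0 : ℝ) else 1)) := by
        rw [sum_congr rfl fun n _ => hexp n, sum_comm]
        refine sum_congr rfl fun R _ => ?_
        rw [← mul_sum, ← mul_sum]
    _ ≤ ∑ R ∈ (PS z y).powerset, (∏ p ∈ PS z y \ R, ρ p) * ((∏ p ∈ R, (1 - ρ p)) *
        (C * N * ∏ p ∈ R, Real.exp (-(1 / (p : ℝ))))) := by
        refine sum_le_sum fun R hRm => ?_
        apply mul_le_mul_of_nonneg_left _ (prod_nonneg fun p _ => (hρ p).1)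
        exact mul_le_mul_of_nonneg_left (hR R hRm)
          (prod_nonneg fun p _ => by linarith [(hρ p).2])
    _ = C * N * ∏ p ∈ PS z y, ((1 - ρ p) * Real.exp (-(1 / (p : ℝ))) + ρ p) := by
        rw [prod_add, mul_sum]
        refine sum_congr rfl fun R _ => ?_
        rw [prod_mul_distrib]
        ring
    _ ≤ C * N * ∏ p ∈ PS z y, (Real.exp (-((1 - ρ p) / p)) * Real.exp (1 / (p : ℝ) ^ 2)) := by
        apply mul_le_mul_of_nonneg_left _ (by positivity)
        refine prod_le_prod (fun p _ => ?_) fun p hp => ?_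
        · exact add_nonneg (mul_nonneg (by linarith [(hρ p).2]) (Real.exp_pos _).le) (hρ p).1
        · obtain ⟨h0, h1⟩ := hρ p
          have hx : (0 : ℝ) ≤ 1 / (p : ℝ) := by positivity
          have h2 := exp_neg_le hx
          have h3 : (1 - ρ p) * Real.exp (-(1 / (p : ℝ))) + ρ p ≤
              (-((1 - ρ p) / p) + 1 / (p : ℝ) ^ 2) + 1 := by
            have h4 : (1 - ρ p) * Real.exp (-(1 / (p : ℝ))) ≤
                (1 - ρ p) * (1 - 1 / (p : ℝ) + (1 / (p : ℝ)) ^ 2 / 2) :=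
              mul_le_mul_of_nonneg_left h2 (by linarith)
            have h5 : (1 - ρ p) * ((1 / (p : ℝ)) ^ 2 / 2) ≤ 1 / (p : ℝ) ^ 2 := by
              have h6 : (0 : ℝ) ≤ (1 / (p : ℝ)) ^ 2 := sq_nonneg _
              have h7 : 1 / (p : ℝ) ^ 2 = (1 / (p : ℝ)) ^ 2 := by rw [one_div_pow]
              rw [h7]
              have h8 : (1 - ρ p) * ((1 / (p : ℝ)) ^ 2 / 2) ≤ 1 * ((1 / (p : ℝ)) ^ 2 / 2) :=
                mul_le_mul_of_nonneg_right (by linarith) (by positivity)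
              linarith
            have h8 : (1 - ρ p) / (p : ℝ) = (1 - ρ p) * (1 / (p : ℝ)) := by ring
            have h9 : (1 - ρ p) * (1 - 1 / (p : ℝ) + (1 / (p : ℝ)) ^ 2 / 2) =
                (1 - ρ p) - (1 - ρ p) * (1 / (p : ℝ)) + (1 - ρ p) * ((1 / (p : ℝ)) ^ 2 / 2) := by
              ring
            rw [h8]
            linarith
          refine h3.trans ?_
          rw [← Real.exp_add]
          exact Real.add_one_le_exp _
    _ = C * N * (Real.exp (-∑ p ∈ PS z y, (1 - ρ p) / p) *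
          Real.exp (∑ p ∈ PS z y, 1 / (p : ℝ) ^ 2)) := by
        rw [prod_mul_distrib, ← Real.exp_sum, ← Real.exp_sum, sum_neg_distrib]
    _ ≤ C * N * (Real.exp (-∑ p ∈ PS z y, (1 - ρ p) / p) * Real.exp Q) := by
        apply mul_le_mul_of_nonneg_left _ (by positivity)
        apply mul_le_mul_of_nonneg_left _ (Real.exp_pos _).le
        exact Real.exp_le_exp.2 (hQ _)
    _ = _ := by ring

end Pool.Agent.R421.Z4
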