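import Pool.Agent.R421.HF.Fam
import Pool.Agent.R421.Z4.Svq

/-!
# Project Z4 (helper421): the family of the curves with a point of order four, up to isogeny

`y² = x (x - s²) (x - (s² - 4 t))` with `s = g a`, `t = g b`, `a`, `b` coprime, `g`, `b` coprime.
-/

set_option autoImplicit false
set_option linter.all false

namespace Pool.Agent.R421.Z4

open Finset Pool.Agent.W262.RK Pool.Agent.W307.RT Pool.Agent.TH841.PT Pool.Agent.R421.HF
open Pool.Agent.W29.RT (dvd_S1 dvd_S2)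
open Pool.Agent.W372.RK2 (sq_pow_dvd)

/-- the forms -/
def F4 (g : ℕ) (a b : ℤ) (j : Fin 3) : ℤ := ![a, g * a ^ 2 - 4 * b, b] j

/-- the classes -/
def c4 : Fin 3 → Fin 4 := ![0, 1, 2]

/-- the type with the bit `b` -/
def tyb (b : Bool) : Ty := fun k => if k = 0 then b else false

/-- the types -/
noncomputable def ty4 (g : ℕ) (b : ℤ) (j : Fin 3) (p : ℕ) : Option Ty :=
  if p ∣ g then none
  else if j = 0 then (if jacobiSym (g * b) p = 1 then some (tyb false) else none)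
  else if j = 1 then some (tyb (decide (jacobiSym (-1) p = -1)))
  else some (tyb false)

lemma fin3 : ∀ j : Fin 3, j = 0 ∨ j = 1 ∨ j = 2 := by decide

lemma ty_nd {g : ℕ} {b : ℤ} {j : Fin 3} {p : ℕ} {θ : Ty} (h : ty4 g b j p = some θ) : ¬ p ∣ g := by
  intro hg
  unfold ty4 at h
  rw [if_pos hg] at h
  exact absurd h (by simp)

lemma ty_0 {g : ℕ} {b : ℤ} {p : ℕ} {θ : Ty} (h : ty4 g b 0 p = some θ) :
    jacobiSym (g * b) p = 1 ∧ θ = tyb false := by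
  have hg := ty_nd h
  unfold ty4 at h
  rw [if_neg hg, if_pos rfl] at h
  by_cases h1 : jacobiSym (g * b) p = 1
  · rw [if_pos h1] at h
    exact ⟨h1, (Option.some.inj h).symm⟩
  · rw [if_neg h1] at h
    exact absurd h (by simp)

lemma ty_1 {g : ℕ} {b : ℤ} {p : ℕ} {θ : Ty} (h : ty4 g b 1 p = some θ) :
    θ = tyb (decide (jacobiSym (-1) p = -1)) := by
  have hg := ty_nd h
  unfold ty4 at h
  rw [if_neg hg, if_neg (by decide), if_pos rfl] at h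
  exact (Option.some.inj h).symm

lemma ty_2 {g : ℕ} {b : ℤ} {p : ℕ} {θ : Ty} (h : ty4 g b 2 p = some θ) : θ = tyb false := by
  have hg := ty_nd h
  unfold ty4 at h
  rw [if_neg hg, if_neg (by decide), if_neg (by decide)] at h
  exact (Option.some.inj h).symm

lemma ty_s1 {g : ℕ} {b : ℤ} {p : ℕ} (hg : ¬ p ∣ g) :
    ty4 g b 1 p = some (tyb (decide (jacobiSym (-1) p = -1))) := by
  unfold ty4
  rw [if_neg hg, if_neg (by decide), if_pos rfl]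

lemma ty_s2 {g : ℕ} {b : ℤ} {p : ℕ} (hg : ¬ p ∣ g) : ty4 g b 2 p = some (tyb false) := by
  unfold ty4
  rw [if_neg hg, if_neg (by decide), if_neg (by decide)]

lemma ty_s0 {g : ℕ} {b : ℤ} {p : ℕ} (hg : ¬ p ∣ g) (h : jacobiSym (g * b) p = 1) :
    ty4 g b 0 p = some (tyb false) := by
  unfold ty4
  rw [if_neg hg, if_pos rfl, if_pos h]

/-- the parts -/
noncomputable def pr4 (g z : ℕ) (a b : ℤ) : Fin 3 × Ty → ℤ := prv (ty4 g b) z (F4 g a b)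

/-- the facts about the counted pairs -/
structure G4 (g z y : ℕ) (s v u : Fin 3 × Ty → ℕ) (a b : ℤ) : Prop where
  cop : IsCoprime a b
  cog : IsCoprime (g : ℤ) b
  ne : ∀ j, F4 g a b j ≠ 0
  hs : S1 z y (pr4 g z a b) = s
  hv : S2 z y (pr4 g z a b) = v
  hu : ∀ i, (u i : ℤ) ∣ pr4 g z a b i

lemma cop_nd' {a b : ℤ} (h : IsCoprime a b) {p : ℕ} (hp : p.Prime) (h1 : (p : ℤ) ∣ a) :
    ¬ (p : ℤ) ∣ b := fun h2 => cop_nd h hp ⟨h1, h2⟩

/-- a prime divides at most one of the forms -/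
lemma un4 {g : ℕ} {a b : ℤ} (cop : IsCoprime a b) (cog : IsCoprime (g : ℤ) b) {p : ℕ}
    (hp : p.Prime) (h2 : 2 < p) {j l : Fin 3} (hj : (p : ℤ) ∣ F4 g a b j)
    (hl : (p : ℤ) ∣ F4 g a b l) : j = l := by
  have hpi : Prime (p : ℤ) := Nat.prime_iff_prime_int.1 hp
  have h4 : ¬ (p : ℤ) ∣ 4 := by
    intro h
    have h5 : (p : ℤ) ∣ 2 ^ 2 := by norm_num; exact h
    have h6 := Int.le_of_dvd (by norm_num) (hpi.dvd_of_dvd_pow h5)
    omega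
  have k1 : ¬ ((p : ℤ) ∣ a ∧ (p : ℤ) ∣ b) := cop_nd cop hp
  have k2 : ¬ ((p : ℤ) ∣ a ∧ (p : ℤ) ∣ g * a ^ 2 - 4 * b) := by
    rintro ⟨q1, q2⟩
    apply k1
    refine ⟨q1, ?_⟩
    have h5 : (p : ℤ) ∣ 4 * b := by
      have : 4 * b = g * a * a - (g * a ^ 2 - 4 * b) := by ring
      rw [this]
      exact dvd_sub (q1.mul_left _) q2
    exact (hpi.dvd_or_dvd h5).resolve_left h4
  have k3 : ¬ ((p : ℤ) ∣ b ∧ (p : ℤ) ∣ g * a ^ 2 - 4 * b) := by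
    rintro ⟨q1, q2⟩
    have h5 : (p : ℤ) ∣ g * a ^ 2 := by
      have : (g : ℤ) * a ^ 2 = 4 * b + (g * a ^ 2 - 4 * b) := by ring
      rw [this]
      exact dvd_add (q1.mul_left _) q2
    rcases hpi.dvd_or_dvd h5 with h6 | h6
    · exact cop_nd cog hp ⟨h6, q1⟩
    · exact k1 ⟨hpi.dvd_of_dvd_pow h6, q1⟩
  rcases fin3 j with rfl | rfl | rfl <;> rcases fin3 l with rfl | rfl | rfl
  · rfl
  · exact absurd ⟨hj, hl⟩ k2
  · exact absurd ⟨hj, hl⟩ k1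
  · exact absurd ⟨hl, hj⟩ k2
  · rfl
  · exact absurd ⟨hl, hj⟩ k3
  · exact absurd ⟨hl, hj⟩ k1
  · exact absurd ⟨hj, hl⟩ k3
  · rfl

section

variable {g z y Y : ℕ} {s v u : Fin 3 × Ty → ℕ} {a b b' : ℤ}

lemma G4.fs (h : G4 g z y s v u a b) {p : ℕ} (hp : p.Prime) {i : Fin 3 × Ty} (hi : p ∣ s i) :
    p ∈ PS z y ∧ (p : ℤ) ∣ F4 g a b i.1 ∧ ¬ (p : ℤ) ^ 2 ∣ F4 g a b i.1 ∧
      ty4 g b i.1 p = some i.2 := by
  rw [← h.hs] at hi
  obtain ⟨h1, h2, h3⟩ := (dvd_S1 hp).1 hi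
  have hz := (mem_PS.1 h1).1.1
  have h4 := (prv_dvd h.ne i hp hz).1 h2
  unfold pr4 at h3
  rw [prv_pow h.ne i hp hz two_ne_zero] at h3
  exact ⟨h1, h4.1, fun h5 => h3 ⟨h5, h4.2⟩, h4.2⟩

lemma G4.fv (h : G4 g z y s v u a b) {p : ℕ} (hp : p.Prime) {i : Fin 3 × Ty} (hi : p ∣ v i) :
    p ∈ PS z y ∧ (p : ℤ) ^ 2 ∣ F4 g a b i.1 ∧ ty4 g b i.1 p = some i.2 := by
  rw [← h.hv] at hi
  obtain ⟨h1, h3⟩ := (dvd_S2 hp).1 hi
  have hz := (mem_PS.1 h1).1.1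
  unfold pr4 at h3
  rw [prv_pow h.ne i hp hz two_ne_zero] at h3
  exact ⟨h1, h3.1, h3.2⟩

lemma G4.fu (h : G4 g z y s v u a b) (hzy : z < y) (hu : u ∈ Tup (Fin 3 × Ty) y Y) {p : ℕ}
    (hp : p.Prime) {i : Fin 3 × Ty} (hi : p ∣ u i) :
    y < p ∧ (p : ℤ) ∣ F4 g a b i.1 ∧ ty4 g b i.1 p = some i.2 := by
  have h1 := (dv_prime ((Pool.Agent.W372.RK2.mem_Tup'.1 hu).1 i) hp hi).1
  have h2 : (p : ℤ) ∣ pr4 g z a b i := (Int.natCast_dvd_natCast.2 hi).trans (h.hu i)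
  have h4 := (prv_dvd h.ne i hp (hzy.trans h1)).1 h2
  exact ⟨h1, h4⟩

lemma G4.fm (h : G4 g z y s v u a b) (hzy : z < y) (hu : u ∈ Tup (Fin 3 × Ty) y Y) {p : ℕ}
    (hp : p.Prime) {i : Fin 3 × Ty} (hi : p ∣ s i * v i ^ 2 * u i) :
    z < p ∧ (p : ℤ) ∣ F4 g a b i.1 ∧ ty4 g b i.1 p = some i.2 := by
  rcases hp.dvd_mul.1 hi with hi | hi
  · rcases hp.dvd_mul.1 hi with hi | hi
    · have h' := h.fs hp hi
      exact ⟨(mem_PS.1 h'.1).1.1, h'.2.1, h'.2.2.2⟩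
    · have h' := h.fv hp (hp.dvd_of_dvd_pow hi)
      exact ⟨(mem_PS.1 h'.1).1.1, (dvd_pow_self (p : ℤ) two_ne_zero).trans h'.2.1, h'.2.2⟩
  · have h' := h.fu hzy hu hp hi
    exact ⟨hzy.trans h'.1, h'.2⟩

/-- a typed small prime is in the tuples -/
lemma G4.mem (h : G4 g z y s v u a b) {p : ℕ} (hp : p ∈ PS z y) {i : Fin 3 × Ty}
    (h1 : (p : ℤ) ∣ F4 g a b i.1) (h2 : ty4 g b i.1 p = some i.2) : p ∣ s i ∨ p ∣ v i := by
  have hpp := (mem_PS.1 hp).2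
  have hz := (mem_PS.1 hp).1.1
  have h3 : (p : ℤ) ∣ pr4 g z a b i := (prv_dvd h.ne i hpp hz).2 ⟨h1, h2⟩
  by_cases h4 : (p : ℤ) ^ 2 ∣ pr4 g z a b i
  · right
    rw [← h.hv]
    exact (dvd_S2 hpp).2 ⟨hp, h4⟩
  · left
    rw [← h.hs]
    exact (dvd_S1 hpp).2 ⟨hp, h3, h4⟩

lemma G4.un (h : G4 g z y s v u a b) (hz : 2 ≤ z) (hzy : z < y)
    (hu : u ∈ Tup (Fin 3 × Ty) y Y) {p : ℕ} (hp : p.Prime) {i l : Fin 3 × Ty}
    (hi : p ∣ s i * v i ^ 2 * u i) (hl : p ∣ s l * v l ^ 2 * u l) : i = l := by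
  obtain ⟨h1, h2, h3⟩ := h.fm hzy hu hp hi
  obtain ⟨_, h5, h6⟩ := h.fm hzy hu hp hl
  have h7 := un4 h.cop h.cog hp (by omega) h2 h5
  refine Prod.ext h7 ?_
  have h8 : some i.2 = some l.2 := by rw [← h3, ← h6, h7]
  exact Option.some.inj h8

/-- the modulus of the index `i` -/
def mi (s v u : Fin 3 × Ty → ℕ) (i : Fin 3 × Ty) : ℕ := s i * v i ^ 2 * u i

/-- divisibility by the product of the moduli -/
lemma G4.dvd_prod (h : G4 g z y s v u a b) (hz : 2 ≤ z) (hzy : z < y)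
    (hs : s ∈ Tup (Fin 3 × Ty) z y) (hv : v ∈ Tup (Fin 3 × Ty) z y)
    (hu : u ∈ Tup (Fin 3 × Ty) y Y) (I : Finset (Fin 3 × Ty)) (n : ℤ)
    (h1 : ∀ i ∈ I, ∀ p : ℕ, p.Prime → p ∣ s i → (p : ℤ) ∣ n)
    (h2 : ∀ i ∈ I, ∀ p : ℕ, p.Prime → p ∣ v i → (p : ℤ) ^ 2 ∣ n)
    (h3 : ∀ i ∈ I, ∀ p : ℕ, p.Prime → p ∣ u i → (p : ℤ) ∣ n) :
    ((∏ i ∈ I, mi s v u i : ℕ) : ℤ) ∣ n := by
  have hs' := (Pool.Agent.W372.RK2.mem_Tup'.1 hs).1
  have hv' := (Pool.Agent.W372.RK2.mem_Tup'.1 hv).1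
  have hu' := (Pool.Agent.W372.RK2.mem_Tup'.1 hu).1
  rw [Nat.cast_prod]
  apply Finset.prod_dvd_of_coprime
  · intro i _ l _ hil
    rw [Function.onFun, Nat.isCoprime_iff_coprime]
    apply Nat.coprime_of_dvd
    intro p hp hpi hpl
    exact hil (h.un hz hzy hu hp hpi hpl)
  intro i hi
  unfold mi
  have e1 : ((s i : ℕ) : ℤ) ∣ n := by
    have h := sq_pow_dvd (dv_squarefree (hs' i)) 1 n
      (fun p hp hpd => by
        rw [pow_one]
        exact h1 i hi p hp hpd)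
    rwa [pow_one] at h
  have e2 : ((v i ^ 2 : ℕ) : ℤ) ∣ n := by
    have h := sq_pow_dvd (dv_squarefree (hv' i)) 2 n (fun p hp hpd => h2 i hi p hp hpd)
    exact_mod_cast h
  have e3 : ((u i : ℕ) : ℤ) ∣ n := by
    have h := sq_pow_dvd (dv_squarefree (hu' i)) 1 n
      (fun p hp hpd => by
        rw [pow_one]
        exact h3 i hi p hp hpd)
    rwa [pow_one] at h
  have hcop1 : IsCoprime ((s i : ℕ) : ℤ) ((v i ^ 2 : ℕ) : ℤ) := by
    rw [Nat.isCoprime_iff_coprime]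
    apply Nat.coprime_of_dvd
    intro p hp hps hpv
    exact (h.fs hp hps).2.2.1 (h.fv hp (hp.dvd_of_dvd_pow hpv)).2.1
  have hcop2 : IsCoprime ((s i * v i ^ 2 : ℕ) : ℤ) ((u i : ℕ) : ℤ) := by
    rw [Nat.isCoprime_iff_coprime]
    apply Nat.coprime_of_dvd
    intro p hp hps hpu
    have h8 : y < p := (h.fu hzy hu hp hpu).1
    have h9 : p ≤ y := by
      rcases hp.dvd_mul.1 hps with h | h
      · exact (dv_prime (hs' i) hp h).2
      · exact (dv_prime (hv' i) hp (hp.dvd_of_dvd_pow h)).2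
    omega
  rw [Nat.cast_mul]
  refine hcop2.mul_dvd ?_ e3
  rw [Nat.cast_mul]
  exact hcop1.mul_dvd e1 e2

/-- the modulus for the second variable -/
def M1 (s v u : Fin 3 × Ty → ℕ) : ℕ := ∏ i ∈ univ.filter (fun i : Fin 3 × Ty => i.1 ≠ 0), mi s v u i

/-- the modulus for the first variable -/
def M0 (s v u : Fin 3 × Ty → ℕ) : ℕ := ∏ i ∈ univ.filter (fun i : Fin 3 × Ty => i.1 = 0), mi s v u i

lemma G4.dvdM0 (h : G4 g z y s v u a b) (hz : 2 ≤ z) (hzy : z < y)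
    (hs : s ∈ Tup (Fin 3 × Ty) z y) (hv : v ∈ Tup (Fin 3 × Ty) z y)
    (hu : u ∈ Tup (Fin 3 × Ty) y Y) : ((M0 s v u : ℕ) : ℤ) ∣ a := by
  refine h.dvd_prod hz hzy hs hv hu _ a (fun i hi p hp hpi => ?_) (fun i hi p hp hpi => ?_)
    (fun i hi p hp hpi => ?_)
  · have h1 := (h.fs hp hpi).2.1
    rw [(mem_filter.1 hi).2] at h1
    exact h1
  · have h1 := (h.fv hp hpi).2.1
    rw [(mem_filter.1 hi).2] at h1
    exact h1
  · have h1 := (h.fu hzy hu hp hpi).2.1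
    rw [(mem_filter.1 hi).2] at h1
    exact h1

/-- two second variables with the same first variable are congruent -/
lemma G4.congM1 (h : G4 g z y s v u a b) (h' : G4 g z y s v u a b') (hz : 2 ≤ z) (hzy : z < y)
    (hs : s ∈ Tup (Fin 3 × Ty) z y) (hv : v ∈ Tup (Fin 3 × Ty) z y)
    (hu : u ∈ Tup (Fin 3 × Ty) y Y) : ((M1 s v u : ℕ) : ℤ) ∣ b - b' := by
  have key : ∀ (q : ℤ), IsCoprime q 4 → ∀ j : Fin 3, j ≠ 0 → q ∣ F4 g a b j → q ∣ F4 g a b' j →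
      q ∣ b - b' := by
    intro q hq j hj h1 h2
    rcases fin3 j with rfl | rfl | rfl
    · exact absurd rfl hj
    · have h3 : q ∣ 4 * (b - b') := by
        have : 4 * (b - b') = F4 g a b' 1 - F4 g a b 1 := by
          show 4 * (b - b') = (g * a ^ 2 - 4 * b') - (g * a ^ 2 - 4 * b)
          ring
        rw [this]
        exact dvd_sub h2 h1
      exact hq.dvd_of_dvd_mul_left h3
    · exact dvd_sub h1 h2
  have hc4 : ∀ p : ℕ, p.Prime → z < p → IsCoprime (p : ℤ) 4 := by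
    intro p hp hzp
    have hpi : Prime (p : ℤ) := Nat.prime_iff_prime_int.1 hp
    rw [hpi.coprime_iff_not_dvd]
    intro h
    have h5 : (p : ℤ) ∣ 2 ^ 2 := by norm_num; exact h
    have h6 := Int.le_of_dvd (by norm_num) (hpi.dvd_of_dvd_pow h5)
    omega
  refine h.dvd_prod hz hzy hs hv hu _ _ (fun i hi p hp hpi => ?_) (fun i hi p hp hpi => ?_)
    (fun i hi p hp hpi => ?_)
  · have h1 := h.fs hp hpi
    have h2 := h'.fs hp hpi
    exact key p (hc4 p hp (mem_PS.1 h1.1).1.1) i.1 (mem_filter.1 hi).2 h1.2.1 h2.2.1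
  · have h1 := h.fv hp hpi
    have h2 := h'.fv hp hpi
    exact key _ ((hc4 p hp (mem_PS.1 h1.1).1.1).pow_left) i.1 (mem_filter.1 hi).2 h1.2.1 h2.2.1
  · have h1 := h.fu hzy hu hp hpi
    have h2 := h'.fu hzy hu hp hpi
    exact key p (hc4 p hp (hzy.trans h1.1)) i.1 (mem_filter.1 hi).2 h1.2.1 h2.2.1

end

end Pool.Agent.R421.Z4
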