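import Pool.Agent.R421.Z4.Avg4

/-!
# Project Z4: the sum over the common divisors
-/

set_option autoImplicit false
set_option linter.all false

namespace Pool.Agent.R421.Z4

open Finset Pool.Agent.W262.RK Pool.Agent.W307.RT Pool.Agent.TH841.PT Pool.Agent.R421.HF
open Pool.Agent.R421.UR

/-- the number of the prime factors -/
lemma om_le (c n : ℕ) (hn : n ≠ 0) : c ^ n.primeFactors.card ≤ c ^ c * n ∨ c = 0 := by
  rcases Nat.eq_zero_or_pos c with h | hc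
  · exact Or.inr h
  left
  have h1 : n.primeFactors.card = (n.primeFactors.filter (fun p => p < c)).card +
      (n.primeFactors.filter (fun p => ¬ p < c)).card :=
    (card_filter_add_card_filter_not _).symm
  have h2 : (n.primeFactors.filter (fun p => p < c)).card ≤ c := by
    calc _ ≤ (range c).card := card_le_card fun p hp => mem_range.2 (mem_filter.1 hp).2
      _ = c := card_range c
  have h3 : c ^ (n.primeFactors.filter (fun p => ¬ p < c)).card ≤ n := by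
    calc c ^ (n.primeFactors.filter (fun p => ¬ p < c)).card ≤
        ∏ p ∈ n.primeFactors.filter (fun p => ¬ p < c), p :=
          Finset.pow_card_le_prod _ _ _ (fun p hp => not_lt.1 (mem_filter.1 hp).2)
      _ ≤ n := by
        apply Nat.le_of_dvd (Nat.pos_of_ne_zero hn)
        exact (prod_dvd_prod_of_subset _ _ _ (filter_subset _ _)).trans
          (Nat.prod_primeFactors_dvd _)
  rw [h1, pow_add]
  exact Nat.mul_le_mul (Nat.pow_le_pow_right hc h2) h3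

lemma om_sqrt (c n : ℕ) (hc : 1 ≤ c) (hn : n ≠ 0) :
    (c : ℝ) ^ n.primeFactors.card ≤ (c : ℝ) ^ (c ^ 2) * Real.sqrt n := by
  have h1 : (c ^ 2) ^ n.primeFactors.card ≤ (c ^ 2) ^ (c ^ 2) * n :=
    (om_le (c ^ 2) n hn).resolve_right (by positivity)
  have h2 : ((c : ℝ) ^ n.primeFactors.card) ^ 2 ≤ ((c : ℝ) ^ (c ^ 2) * Real.sqrt n) ^ 2 := by
    rw [mul_pow, Real.sq_sqrt (Nat.cast_nonneg n)]
    have h3 : (((c ^ 2) ^ n.primeFactors.card : ℕ) : ℝ) ≤ (((c ^ 2) ^ (c ^ 2) * n : ℕ) : ℝ) :=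
      Nat.cast_le.2 h1
    push_cast at h3
    have e1 : ((c : ℝ) ^ n.primeFactors.card) ^ 2 = ((c : ℝ) ^ 2) ^ n.primeFactors.card := by
      rw [← pow_mul, ← pow_mul, mul_comm]
    have e2 : ((c : ℝ) ^ (c ^ 2)) ^ 2 = ((c : ℝ) ^ 2) ^ (c ^ 2) := by
      rw [← pow_mul, ← pow_mul, mul_comm]
    rw [e1, e2]
    exact h3
  exact (pow_le_pow_iff_left₀ (by positivity) (by positivity) two_ne_zero).1 h2

/-- the trivial bound of the rank -/
lemma triv (A B : ℤ) (hA : A ≠ 0) (hB : B ≠ 0) (hAB : A ≠ B) :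
    (2 : ℝ) ^ Module.finrank ℤ (EAB A B).toAffine.Point ≤
      4 ^ ((2 * A * B * (A - B)).natAbs.primeFactors.card + 2) := by
  classical
  obtain ⟨L, hL⟩ : ∃ L : ℕ → Bool → Bool → Bool → Bool → Prop, ∀ p a b c d, L p a b c d :=
    ⟨fun _ _ _ _ _ => True, fun _ _ _ _ _ => trivial⟩
  obtain ⟨Nt, hNt⟩ : ∃ Nt : ℕ → Prop, ∀ p, ¬ Nt p := ⟨fun _ => False, fun _ h => h⟩
  have h := desc5 1 L A B Nt hA hB hAB odd_one
    squarefree_one (fun p hp h1 => absurd (Nat.dvd_one.1 h1) hp.one_lt.ne')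
    (fun p hp h1 => by intros; exact hL _ _ _ _ _) (fun p hp h1 => (hNt p h1).elim)
  have hNL : NL 1 L ≤ 1 := by
    unfold NL
    refine (card_filter_le _ _).trans ?_
    rw [card_product]
    simp
  have h2 : 2 ^ Module.finrank ℤ (EAB A B).toAffine.Point ≤
      4 ^ ((2 * A * B * (A - B)).natAbs.primeFactors.card + 2) := by
    refine h.trans ?_
    refine (Nat.mul_le_mul_left _ hNL).trans ?_
    rw [mul_one]
    apply Nat.pow_le_pow_right (by norm_num)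
    exact Nat.add_le_add_right (card_le_card fun x hx => (mem_filter.1 hx).1) 2
  exact_mod_cast h2

/-- the power of the rank -/
noncomputable def w4 (α : ℝ) (p : ℤ × ℤ) : ℝ :=
  ((2 : ℝ) ^ Module.finrank ℤ (EAB (p.1 ^ 2) (p.1 ^ 2 - 4 * p.2)).toAffine.Point) ^ α

lemma w4_nonneg (α : ℝ) (p : ℤ × ℤ) : 0 ≤ w4 α p := Real.rpow_nonneg (by positivity) _

/-- the reduced pairs of size `n` -/
def Pp (p : ℤ × ℤ) (n : ℕ) : Prop :=
  p.1 ≠ 0 ∧ p.2 ≠ 0 ∧ p.1 ^ 2 - 4 * p.2 ≠ 0 ∧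
    (∀ q : ℕ, q.Prime → ¬ ((q : ℤ) ∣ p.1 ∧ (q : ℤ) ^ 2 ∣ p.2)) ∧
    p.1.natAbs ≤ n ∧ p.2.natAbs ≤ n ^ 2

lemma Pp_mono (p : ℤ × ℤ) (n T : ℕ) (h : Pp p n) (hT : n ≤ T) : Pp p T :=
  ⟨h.1, h.2.1, h.2.2.1, h.2.2.2.1, h.2.2.2.2.1.trans hT,
    h.2.2.2.2.2.trans (Nat.pow_le_pow_left hT 2)⟩

/-- the trivial bound for a pair -/
lemma w4_triv {α : ℝ} (h0 : 0 < α) (hα : α ≤ 1 / 24) {p : ℤ × ℤ} {T g : ℕ} (h : Pp p T)
    (hT : T < g * g) : w4 α p ≤ (4 ^ 6 * 40 : ℝ) * Real.sqrt g := by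
  obtain ⟨h1, h2, h3, _, h5, h6⟩ := h
  have hT1 : 1 ≤ T := le_trans (Int.natAbs_pos.2 h1) h5
  have hg1 : 1 ≤ g := by
    rcases Nat.eq_zero_or_pos g with h | h
    · subst h
      omega
    · exact h
  have hA : p.1 ^ 2 ≠ 0 := pow_ne_zero 2 h1
  have hAB : p.1 ^ 2 ≠ p.1 ^ 2 - 4 * p.2 := by
    intro h
    apply h2
    linarith
  have ht := triv _ _ hA h3 hAB
  obtain ⟨N, hN⟩ : ∃ N, N = (2 * p.1 ^ 2 * (p.1 ^ 2 - 4 * p.2) *
    (p.1 ^ 2 - (p.1 ^ 2 - 4 * p.2))).natAbs := ⟨_, rfl⟩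
  rw [← hN] at ht
  have hN0 : N ≠ 0 := by
    rw [hN, Int.natAbs_ne_zero]
    exact mul_ne_zero (mul_ne_zero (mul_ne_zero two_ne_zero hA) h3) (sub_ne_zero.2 hAB)
  have hNle : N ≤ 40 * T ^ 6 := by
    have e : (2 * p.1 ^ 2 * (p.1 ^ 2 - 4 * p.2) * (p.1 ^ 2 - (p.1 ^ 2 - 4 * p.2))) =
        2 * p.1 ^ 2 * (p.1 ^ 2 - 4 * p.2) * (4 * p.2) := by ring
    rw [hN, e, Int.natAbs_mul, Int.natAbs_mul, Int.natAbs_mul, Int.natAbs_mul, Int.natAbs_pow]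
    have k1 : p.1.natAbs ^ 2 ≤ T ^ 2 := Nat.pow_le_pow_left h5 2
    have k2 : (p.1 ^ 2 - 4 * p.2).natAbs ≤ 5 * T ^ 2 := by
      have := Int.natAbs_sub_le (p.1 ^ 2) (4 * p.2)
      rw [Int.natAbs_mul, Int.natAbs_pow] at this
      have e4 : (4 : ℤ).natAbs = 4 := rfl
      rw [e4] at this
      omega
    have e2 : (2 : ℤ).natAbs = 2 := rfl
    have e4 : (4 : ℤ).natAbs = 4 := rfl
    rw [e2, e4]
    calc 2 * p.1.natAbs ^ 2 * (p.1 ^ 2 - 4 * p.2).natAbs * (4 * p.2.natAbs) ≤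
        2 * T ^ 2 * (5 * T ^ 2) * (4 * T ^ 2) :=
          Nat.mul_le_mul (Nat.mul_le_mul (Nat.mul_le_mul_left _ k1) k2) (Nat.mul_le_mul_left _ h6)
      _ = 40 * T ^ 6 := by ring
  have hom : 4 ^ N.primeFactors.card ≤ 4 ^ 4 * N := (om_le 4 N hN0).resolve_right (by norm_num)
  have hb : (2 : ℝ) ^ Module.finrank ℤ (EAB (p.1 ^ 2) (p.1 ^ 2 - 4 * p.2)).toAffine.Point ≤
      (4 ^ 6 * 40 : ℝ) * (g : ℝ) ^ 12 := by
    refine ht.trans ?_
    have k3 : 4 ^ (N.primeFactors.card + 2) ≤ 4 ^ 6 * 40 * g ^ 12 := by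
      calc 4 ^ (N.primeFactors.card + 2) = 4 ^ N.primeFactors.card * 16 := by
            rw [pow_add]
            norm_num
        _ ≤ (4 ^ 4 * N) * 16 := Nat.mul_le_mul_right _ hom
        _ ≤ (4 ^ 4 * (40 * T ^ 6)) * 16 :=
            Nat.mul_le_mul_right _ (Nat.mul_le_mul_left _ hNle)
        _ = 4 ^ 6 * 40 * T ^ 6 := by ring
        _ ≤ 4 ^ 6 * 40 * (g * g) ^ 6 :=
            Nat.mul_le_mul_left _ (Nat.pow_le_pow_left hT.le 6)
        _ = 4 ^ 6 * 40 * g ^ 12 := by ring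
    exact_mod_cast k3
  have hg1R : (1 : ℝ) ≤ g := by exact_mod_cast hg1
  have hbase : (1 : ℝ) ≤ (2 : ℝ) ^ Module.finrank ℤ
      (EAB (p.1 ^ 2) (p.1 ^ 2 - 4 * p.2)).toAffine.Point := one_le_pow₀ (by norm_num)
  unfold w4
  calc ((2 : ℝ) ^ Module.finrank ℤ (EAB (p.1 ^ 2) (p.1 ^ 2 - 4 * p.2)).toAffine.Point) ^ α ≤
      ((2 : ℝ) ^ Module.finrank ℤ (EAB (p.1 ^ 2) (p.1 ^ 2 - 4 * p.2)).toAffine.Point) ^
        (1 / 24 : ℝ) := Real.rpow_le_rpow_of_exponent_le hbase hα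
    _ ≤ ((4 ^ 6 * 40 : ℝ) * (g : ℝ) ^ 12) ^ (1 / 24 : ℝ) :=
        Real.rpow_le_rpow (by positivity) hb (by norm_num)
    _ = (4 ^ 6 * 40 : ℝ) ^ (1 / 24 : ℝ) * ((g : ℝ) ^ 12) ^ (1 / 24 : ℝ) :=
        Real.mul_rpow (by positivity) (by positivity)
    _ ≤ (4 ^ 6 * 40 : ℝ) * Real.sqrt g := by
        apply mul_le_mul _ _ (by positivity) (by positivity)
        · calc (4 ^ 6 * 40 : ℝ) ^ (1 / 24 : ℝ) ≤ (4 ^ 6 * 40 : ℝ) ^ (1 : ℝ) :=
              Real.rpow_le_rpow_of_exponent_le (by norm_num) (by norm_num)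
            _ = _ := Real.rpow_one _
        · rw [Real.sqrt_eq_rpow, ← Real.rpow_natCast, ← Real.rpow_mul (by linarith)]
          norm_num

/-- the sum over the common divisors -/
lemma sum_g : ∃ K : ℝ, 0 ≤ K ∧ ∀ s : Finset ℕ, ∑ g ∈ s, Real.sqrt g / (g : ℝ) ^ 2 ≤ K := by
  have h : Summable (fun n : ℕ => 1 / (n : ℝ) ^ (3 / 2 : ℝ)) :=
    Real.summable_one_div_nat_rpow.2 (by norm_num)
  have e : ∀ n : ℕ, Real.sqrt n / (n : ℝ) ^ 2 = 1 / (n : ℝ) ^ (3 / 2 : ℝ) := by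
    intro n
    rcases Nat.eq_zero_or_pos n with h | h
    · subst h
      rw [Nat.cast_zero, Real.zero_rpow (by norm_num)]
      simp
    · have hn : (0 : ℝ) < n := by exact_mod_cast h
      rw [Real.sqrt_eq_rpow, div_eq_div_iff (by positivity) (by positivity), one_mul,
        ← Real.rpow_add hn]
      norm_num
  refine ⟨∑' n : ℕ, 1 / (n : ℝ) ^ (3 / 2 : ℝ), tsum_nonneg fun n => by positivity, fun s => ?_⟩
  rw [sum_congr rfl fun g _ => e g]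
  exact h.sum_le_tsum s fun n _ => by positivity

end Pool.Agent.R421.Z4
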