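import Pool.Agent.R421.Z4.Sum4

/-!
# Project Z4: the average over the reduced pairs
-/

set_option autoImplicit false
set_option linter.all false

namespace Pool.Agent.R421.Z4

open Finset Pool.Agent.W262.RK Pool.Agent.W307.RT Pool.Agent.TH841.PT Pool.Agent.R421.HF
open Pool.Agent.R421.UR

/-- the coprime pair -/
def cp (p : ℤ × ℤ) : ℤ × ℤ := (p.1 / (Int.gcd p.1 p.2 : ℤ), p.2 / (Int.gcd p.1 p.2 : ℤ))

lemma cp_spec {p : ℤ × ℤ} {g : ℕ} (hg : Int.gcd p.1 p.2 = g) :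
    p.1 = g * (cp p).1 ∧ p.2 = g * (cp p).2 := by
  have h1 : (g : ℤ) ∣ p.1 := by rw [← hg]; exact Int.gcd_dvd_left _ _
  have h2 : (g : ℤ) ∣ p.2 := by rw [← hg]; exact Int.gcd_dvd_right _ _
  unfold cp
  rw [hg]
  exact ⟨(Int.mul_ediv_cancel' h1).symm, (Int.mul_ediv_cancel' h2).symm⟩

/-- the facts about the coprime pair -/
lemma cp_facts {p : ℤ × ℤ} {g T : ℕ} (hg : Int.gcd p.1 p.2 = g) (hg1 : 1 ≤ g) (h : Pp p T) :
    IsCoprime (cp p).1 (cp p).2 ∧ IsCoprime (g : ℤ) (cp p).2 ∧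
      (∀ j, F4 g (cp p).1 (cp p).2 j ≠ 0) ∧ g * (cp p).1.natAbs ≤ T ∧
      g * (cp p).2.natAbs ≤ T ^ 2 := by
  obtain ⟨e1, e2⟩ := cp_spec hg
  obtain ⟨h1, h2, h3, h4, h5, h6⟩ := h
  have hcop : IsCoprime (cp p).1 (cp p).2 := by
    rw [Int.isCoprime_iff_gcd_eq_one]
    unfold cp
    exact Int.gcd_ediv_gcd_ediv_gcd (by rw [hg]; exact hg1)
  refine ⟨hcop, ?_, ?_, ?_, ?_⟩
  · rw [Int.isCoprime_iff_gcd_eq_one]
    show Nat.Coprime _ _
    apply Nat.coprime_of_dvd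
    intro q hq hq1 hq2
    rw [Int.natAbs_natCast] at hq1
    apply h4 q hq
    have k1 : (q : ℤ) ∣ g := Int.natCast_dvd_natCast.2 hq1
    have k2 : (q : ℤ) ∣ (cp p).2 := Int.natCast_dvd.2 hq2
    refine ⟨?_, ?_⟩
    · rw [e1]
      exact k1.mul_right _
    · rw [e2, pow_two]
      exact mul_dvd_mul k1 k2
  · intro j
    rcases fin3 j with rfl | rfl | rfl
    · show (cp p).1 ≠ 0
      intro h7
      apply h1
      rw [e1, h7, mul_zero]
    · show (g : ℤ) * (cp p).1 ^ 2 - 4 * (cp p).2 ≠ 0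
      intro h7
      apply h3
      rw [e1, e2]
      linear_combination (g : ℤ) * h7
    · show (cp p).2 ≠ 0
      intro h7
      apply h2
      rw [e2, h7, mul_zero]
  · have := h5
    rw [e1, Int.natAbs_mul, Int.natAbs_natCast] at this
    exact this
  · have := h6
    rw [e2, Int.natAbs_mul, Int.natAbs_natCast] at this
    exact this

lemma w4_cp {α : ℝ} {p : ℤ × ℤ} {g : ℕ} (hg : Int.gcd p.1 p.2 = g) : w4 α p =
    ((2 : ℝ) ^ Module.finrank ℤ (EAB (A4 g (cp p).1 (cp p).2)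
      (B4 g (cp p).1 (cp p).2)).toAffine.Point) ^ α := by
  obtain ⟨e1, e2⟩ := cp_spec hg
  have h1 : A4 g (cp p).1 (cp p).2 = p.1 ^ 2 := by
    unfold A4
    rw [← e1]
  have h2 : B4 g (cp p).1 (cp p).2 = p.1 ^ 2 - 4 * p.2 := by
    unfold B4
    rw [← e1, ← e2]
  unfold w4
  rw [h1, h2]

lemma cp_inj {g : ℕ} {Ω : Finset (ℤ × ℤ)} (hΩ : ∀ p ∈ Ω, Int.gcd p.1 p.2 = g) :
    Set.InjOn cp (Ω : Set (ℤ × ℤ)) := by
  intro p hp q hq h
  obtain ⟨e1, e2⟩ := cp_spec (hΩ p hp)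
  obtain ⟨f1, f2⟩ := cp_spec (hΩ q hq)
  refine Prod.ext ?_ ?_
  · rw [e1, f1, h]
  · rw [e2, f2, h]

open Classical in
/-- the sum over the pairs with a given common divisor -/
lemma fib4 {α C : ℝ} (h0 : 0 < α) (hα : α ≤ 1 / 24) (hC : 0 ≤ C)
    (hav : ∀ g S : ℕ, 1 ≤ g → g ≤ S →
      ∑ t ∈ (Bx g S).filter (fun t : ℤ × ℤ => IsCoprime t.1 t.2 ∧ IsCoprime (g : ℤ) t.2 ∧
      ∀ j, F4 g t.1 t.2 j ≠ 0),
      ((2 : ℝ) ^ Module.finrank ℤ (EAB (A4 g t.1 t.2) (B4 g t.1 t.2)).toAffine.Point) ^ α ≤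
        C * (g * (S : ℝ) ^ 3 * 16 ^ g.primeFactors.card))
    {T g : ℕ} (hT : 1 ≤ T) (hg1 : 1 ≤ g) {Ω : Finset (ℤ × ℤ)}
    (hΩ : ∀ p ∈ Ω, Pp p T ∧ Int.gcd p.1 p.2 = g) :
    ∑ p ∈ Ω, w4 α p ≤ (C * 16 ^ (16 ^ 2) + 4 * (4 ^ 6 * 40)) * T ^ 3 *
      (Real.sqrt g / (g : ℝ) ^ 2) := by
  obtain ⟨S, hS⟩ : ∃ S, S = T / g := ⟨_, rfl⟩
  have hgR : (0 : ℝ) < g := by exact_mod_cast hg1
  have hSg : S * g ≤ T := by rw [hS]; exact Nat.div_mul_le_self T g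
  have hSR : (S : ℝ) ≤ T / g := by
    rw [le_div_iff₀ hgR]
    exact_mod_cast hSg
  have hfa : ∀ p ∈ Ω, (cp p).1.natAbs ≤ S := by
    intro p hp
    have := (cp_facts (hΩ p hp).2 hg1 (hΩ p hp).1).2.2.2.1
    rw [hS, Nat.le_div_iff_mul_le hg1, mul_comm]
    exact this
  have hs0 : 0 ≤ Real.sqrt g / (g : ℝ) ^ 2 := by positivity
  rcases Nat.lt_or_ge S g with hlt | hge
  · -- the trivial range
    have hTg : T < g * g := by
      have h1 : T < (S + 1) * g := by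
        rw [hS]
        exact Nat.lt_mul_of_div_lt (Nat.lt_succ_self _) hg1
      exact h1.trans_le (Nat.mul_le_mul_right _ hlt)
    obtain ⟨M, hM⟩ : ∃ M, M = T ^ 2 / g := ⟨_, rfl⟩
    have hMR : (M : ℝ) ≤ T ^ 2 / g := by
      rw [le_div_iff₀ hgR, hM]
      exact_mod_cast Nat.div_mul_le_self (T ^ 2) g
    have hcard : (Ω.card : ℝ) ≤ 4 * (T : ℝ) ^ 3 / (g : ℝ) ^ 2 := by
      have h1 : Ω.card ≤ (((Icc (-(S : ℤ)) S).erase 0) ×ˢ ((Icc (-(M : ℤ)) M).erase 0)).card := by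
        apply card_le_card_of_injOn cp
        · intro p hp
          have hf := cp_facts (hΩ p hp).2 hg1 (hΩ p hp).1
          have ha := hfa p hp
          have hb : (cp p).2.natAbs ≤ M := by
            rw [hM, Nat.le_div_iff_mul_le hg1, mul_comm]
            exact hf.2.2.2.2
          have n0 : (cp p).1 ≠ 0 := hf.2.2.1 0
          have n2 : (cp p).2 ≠ 0 := hf.2.2.1 2
          rw [mem_coe, mem_product, mem_erase, mem_erase, mem_Icc, mem_Icc]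
          refine ⟨⟨n0, ?_, ?_⟩, n2, ?_, ?_⟩ <;> omega
        · exact cp_inj fun p hp => (hΩ p hp).2
      have h2 : ∀ n : ℕ, ((Icc (-(n : ℤ)) n).erase 0).card = 2 * n := by
        intro n
        rw [card_erase_of_mem (mem_Icc.2 ⟨by omega, by omega⟩), Int.card_Icc]
        omega
      rw [card_product, h2, h2] at h1
      have h3 : (Ω.card : ℝ) ≤ (2 * S) * (2 * M) := by exact_mod_cast h1
      calc (Ω.card : ℝ) ≤ (2 * S) * (2 * M) := h3
        _ ≤ (2 * (T / g)) * (2 * (T ^ 2 / g)) := by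
          apply mul_le_mul _ _ (by positivity) (by positivity)
          · linarith
          · linarith
        _ = 4 * (T : ℝ) ^ 3 / (g : ℝ) ^ 2 := by
          field_simp
          ring
    calc ∑ p ∈ Ω, w4 α p ≤ ∑ _p ∈ Ω, (4 ^ 6 * 40 : ℝ) * Real.sqrt g :=
          sum_le_sum fun p hp => w4_triv h0 hα (hΩ p hp).1 hTg
      _ = (Ω.card : ℝ) * ((4 ^ 6 * 40 : ℝ) * Real.sqrt g) := by rw [sum_const, nsmul_eq_mul]
      _ ≤ (4 * (T : ℝ) ^ 3 / (g : ℝ) ^ 2) * ((4 ^ 6 * 40 : ℝ) * Real.sqrt g) :=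
          mul_le_mul_of_nonneg_right hcard (by positivity)
      _ = 4 * (4 ^ 6 * 40) * T ^ 3 * (Real.sqrt g / (g : ℝ) ^ 2) := by ring
      _ ≤ _ := by
          apply mul_le_mul_of_nonneg_right _ hs0
          apply mul_le_mul_of_nonneg_right _ (by positivity)
          have : 0 ≤ C * (16 : ℝ) ^ (16 ^ 2) := by positivity
          linarith
  · -- the main range
    have h1 : ∑ p ∈ Ω, w4 α p ≤ C * (g * (S : ℝ) ^ 3 * 16 ^ g.primeFactors.card) := by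
      refine le_trans ?_ (hav g S hg1 hge)
      have e : ∑ p ∈ Ω, w4 α p = ∑ t ∈ Ω.image cp,
          ((2 : ℝ) ^ Module.finrank ℤ (EAB (A4 g t.1 t.2) (B4 g t.1 t.2)).toAffine.Point) ^ α := by
        rw [sum_image (cp_inj fun p hp => (hΩ p hp).2)]
        exact sum_congr rfl fun p hp => w4_cp (hΩ p hp).2
      rw [e]
      refine sum_le_sum_of_subset_of_nonneg ?_ fun t _ _ => Real.rpow_nonneg (by positivity) _
      intro t ht
      obtain ⟨p, hp, rfl⟩ := mem_image.1 ht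
      have hf := cp_facts (hΩ p hp).2 hg1 (hΩ p hp).1
      refine mem_filter.2 ⟨mem_Bx.2 ⟨hfa p hp, ?_⟩, hf.1, hf.2.1, hf.2.2.1⟩
      have h2 : T < (S + 1) * g := by
        rw [hS]
        exact Nat.lt_mul_of_div_lt (Nat.lt_succ_self _) hg1
      have h3 : T ≤ 2 * (S * g) := by
        have : (S + 1) * g ≤ (2 * S) * g := Nat.mul_le_mul_right _ (by omega)
        have e2 : (2 * S) * g = 2 * (S * g) := by ring
        omega
      have h4 : g * (cp p).2.natAbs ≤ g * (4 * g * S ^ 2) := by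
        calc g * (cp p).2.natAbs ≤ T ^ 2 := hf.2.2.2.2
          _ ≤ (2 * (S * g)) ^ 2 := Nat.pow_le_pow_left h3 2
          _ = g * (4 * g * S ^ 2) := by ring
      exact Nat.le_of_mul_le_mul_left h4 hg1
    refine h1.trans ?_
    have h2 := om_sqrt 16 g (by norm_num) (by omega)
    push_cast at h2
    calc C * (g * (S : ℝ) ^ 3 * 16 ^ g.primeFactors.card) ≤
        C * (g * ((T : ℝ) / g) ^ 3 * ((16 : ℝ) ^ (16 ^ 2) * Real.sqrt g)) := by
          apply mul_le_mul_of_nonneg_left _ hC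
          apply mul_le_mul _ h2 (by positivity) (by positivity)
          apply mul_le_mul_of_nonneg_left _ hgR.le
          exact pow_le_pow_left₀ (Nat.cast_nonneg _) hSR 3
      _ = C * 16 ^ (16 ^ 2) * T ^ 3 * (Real.sqrt g / (g : ℝ) ^ 2) := by
          generalize (16 : ℝ) ^ (16 ^ 2) = Q
          field_simp
      _ ≤ _ := by
          apply mul_le_mul_of_nonneg_right _ hs0
          apply mul_le_mul_of_nonneg_right _ (by positivity)
          have : (0 : ℝ) ≤ 4 * (4 ^ 6 * 40) := by positivity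
          linarith

/-- **the average over the reduced pairs** -/
theorem sum5 : ∃ α : ℝ, 0 < α ∧ α ≤ 1 ∧ ∃ C : ℝ, 0 ≤ C ∧ ∀ T : ℕ, 1 ≤ T →
    ∀ Ω : Finset (ℤ × ℤ), (∀ p ∈ Ω, Pp p T) → ∑ p ∈ Ω, w4 α p ≤ C * (T : ℝ) ^ 3 := by
  classical
  obtain ⟨α, hα0, hα1, C, hC, hav⟩ := avg4
  obtain ⟨K, hK0, hK⟩ := sum_g
  have hα' : 0 < min α (1 / 24) := lt_min hα0 (by norm_num)
  refine ⟨min α (1 / 24), hα', (min_le_left _ _).trans hα1,
    (C * 16 ^ (16 ^ 2) + 4 * (4 ^ 6 * 40)) * K, by positivity, fun T hT Ω hΩ => ?_⟩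
  have hav' : ∀ g S : ℕ, 1 ≤ g → g ≤ S →
      ∑ t ∈ (Bx g S).filter (fun t : ℤ × ℤ => IsCoprime t.1 t.2 ∧ IsCoprime (g : ℤ) t.2 ∧
      ∀ j, F4 g t.1 t.2 j ≠ 0),
      ((2 : ℝ) ^ Module.finrank ℤ (EAB (A4 g t.1 t.2) (B4 g t.1 t.2)).toAffine.Point) ^
        (min α (1 / 24)) ≤ C * (g * (S : ℝ) ^ 3 * 16 ^ g.primeFactors.card) := by
    intro g S hg hgS
    refine le_trans (sum_le_sum fun t _ => ?_) (hav g S hg hgS)
    exact Real.rpow_le_rpow_of_exponent_le (one_le_pow₀ (by norm_num)) (min_le_left _ _)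
  have h1 : ∑ p ∈ Ω, w4 (min α (1 / 24)) p = ∑ g ∈ Icc 1 T,
      ∑ p ∈ Ω.filter (fun p => Int.gcd p.1 p.2 = g), w4 (min α (1 / 24)) p := by
    symm
    apply sum_fiberwise_of_maps_to (g := fun p : ℤ × ℤ => Int.gcd p.1 p.2)
    intro p hp
    have h := hΩ p hp
    rw [mem_Icc]
    have h2 : 0 < Int.gcd p.1 p.2 := Int.gcd_pos_of_ne_zero_left _ h.1
    refine ⟨h2, ?_⟩
    have h3 : Int.gcd p.1 p.2 ∣ p.1.natAbs := Int.natCast_dvd.1 (Int.gcd_dvd_left _ _)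
    exact (Nat.le_of_dvd (Int.natAbs_pos.2 h.1) h3).trans h.2.2.2.2.1
  rw [h1]
  calc ∑ g ∈ Icc 1 T, ∑ p ∈ Ω.filter (fun p => Int.gcd p.1 p.2 = g), w4 (min α (1 / 24)) p ≤
      ∑ g ∈ Icc 1 T, (C * 16 ^ (16 ^ 2) + 4 * (4 ^ 6 * 40)) * T ^ 3 *
        (Real.sqrt g / (g : ℝ) ^ 2) := by
        refine sum_le_sum fun g hg => ?_
        refine fib4 hα' (min_le_right _ _) hC hav' hT (mem_Icc.1 hg).1 fun p hp => ?_
        exact ⟨hΩ p (mem_filter.1 hp).1, (mem_filter.1 hp).2⟩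
    _ = (C * 16 ^ (16 ^ 2) + 4 * (4 ^ 6 * 40)) * T ^ 3 *
        ∑ g ∈ Icc 1 T, (Real.sqrt g / (g : ℝ) ^ 2) := by rw [mul_sum]
    _ ≤ (C * 16 ^ (16 ^ 2) + 4 * (4 ^ 6 * 40)) * T ^ 3 * K := by
        apply mul_le_mul_of_nonneg_left (hK _)
        positivity
    _ = _ := by ring

end Pool.Agent.R421.Z4
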