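import Pool.Agent.R421.Z4.Fix2

/-!
# Project Z4: the weights of the tuples
-/

set_option autoImplicit false
set_option linter.all false

namespace Pool.Agent.R421.Z4

open Finset Pool.Agent.W262.RK Pool.Agent.W307.RT Pool.Agent.TH841.PT Pool.Agent.R421.HF
open Pool.Agent.TH841.PT.CNTPf (mem_flt exp_le_div)

/-- the weights -/
noncomputable def g4 (i : Fin 3 × Ty) (p : ℕ) : ℝ :=
  if i.1 = 0 then (if i.2 = tyb false then 1 / 2 else 0)
  else if i.1 = 1 then (if i.2 = tyb (decide (jacobiSym (-1) p = -1)) then 1 else 0)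
  else (if i.2 = tyb false then 1 else 0)

lemma g4_nonneg (i : Fin 3 × Ty) (p : ℕ) : 0 ≤ g4 i p := by
  unfold g4
  split_ifs <;> norm_num

lemma g4_le (i : Fin 3 × Ty) (p : ℕ) : g4 i p ≤ 1 := by
  unfold g4
  split_ifs <;> norm_num

/-- the value at a typed prime -/
lemma g4_ty {g : ℕ} {b : ℤ} {i : Fin 3 × Ty} {p : ℕ} (h : ty4 g b i.1 p = some i.2) :
    g4 i p = if i.1 = 0 then 1 / 2 else 1 := by
  obtain ⟨j, θ⟩ := i
  unfold g4
  simp only at h ⊢
  rcases fin3 j with rfl | rfl | rfl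
  · simp [(ty_0 h).2]
  · rw [if_pos (ty_1 h)]
    simp
  · simp [ty_2 h]

/-- the local factors -/
noncomputable def wl (i : Fin 3 × Ty) (p : ℕ) : ℝ :=
  if i.1 = 0 then Real.exp (2 / p) / 2 * Real.exp (1 / 2 / p) else Real.exp (2 / p)

lemma wl_pos (i : Fin 3 × Ty) (p : ℕ) : 0 < wl i p := by
  unfold wl
  split_ifs <;> positivity

lemma wl_le {g : ℕ} {b : ℤ} {i : Fin 3 × Ty} {p : ℕ} (hp : 3 < p)
    (h : ty4 g b i.1 p = some i.2) : wl i p / p ≤ g4 i p / ((p : ℝ) - 3) := by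
  rw [g4_ty h]
  have hp0 : (0 : ℝ) < p := by exact_mod_cast (by omega : 0 < p)
  have hp3 : (0 : ℝ) < (p : ℝ) - 3 := by
    have : (3 : ℝ) < p := by exact_mod_cast hp
    linarith
  unfold wl
  split_ifs with h0
  · have h1 := exp_le_div (a := 5 / 2) (c := 3) (p := p) (by norm_num) (by norm_num) hp
    have h2 : Real.exp (2 / (p : ℝ)) / 2 * Real.exp (1 / 2 / p) = Real.exp (5 / 2 / p) / 2 := by
      have : (5 / 2 / (p : ℝ)) = 2 / p + 1 / 2 / p := by ring
      rw [this, Real.exp_add]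
      ring
    rw [h2]
    push_cast at h1
    rw [div_le_div_iff₀ hp0 hp3]
    rw [le_div_iff₀ hp3] at h1
    nlinarith
  · have h1 := exp_le_div (a := 2) (c := 3) (p := p) (by norm_num) (by norm_num) hp
    push_cast at h1
    rw [div_le_div_iff₀ hp0 hp3]
    rw [le_div_iff₀ hp3] at h1
    linarith

/-- the weight of the tuples -/
noncomputable def RW4 (s v u : Fin 3 × Ty → ℕ) : ℝ :=
  (∏ i, gp (g4 i) 3 (s i)) * (∏ i, gp (g4 i) 3 (v i) / v i) *
        (∏ i, ((3 : ℕ) : ℝ) ^ (u i).primeFactors.card / (u i : ℝ))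

lemma gp4_nonneg {z y d : ℕ} (hz : 3 < z) (i : Fin 3 × Ty)
    (hd : d ∈ (PP z y).divisors) : 0 ≤ gp (g4 i) 3 d := by
  unfold gp
  refine prod_nonneg fun p hp => div_nonneg (g4_nonneg _ _) ?_
  have hpp := Nat.prime_of_mem_primeFactors hp
  have hzp := (dv_prime hd hpp (Nat.dvd_of_mem_primeFactors hp)).1
  have : (3 : ℝ) < p := by exact_mod_cast (by omega : 3 < p)
  push_cast
  linarith

lemma RW4_nonneg {z y : ℕ} (hz : 3 < z) {s v u : Fin 3 × Ty → ℕ}
    (hs : ∀ i, s i ∈ (PP z y).divisors)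
    (hv : ∀ i, v i ∈ (PP z y).divisors) : 0 ≤ RW4 s v u := by
  unfold RW4
  refine mul_nonneg (mul_nonneg (prod_nonneg fun i _ => gp4_nonneg hz i (hs i))
    (prod_nonneg fun i _ => div_nonneg (gp4_nonneg hz i (hv i)) (Nat.cast_nonneg _)))
    (prod_nonneg fun i _ => div_nonneg (pow_nonneg (Nat.cast_nonneg _) _) (Nat.cast_nonneg _))

section

variable {g z y Y : ℕ} {s v u : Fin 3 × Ty → ℕ} {a b b' : ℤ}

lemma gp_ge {d : ℕ} (i : Fin 3 × Ty) (hz : 3 < z) (hd : d ∈ (PP z y).divisors)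
    (hty : ∀ p : ℕ, p.Prime → p ∣ d → ty4 g b i.1 p = some i.2) :
    (∏ p ∈ d.primeFactors, wl i p) / d ≤ gp (g4 i) 3 d := by
  unfold gp
  have h1 : (d : ℝ) = ∏ p ∈ d.primeFactors, (p : ℝ) := by
    rw [← Nat.cast_prod, Nat.prod_primeFactors_of_squarefree (dv_squarefree hd)]
  conv_lhs => rw [h1]
  rw [← prod_div_distrib]
  refine prod_le_prod (fun p _ => div_nonneg (wl_pos _ _).le (Nat.cast_nonneg _)) fun p hp => ?_
  have hpp := Nat.prime_of_mem_primeFactors hp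
  have hpd := Nat.dvd_of_mem_primeFactors hp
  have := (dv_prime hd hpp hpd).1
  exact wl_le (by omega) (hty p hpp hpd)

/-- the comparison of the weights -/
lemma G4.RW_ge (h : G4 g z y s v u a b) (hz : 3 < z)
    (hs : ∀ i, s i ∈ (PP z y).divisors)
    (hv : ∀ i, v i ∈ (PP z y).divisors) (hu : ∀ i, u i ∈ (PP y Y).divisors) :
    (∏ i, (∏ p ∈ (s i).primeFactors, wl i p) * ∏ p ∈ (v i).primeFactors, wl i p) /
      ((∏ i, mi s v u i : ℕ) : ℝ) ≤ RW4 s v u := by
  unfold RW4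
  rw [Nat.cast_prod, ← prod_div_distrib, ← prod_mul_distrib, ← prod_mul_distrib]
  refine prod_le_prod (fun i _ => ?_) fun i _ => ?_
  · refine div_nonneg (mul_nonneg (prod_nonneg fun _ _ => (wl_pos _ _).le)
      (prod_nonneg fun _ _ => (wl_pos _ _).le)) (Nat.cast_nonneg _)
  have h1 := gp_ge (g := g) (b := b) i hz (hs i) (fun p hp hpd => (h.fs hp hpd).2.2.2)
  have h2 := gp_ge (g := g) (b := b) i hz (hv i) (fun p hp hpd => (h.fv hp hpd).2.2)
  have s0 : (0 : ℝ) < s i := by exact_mod_cast dv_pos (hs i)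
  have v0 : (0 : ℝ) < v i := by exact_mod_cast dv_pos (hv i)
  have u0 : (0 : ℝ) < u i := by exact_mod_cast dv_pos (hu i)
  have w1 : 0 ≤ ∏ p ∈ (s i).primeFactors, wl i p := prod_nonneg fun _ _ => (wl_pos _ _).le
  have w2 : 0 ≤ ∏ p ∈ (v i).primeFactors, wl i p := prod_nonneg fun _ _ => (wl_pos _ _).le
  have h3 : (1 : ℝ) / u i ≤ ((3 : ℕ) : ℝ) ^ (u i).primeFactors.card / u i := by
    apply div_le_div_of_nonneg_right _ u0.le
    exact one_le_pow₀ (by norm_num)
  have e : (∏ p ∈ (s i).primeFactors, wl i p) * (∏ p ∈ (v i).primeFactors, wl i p) /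
      ((mi s v u i : ℕ) : ℝ) = ((∏ p ∈ (s i).primeFactors, wl i p) / s i) *
      ((∏ p ∈ (v i).primeFactors, wl i p) / v i / v i) * (1 / u i) := by
    unfold mi
    push_cast
    field_simp
  rw [e]
  refine mul_le_mul (mul_le_mul h1 (div_le_div_of_nonneg_right h2 v0.le) (by positivity)
    (h1.trans' (by positivity))) h3 (by positivity) ?_
  refine mul_nonneg (h1.trans' (by positivity)) (div_nonneg (h2.trans' (by positivity)) v0.le)

open Classical in
/-- the products over the primes of the moduli -/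
lemma G4.prodI (h : G4 g z y s v u a b) (hz : 2 ≤ z) (hzy : z < y)
    (hs : s ∈ Tup (Fin 3 × Ty) z y) (hv : v ∈ Tup (Fin 3 × Ty) z y)
    (hu : u ∈ Tup (Fin 3 × Ty) y Y) (I : Finset (Fin 3 × Ty)) (w : ℕ → ℝ) :
    ∏ p ∈ PS z y, (if p ∣ ∏ i ∈ I, mi s v u i then w p else 1) =
      ∏ i ∈ I, (∏ p ∈ (s i).primeFactors, w p) * ∏ p ∈ (v i).primeFactors, w p := by
  have hs' := (Pool.Agent.W372.RK2.mem_Tup'.1 hs).1
  have hv' := (Pool.Agent.W372.RK2.mem_Tup'.1 hv).1
  have hu' := (Pool.Agent.W372.RK2.mem_Tup'.1 hu).1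
  have e1 : ∀ d ∈ (PP z y).divisors, ∏ p ∈ d.primeFactors, w p =
      ∏ p ∈ PS z y, (if p ∣ d then w p else 1) := by
    intro d hd
    rw [← prod_filter]
    apply prod_congr _ fun _ _ => rfl
    ext p
    rw [mem_filter, Nat.mem_primeFactors]
    constructor
    · rintro ⟨hp, hd', _⟩
      exact ⟨mem_PS.2 ⟨dv_prime hd hp hd', hp⟩, hd'⟩
    · rintro ⟨hp, hd'⟩
      exact ⟨(mem_PS.1 hp).2, hd', dv_ne_zero hd⟩
  have e2 : ∏ i ∈ I, (∏ p ∈ (s i).primeFactors, w p) * ∏ p ∈ (v i).primeFactors, w p =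
      ∏ p ∈ PS z y, ∏ i ∈ I, ((if p ∣ s i then w p else 1) * (if p ∣ v i then w p else 1)) := by
    rw [prod_comm]
    refine prod_congr rfl fun i _ => ?_
    rw [e1 _ (hs' i), e1 _ (hv' i), ← prod_mul_distrib]
  rw [e2]
  refine prod_congr rfl fun p hP => ?_
  have hp := (mem_PS.1 hP).2
  have hmi : ∀ i, (p ∣ s i ∨ p ∣ v i) → p ∣ s i * v i ^ 2 * u i := by
    intro i h1
    rcases h1 with h1 | h1
    · exact (h1.mul_right _).mul_right _
    · exact ((h1.pow two_ne_zero).mul_left _).mul_right _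
  by_cases hd : p ∣ ∏ i ∈ I, mi s v u i
  · rw [if_pos hd]
    obtain ⟨i, hi, h1⟩ := (hp.prime.dvd_finsetProd_iff _).1 hd
    have h2 : p ∣ s i ∨ p ∣ v i := by
      unfold mi at h1
      rcases hp.dvd_mul.1 h1 with h1 | h1
      · rcases hp.dvd_mul.1 h1 with h1 | h1
        · exact Or.inl h1
        · exact Or.inr (hp.dvd_of_dvd_pow h1)
      · have h3 := (dv_prime (hu' i) hp h1).1
        have h4 := (mem_PS.1 hP).1.2
        omega
    rw [prod_eq_single i]
    · rcases h2 with h2 | h2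
      · have h3 : ¬ p ∣ v i := fun h4 => (h.fs hp h2).2.2.1 (h.fv hp h4).2.1
        rw [if_pos h2, if_neg h3, mul_one]
      · have h3 : ¬ p ∣ s i := fun h4 => (h.fs hp h4).2.2.1 (h.fv hp h2).2.1
        rw [if_pos h2, if_neg h3, one_mul]
    · intro l _ hl
      have h3 : ¬ (p ∣ s l ∨ p ∣ v l) := fun h4 => hl
        (h.un hz hzy hu hp (hmi l h4) (hmi i h2))
      push Not at h3
      rw [if_neg h3.1, if_neg h3.2, one_mul]
    · intro h3
      exact absurd hi h3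
  · rw [if_neg hd]
    symm
    apply prod_eq_one
    intro i hi
    have h3 : ¬ (p ∣ s i ∨ p ∣ v i) := fun h4 => hd
      ((hmi i h4).trans (dvd_prod_of_mem (mi s v u) hi))
    push Not at h3
    rw [if_neg h3.1, if_neg h3.2, one_mul]

end

end Pool.Agent.R421.Z4
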